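import Pool.Agent.H3.LC.Defs

/-!
# LC Mertens: Chebyshev and Mertens estimates

* `cheb_theta`: `Chebyshev.theta_le_log4_mul_x` (`θ x ≤ log 4 * x`, `log 4 < 2`).
* `cheb_pi`: in Mathlib (file NumberTheory/Chebyshev.lean, look for `primeCounting`), or: the primes in `(√n, n]` number at
  most `θ(n) / log √n`, plus `√n`.
* `mertens`: `∑_{d ≤ n} Λ(d)/d = log n + O(1)` follows from `log n! = ∑_{d ≤ n} Λ(d) ⌊n/d⌋`, `log n! = n log n + O(n)`, `ψ(n) = O(n)`;
  the non-prime prime powers contribute a convergent sum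
  (`ArithmeticFunction.vonMangoldt.summable_residueClass_non_primes_div` with modulus 1, or `∑ log p / (p (p-1))`).
  The file Pool/Agent/H91/GoldMertens.lean (in the graded repository) contains `Mt_ge`, `Mt_le` for
  `Mt n = ∑_{d ≤ n} Λ d / d`; you may import it.
-/

set_option autoImplicit false

open Finset

namespace Pool.Agent.H3.LC

theorem mertens_log4 : Real.log 4 ≤ 2 := by
  have h : Real.log 4 = 2 * Real.log 2 := by
    rw [show (4 : ℝ) = 2 ^ 2 by norm_num, Real.log_pow]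
    norm_num
  have := Real.log_two_lt_d9
  linarith

theorem cheb_theta (n : ℕ) : ∑ p ∈ (Icc 1 n).filter Nat.Prime, Real.log p ≤ 2 * (n : ℝ) := by
  have h1 := Chebyshev.theta_le_log4_mul_x (x := (n : ℝ)) (Nat.cast_nonneg n)
  rw [Chebyshev.theta_eq_sum_Icc, Nat.floor_natCast] at h1
  have h2 : (Icc 1 n).filter Nat.Prime = (Icc 0 n).filter Nat.Prime := by
    ext p
    simp only [mem_filter, mem_Icc]
    constructor
    · rintro ⟨⟨h3, h4⟩, h5⟩; exact ⟨⟨Nat.zero_le _, h4⟩, h5⟩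
    · rintro ⟨⟨h3, h4⟩, h5⟩; exact ⟨⟨h5.one_lt.le, h4⟩, h5⟩
  rw [h2]
  refine h1.trans ?_
  exact mul_le_mul_of_nonneg_right mertens_log4 (Nat.cast_nonneg n)

theorem cheb_pi : ∃ C : ℝ, 0 < C ∧ ∀ n : ℕ, 2 ≤ n →
    (((Icc 1 n).filter Nat.Prime).card : ℝ) ≤ C * n / Real.log n := by
  refine ⟨6, by norm_num, fun n hn => ?_⟩
  have hn1 : (1 : ℝ) < n := by exact_mod_cast hn
  have hn0 : (0 : ℝ) < n := by linarith
  have h1 := Chebyshev.pi_le_log4_mul_div (x := (n : ℝ)) hn1
  rw [Nat.floor_natCast] at h1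
  have h2 : ((Icc 1 n).filter Nat.Prime).card ≤ Nat.primeCounting n := by
    rw [Nat.primeCounting, Nat.primeCounting', Nat.count_eq_card_filter_range]
    refine card_le_card fun p hp => ?_
    rw [mem_filter, mem_Icc] at hp
    rw [mem_filter, mem_range]
    exact ⟨by omega, hp.2⟩
  have hlog : 0 < Real.log n := Real.log_pos hn1
  have h3 : Real.log (√n) = Real.log n / 2 := Real.log_sqrt hn0.le
  rw [h3] at h1
  have hs : 0 < √(n : ℝ) := Real.sqrt_pos.2 hn0
  have h4 : Real.log n ≤ 2 * √n := by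
    have := Real.log_le_sub_one_of_pos hs
    rw [h3] at this
    linarith
  have h5 : √(n : ℝ) ≤ 2 * n / Real.log n := by
    rw [le_div_iff₀ hlog]
    calc √(n : ℝ) * Real.log n ≤ √n * (2 * √n) := mul_le_mul_of_nonneg_left h4 hs.le
      _ = 2 * (√n * √n) := by ring
      _ = 2 * n := by rw [Real.mul_self_sqrt hn0.le]
  have h6 : Real.log 4 * n / (Real.log n / 2) ≤ 4 * n / Real.log n := by
    rw [div_div_eq_mul_div]
    refine div_le_div_of_nonneg_right ?_ hlog.le
    nlinarith [mertens_log4]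
  calc (((Icc 1 n).filter Nat.Prime).card : ℝ) ≤ (Nat.primeCounting n : ℝ) := by exact_mod_cast h2
    _ ≤ Real.log 4 * n / (Real.log n / 2) + √n := h1
    _ ≤ 4 * n / Real.log n + 2 * n / Real.log n := add_le_add h6 h5
    _ = 6 * n / Real.log n := by ring

open scoped ArithmeticFunction.vonMangoldt in
theorem mertens_log_fact_eq (n : ℕ) :
    ∑ k ∈ Ioc 0 n, Real.log k = ∑ d ∈ Ioc 0 n, Λ d * ((n / d : ℕ) : ℝ) := by
  rw [← ArithmeticFunction.sum_Ioc_mul_zeta_eq_sum, ArithmeticFunction.vonMangoldt_mul_zeta]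
  rfl

theorem mertens_log_fact_ge (n : ℕ) (hn : 1 ≤ n) :
    n * Real.log n - n ≤ ∑ k ∈ Ioc 0 n, Real.log k := by
  induction n, hn using Nat.le_induction with
  | base => simp
  | succ n hn ih =>
    rw [sum_Ioc_succ_top (by omega)]
    have hn0 : (0 : ℝ) < n := by exact_mod_cast hn
    have h1 : Real.log ((n + 1 : ℕ) : ℝ) - Real.log n ≤ 1 / n := by
      rw [← Real.log_div (by positivity) hn0.ne']
      have := Real.log_le_sub_one_of_pos (x := ((n + 1 : ℕ) : ℝ) / n) (by positivity)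
      have e : ((n + 1 : ℕ) : ℝ) / n - 1 = 1 / n := by push_cast; field_simp; ring
      linarith
    have h2 : (n : ℝ) * (Real.log ((n + 1 : ℕ) : ℝ) - Real.log n) ≤ 1 := by
      calc (n : ℝ) * (Real.log ((n + 1 : ℕ) : ℝ) - Real.log n) ≤ n * (1 / n) :=
            mul_le_mul_of_nonneg_left h1 hn0.le
        _ = 1 := by field_simp
    push_cast at *
    nlinarith

open scoped ArithmeticFunction.vonMangoldt in
/-- the sum of `Λ d / d`, `d ≤ n` -/
noncomputable def mertensM (n : ℕ) : ℝ := ∑ d ∈ Ioc 0 n, Λ d / d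

open scoped ArithmeticFunction.vonMangoldt in
theorem mertensM_ge (n : ℕ) (hn : 1 ≤ n) : Real.log n - 1 ≤ mertensM n := by
  have hn0 : (0 : ℝ) < n := by exact_mod_cast hn
  have h1 := mertens_log_fact_ge n hn
  rw [mertens_log_fact_eq] at h1
  have h2 : ∑ d ∈ Ioc 0 n, Λ d * ((n / d : ℕ) : ℝ) ≤ n * mertensM n := by
    unfold mertensM
    rw [mul_sum]
    apply sum_le_sum
    intro d _
    have := @Nat.cast_div_le ℝ _ _ _ n d
    calc Λ d * ((n / d : ℕ) : ℝ) ≤ Λ d * ((n : ℝ) / d) :=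
          mul_le_mul_of_nonneg_left this ArithmeticFunction.vonMangoldt_nonneg
      _ = n * (Λ d / d) := by ring
  have h3 : (n : ℝ) * (Real.log n - 1) ≤ n * mertensM n := by linarith
  exact le_of_mul_le_mul_left h3 hn0

open scoped ArithmeticFunction.vonMangoldt in
theorem mertensM_le (n : ℕ) (hn : 1 ≤ n) : mertensM n ≤ Real.log n + (Real.log 4 + 4) := by
  have hn0 : (0 : ℝ) < n := by exact_mod_cast hn
  have hn1 : (1 : ℝ) ≤ n := by exact_mod_cast hn
  have h1 : ∑ k ∈ Ioc 0 n, Real.log k ≤ n * Real.log n := by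
    calc ∑ k ∈ Ioc 0 n, Real.log k ≤ ∑ _k ∈ Ioc 0 n, Real.log n := by
          refine sum_le_sum fun k hk => ?_
          rw [mem_Ioc] at hk
          exact Real.log_le_log (by exact_mod_cast hk.1) (by exact_mod_cast hk.2)
      _ = n * Real.log n := by rw [sum_const, Nat.card_Ioc, nsmul_eq_mul]; simp
  rw [mertens_log_fact_eq] at h1
  have h2 : n * mertensM n ≤ ∑ d ∈ Ioc 0 n, Λ d * ((n / d : ℕ) : ℝ) + ∑ d ∈ Ioc 0 n, Λ d := by
    unfold mertensM
    rw [mul_sum, ← sum_add_distrib]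
    refine sum_le_sum fun d hd => ?_
    rw [mem_Ioc] at hd
    have hd0 : (0 : ℝ) < d := by exact_mod_cast hd.1
    have h3 : (n : ℝ) / d ≤ ((n / d : ℕ) : ℝ) + 1 := by
      rw [div_le_iff₀ hd0]
      have h4 : n < (n / d + 1) * d := by
        have := Nat.div_add_mod n d
        have := Nat.mod_lt n hd.1
        nlinarith
      exact_mod_cast h4.le
    calc n * (Λ d / d) = Λ d * (n / d) := by ring
      _ ≤ Λ d * (((n / d : ℕ) : ℝ) + 1) :=
          mul_le_mul_of_nonneg_left h3 ArithmeticFunction.vonMangoldt_nonneg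
      _ = _ := by ring
  have h3 : ∑ d ∈ Ioc 0 n, Λ d ≤ (Real.log 4 + 4) * n := by
    have := Chebyshev.psi_le_const_mul_self (x := (n : ℝ)) hn0.le
    rw [Chebyshev.psi, Nat.floor_natCast] at this
    exact this
  have h4 : n * mertensM n ≤ n * (Real.log n + (Real.log 4 + 4)) := by linarith
  exact le_of_mul_le_mul_left h4 hn0

open scoped ArithmeticFunction.vonMangoldt in
theorem mertens : ∃ C : ℝ, 0 < C ∧ ∀ n : ℕ, 1 ≤ n →
    |∑ p ∈ (Icc 1 n).filter Nat.Prime, Real.log p / p - Real.log n| ≤ C := by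
  have hs := ArithmeticFunction.vonMangoldt.summable_residueClass_non_primes_div (q := 1) 0
  have hr : ∀ n : ℕ, ArithmeticFunction.vonMangoldt.residueClass (0 : ZMod 1) n = Λ n := by
    intro n
    unfold ArithmeticFunction.vonMangoldt.residueClass
    rw [Set.indicator_of_mem]
    exact Subsingleton.elim _ _
  simp only [hr] at hs
  have hnn : ∀ n : ℕ, 0 ≤ (if n.Prime then 0 else Λ n) / (n : ℝ) := by
    intro n
    split_ifs
    · simp
    · exact div_nonneg ArithmeticFunction.vonMangoldt_nonneg (Nat.cast_nonneg n)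
  set D : ℝ := ∑' n : ℕ, (if n.Prime then 0 else Λ n) / (n : ℝ) with hD
  have hD0 : 0 ≤ D := tsum_nonneg hnn
  have hlog4 : 0 ≤ Real.log 4 := Real.log_nonneg (by norm_num)
  refine ⟨D + Real.log 4 + 4, by linarith, fun n hn => ?_⟩
  have h1 := mertensM_ge n hn
  have h2 := mertensM_le n hn
  have e : Ioc 0 n = Icc 1 n := by
    ext k; simp only [mem_Ioc, mem_Icc]; omega
  have h3 : mertensM n = ∑ p ∈ (Icc 1 n).filter Nat.Prime, Real.log p / p +
      ∑ d ∈ Icc 1 n, (if d.Prime then 0 else Λ d) / (d : ℝ) := by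
    unfold mertensM
    rw [e, sum_filter, ← sum_add_distrib]
    refine sum_congr rfl fun d _ => ?_
    split_ifs with h
    · rw [ArithmeticFunction.vonMangoldt_apply_prime h]; simp
    · simp
  have h4 : ∑ d ∈ Icc 1 n, (if d.Prime then 0 else Λ d) / (d : ℝ) ≤ D :=
    hs.sum_le_tsum _ fun d _ => hnn d
  have h5 : 0 ≤ ∑ d ∈ Icc 1 n, (if d.Prime then 0 else Λ d) / (d : ℝ) :=
    sum_nonneg fun d _ => hnn d
  rw [abs_le]
  constructor <;> linarith

end Pool.Agent.H3.LC
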