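import Pool.Agent.H3.LC.Defs

/-!
# LC Arith: elementary facts on the lcm of a block

* `choose_dvd_M`: for a prime `p` let `p^e` be the exact power of `p` in `M m k`.  By Kummer
  (`Nat.factorization_choose'`) `v_p (C(m+k,k))` is the number of `a ≥ 1` with `p^a ≤ k % p^a + m % p^a`; for such an
  `a` the number `x = m + (p^a - m % p^a)` is a multiple of `p^a` in `(m, m+k]`, so `a ≤ e`.  Hence `v_p ≤ e`.
* `M_dvd`: it is enough that every `x ∈ (n, n+k]` divides `C(n+k,k) * lcm(1..k)`: let `p^e` be the exact power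
  of `p` in `x = n + i`.  For `a ≤ e` with `p^a > k` we have `k % p^a = k`, `n % p^a = p^a - i` (`1 ≤ i ≤ k < p^a`),
  a carry; so `v_p (C(n+k,k)) ≥ #{a ≤ e : p^a > k} = e - min(e, log_p k)` and `v_p (lcm(1..k)) ≥ min(e, log_p k)`.
* `sol_ratio`: `C(m+k,k) ≤ M m k = M n k ≤ C(n+k,k) lcm(1..k) ≤ C(n+k,k) 256^k` (`lcm(1..k) = exp (ψ k)`,
  `Chebyshev.psi_le_const_mul_self`: `ψ x ≤ (log 4 + 4) x`, `log 4 + 4 < log 256`), and
  `C(m+k,k) / C(n+k,k) = ∏_{i=1}^k (m+i)/(n+i) ≥ ((m+k)/(n+k))^k` because `(m+i)(n+k) ≥ (m+k)(n+i)` for `i ≤ k`.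
-/

set_option autoImplicit false

open Finset

namespace Pool.Agent.H3.LC

private theorem arith_M_ne_zero (n k : ℕ) : M n k ≠ 0 := by
  unfold M
  rw [Ne, Finset.lcm_eq_zero_iff]
  rintro ⟨x, hx, h0⟩
  rw [mem_Icc] at hx
  have h1 : x = 0 := h0
  omega

private theorem arith_dvd_M {n k x : ℕ} (hx : x ∈ Icc (n + 1) (n + k)) : x ∣ M n k :=
  Finset.dvd_lcm (f := id) hx

theorem prime_dvd_M {p n k : ℕ} (hp : p.Prime) : p ∣ M n k ↔ ∃ x ∈ Icc (n + 1) (n + k), p ∣ x := by
  constructor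
  · intro h
    have h1 : M n k ∣ ∏ x ∈ Icc (n + 1) (n + k), x :=
      Finset.lcm_dvd fun b hb => Finset.dvd_prod_of_mem (fun x => x) hb
    exact (hp.prime.dvd_finsetProd_iff (fun x => x)).1 (h.trans h1)
  · rintro ⟨x, hx, h⟩
    exact h.trans (arith_dvd_M hx)

theorem multiple_unique {p n k x y : ℕ} (hp : k ≤ p) (hx : x ∈ Icc (n + 1) (n + k))
    (hy : y ∈ Icc (n + 1) (n + k)) (h1 : p ∣ x) (h2 : p ∣ y) : x = y := by
  rw [mem_Icc] at hx hy
  rcases lt_trichotomy x y with h | h | h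
  · have h3 : p ∣ y - x := Nat.dvd_sub h2 h1
    have h4 := Nat.le_of_dvd (by omega) h3
    omega
  · exact h
  · have h3 : p ∣ x - y := Nat.dvd_sub h1 h2
    have h4 := Nat.le_of_dvd (by omega) h3
    omega

theorem card_multiples_le {v : ℕ} (n k : ℕ) (hv : 0 < v) :
    ((Icc (n + 1) (n + k)).filter (fun x => v ∣ x)).card ≤ k / v + 1 := by
  have h1 : ((Icc (n + 1) (n + k)).filter (fun x => v ∣ x)).card ≤
      (Ioc (n / v) ((n + k) / v)).card := by
    refine card_le_card_of_injOn (fun x => x / v) ?_ ?_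
    · intro x hx
      rw [mem_coe, mem_filter, mem_Icc] at hx
      obtain ⟨⟨ha, hb⟩, c, rfl⟩ := hx
      rw [mem_coe, mem_Ioc]
      simp only [Nat.mul_div_cancel_left c hv]
      constructor
      · rw [Nat.div_lt_iff_lt_mul hv, mul_comm]
        omega
      · rw [Nat.le_div_iff_mul_le hv, mul_comm]
        exact hb
    · intro x hx y hy hxy
      rw [mem_coe, mem_filter] at hx hy
      obtain ⟨-, c, rfl⟩ := hx
      obtain ⟨-, d, rfl⟩ := hy
      simp only [Nat.mul_div_cancel_left _ hv] at hxy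
      rw [hxy]
  refine h1.trans ?_
  rw [Nat.card_Ioc, Nat.add_div hv, add_assoc, Nat.add_sub_cancel_left]
  refine Nat.add_le_add_left ?_ _
  split_ifs
  · exact le_refl 1
  · exact Nat.zero_le 1

private theorem arith_pow_le {p m k i : ℕ} (hp : p.Prime) (h : p ^ i ≤ k % p ^ i + m % p ^ i) :
    i ≤ (M m k).factorization p := by
  rw [← hp.pow_dvd_iff_le_factorization (arith_M_ne_zero m k)]
  have hpos : 0 < p ^ i := pow_pos hp.pos i
  have h1 : k % p ^ i ≤ k := Nat.mod_le _ _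
  have h2 : m % p ^ i < p ^ i := Nat.mod_lt _ hpos
  have h3 : p ^ i * (m / p ^ i) + m % p ^ i = m := Nat.div_add_mod m (p ^ i)
  have h4 : p ^ i ∣ p ^ i * (m / p ^ i + 1) := Dvd.intro _ rfl
  refine h4.trans (arith_dvd_M ?_)
  rw [mem_Icc, mul_add, mul_one]
  omega

theorem choose_dvd_M (m k : ℕ) : (m + k).choose k ∣ M m k := by
  have hC : (m + k).choose k ≠ 0 := (Nat.choose_pos (by omega)).ne'
  rw [← Nat.factorization_prime_le_iff_dvd hC (arith_M_ne_zero m k)]
  intro p hp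
  rw [Nat.factorization_choose' hp (Nat.lt_succ_self _)]
  have h1 : (Ico 1 (Nat.succ (Nat.log p (m + k)))).filter
      (fun i => p ^ i ≤ k % p ^ i + m % p ^ i) ⊆ Ioc 0 ((M m k).factorization p) := by
    intro i hi
    rw [mem_filter, mem_Ico] at hi
    rw [mem_Ioc]
    exact ⟨by omega, arith_pow_le hp hi.2⟩
  refine (card_le_card h1).trans ?_
  rw [Nat.card_Ioc, Nat.sub_zero]

private theorem arith_pow_dvd {p n k i e : ℕ} (hp : p.Prime) (hi : 1 ≤ i) (hik : i ≤ k)
    (he : p ^ e ∣ n + i) : p ^ e ∣ (n + k).choose k * (Icc 1 k).lcm id := by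
  have hC : (n + k).choose k ≠ 0 := (Nat.choose_pos (by omega)).ne'
  have hL : (Icc 1 k).lcm id ≠ 0 := Nat.lcmUpto_ne_zero k
  have hLf : ((Icc 1 k).lcm id).factorization p = Nat.log p k := Nat.factorization_lcmUpto k hp
  rw [hp.pow_dvd_iff_le_factorization (mul_ne_zero hC hL), Nat.factorization_mul hC hL,
    Finsupp.add_apply, hLf]
  have hb : Nat.log p (n + k) < max (Nat.log p (n + k)) e + 1 := by omega
  rw [Nat.factorization_choose' hp hb]
  have h1 : Ioc (Nat.log p k) e ⊆ (Ico 1 (max (Nat.log p (n + k)) e + 1)).filter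
      (fun a => p ^ a ≤ k % p ^ a + n % p ^ a) := by
    intro a ha
    rw [mem_Ioc] at ha
    rw [mem_filter, mem_Ico]
    refine ⟨⟨by omega, by omega⟩, ?_⟩
    have hk : k < p ^ a := Nat.lt_pow_of_log_lt hp.one_lt ha.1
    have hpos : 0 < p ^ a := pow_pos hp.pos a
    have hd : p ^ a ∣ n + i := (pow_dvd_pow p ha.2).trans he
    have h3 : p ^ a * (n / p ^ a) + n % p ^ a = n := Nat.div_add_mod n (p ^ a)
    have h4 : p ^ a ∣ n % p ^ a + i := by
      have h5 : p ^ a ∣ p ^ a * (n / p ^ a) + (n % p ^ a + i) := by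
        rw [← add_assoc, h3]
        exact hd
      exact (Nat.dvd_add_right (Dvd.intro _ rfl)).1 h5
    have h6 := Nat.le_of_dvd (Nat.add_pos_right _ hi) h4
    rw [Nat.mod_eq_of_lt hk]
    calc p ^ a ≤ n % p ^ a + i := h6
      _ ≤ n % p ^ a + k := Nat.add_le_add_left hik _
      _ = k + n % p ^ a := Nat.add_comm _ _
  have h2 := card_le_card h1
  rw [Nat.card_Ioc] at h2
  omega

theorem M_dvd (n k : ℕ) : M n k ∣ (n + k).choose k * (Icc 1 k).lcm id := by
  refine Finset.lcm_dvd fun x hx => ?_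
  rw [mem_Icc] at hx
  simp only [id]
  rw [Nat.dvd_iff_prime_pow_dvd_dvd]
  intro p e hp he
  obtain ⟨i, rfl⟩ : ∃ i, x = n + i := ⟨x - n, by omega⟩
  exact arith_pow_dvd hp (by omega) (by omega) he

private theorem arith_lcm_le (k : ℕ) : (((Icc 1 k).lcm id : ℕ) : ℝ) ≤ 256 ^ k := by
  have h1 : Real.log (((Icc 1 k).lcm id : ℕ) : ℝ) ≤ (Real.log 4 + 4) * k := by
    have h2 := Chebyshev.psi_eq_log_lcmUpto k
    have h3 := Chebyshev.psi_le_const_mul_self (x := (k : ℝ)) (Nat.cast_nonneg k)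
    rw [h2] at h3
    exact h3
  have hpos : (0 : ℝ) < (((Icc 1 k).lcm id : ℕ) : ℝ) := Nat.cast_pos.2 (Nat.lcmUpto_pos k)
  have h4 : Real.log 4 + 4 ≤ Real.log 256 := by
    have h5 : Real.log 256 = Real.log 4 + 6 * Real.log 2 := by
      rw [show (256 : ℝ) = 4 * 2 ^ 6 by norm_num, Real.log_mul (by norm_num) (by norm_num),
        Real.log_pow]
      norm_num
    have h6 := Real.log_two_gt_d9
    rw [h5]
    linarith
  rw [← Real.log_le_log_iff hpos (by positivity), Real.log_pow]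
  calc Real.log (((Icc 1 k).lcm id : ℕ) : ℝ) ≤ (Real.log 4 + 4) * k := h1
    _ ≤ Real.log 256 * k := mul_le_mul_of_nonneg_right h4 (Nat.cast_nonneg k)
    _ = k * Real.log 256 := mul_comm _ _

private theorem arith_desc (n m k : ℕ) (h : n ≤ m) :
    (m + k) ^ k * (n + k).descFactorial k ≤ (n + k) ^ k * (m + k).descFactorial k := by
  rw [Nat.descFactorial_eq_prod_range, Nat.descFactorial_eq_prod_range]
  have e1 : (m + k) ^ k = ∏ _i ∈ range k, (m + k) := by rw [prod_const, card_range]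
  have e2 : (n + k) ^ k = ∏ _i ∈ range k, (n + k) := by rw [prod_const, card_range]
  rw [e1, e2, ← prod_mul_distrib, ← prod_mul_distrib]
  refine prod_le_prod' fun i hi => ?_
  rw [mem_range] at hi
  obtain ⟨j, rfl⟩ : ∃ j, k = i + j := ⟨k - i, by omega⟩
  have e3 : n + (i + j) - i = n + j := by omega
  have e4 : m + (i + j) - i = m + j := by omega
  rw [e3, e4]
  nlinarith [Nat.mul_le_mul_left i h]

theorem sol_ratio {n k m : ℕ} (h : Sol n k m) : m + k ≤ 256 * (n + k) := by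
  obtain ⟨hk, hnm, hM⟩ := h
  have h1 : (m + k).choose k ∣ (n + k).choose k * (Icc 1 k).lcm id := by
    have h2 := choose_dvd_M m k
    rw [hM] at h2
    exact h2.trans (M_dvd n k)
  have hCn : 0 < (n + k).choose k := Nat.choose_pos (by omega)
  have hLpos : 0 < (Icc 1 k).lcm id := Nat.lcmUpto_pos k
  have h3 : (m + k).choose k ≤ (n + k).choose k * (Icc 1 k).lcm id :=
    Nat.le_of_dvd (Nat.mul_pos hCn hLpos) h1
  have h4 := arith_desc n m k (by omega)
  rw [Nat.descFactorial_eq_factorial_mul_choose, Nat.descFactorial_eq_factorial_mul_choose] at h4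
  have h5 : (m + k) ^ k * (n + k).choose k ≤ (n + k) ^ k * (m + k).choose k := by
    have hf : 0 < k.factorial := Nat.factorial_pos k
    refine Nat.le_of_mul_le_mul_left ?_ hf
    calc k.factorial * ((m + k) ^ k * (n + k).choose k)
        = (m + k) ^ k * (k.factorial * (n + k).choose k) := by ring
      _ ≤ (n + k) ^ k * (k.factorial * (m + k).choose k) := h4
      _ = k.factorial * ((n + k) ^ k * (m + k).choose k) := by ring
  have h6 : (m + k) ^ k * (n + k).choose k ≤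
      (n + k) ^ k * (Icc 1 k).lcm id * (n + k).choose k := by
    calc (m + k) ^ k * (n + k).choose k ≤ (n + k) ^ k * (m + k).choose k := h5
      _ ≤ (n + k) ^ k * ((n + k).choose k * (Icc 1 k).lcm id) := Nat.mul_le_mul_left _ h3
      _ = (n + k) ^ k * (Icc 1 k).lcm id * (n + k).choose k := by ring
  have h7 : (m + k) ^ k ≤ (n + k) ^ k * (Icc 1 k).lcm id := Nat.le_of_mul_le_mul_right h6 hCn
  have h8 : ((m + k : ℕ) : ℝ) ^ k ≤ ((n + k : ℕ) : ℝ) ^ k * 256 ^ k := by
    have h9 : ((m + k : ℕ) : ℝ) ^ k ≤ ((n + k : ℕ) : ℝ) ^ k * (((Icc 1 k).lcm id : ℕ) : ℝ) := by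
      exact_mod_cast h7
    exact h9.trans (mul_le_mul_of_nonneg_left (arith_lcm_le k) (by positivity))
  rw [← mul_pow] at h8
  have h10 : ((m + k : ℕ) : ℝ) ≤ ((n + k : ℕ) : ℝ) * 256 :=
    le_of_pow_le_pow_left₀ hk.ne' (by positivity) h8
  have h11 : m + k ≤ (n + k) * 256 := by exact_mod_cast h10
  omega

end Pool.Agent.H3.LC
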