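import Pool.Agent.H3.LC.Defs
import Pool.Agent.H91.PT.Sel

/-!
# LC BT: Brun-Titchmarsh (with some constant)

Use `Pool.Agent.H91.PT.selberg_weights` (file Pool/Agent/H91/PT/Sel.lean of the graded repository, imports only Mathlib) with `M = 1`:
real weights `lam`, `lam 1 = 1`, `|lam r| ≤ 1`, supported on squarefree `r ≤ z`, `∑ lam r lam s / lcm(r,s) ≤ 1 / log z`.
A prime `p > z` is divisible by no `1 < r ≤ z`, so `(∑_{r ∣ p} lam r)² = 1`; hence
`#{z < p ∈ (x, x+y]} ≤ ∑_{n ∈ (x,x+y]} (∑_{r ∣ n} lam r)² = ∑_{r,s} lam r lam s #{n : lcm(r,s) ∣ n} ≤ y / log z + z²`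
(`#{n ∈ (x,x+y] : d ∣ n} = y/d + θ`, `|θ| ≤ 1`).  Take `z = y^(1/4)`; the primes `≤ z` are at most `z` in number.
-/

set_option autoImplicit false

open Finset

namespace Pool.Agent.H3.LC

theorem bt_count (x y d : ℕ) (hd : 1 ≤ d) :
    |((((Icc (x + 1) (x + y)).filter (fun n => d ∣ n)).card : ℕ) : ℝ) - (y : ℝ) / d| ≤ 1 := by
  have h0 : (((Icc (x + 1) (x + y)).filter (fun n => d ∣ n)).card : ℕ) + x / d = (x + y) / d := by
    have e1 := Nat.Ioc_filter_dvd_card_eq_div (x + y) d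
    have e2 := Nat.Ioc_filter_dvd_card_eq_div x d
    rw [← e1, ← e2, ← card_union_of_disjoint]
    · congr 1
      ext n
      simp only [mem_union, mem_filter, mem_Icc, mem_Ioc]
      constructor
      · rintro (⟨⟨h1, h2⟩, h3⟩ | ⟨⟨h1, h2⟩, h3⟩)
        · exact ⟨⟨by omega, h2⟩, h3⟩
        · exact ⟨⟨h1, by omega⟩, h3⟩
      · rintro ⟨⟨h1, h2⟩, h3⟩
        rcases Nat.lt_or_ge x n with h | h
        · exact Or.inl ⟨⟨by omega, h2⟩, h3⟩
        · exact Or.inr ⟨⟨h1, h⟩, h3⟩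
    · rw [disjoint_left]
      intro n hn hn'
      simp only [mem_filter, mem_Icc, mem_Ioc] at hn hn'
      omega
  have h1 : (((((Icc (x + 1) (x + y)).filter (fun n => d ∣ n)).card : ℕ) : ℝ)) =
      (((x + y) / d : ℕ) : ℝ) - ((x / d : ℕ) : ℝ) := by
    rw [← h0]
    push_cast
    ring
  have hd0 : (0 : ℝ) < d := by exact_mod_cast (by omega : 0 < d)
  have a1 : (((x + y) / d : ℕ) : ℝ) ≤ ((x : ℝ) + y) / d := by
    have := @Nat.cast_div_le ℝ _ _ _ (x + y) d
    push_cast at this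
    exact this
  have a2 : ((x : ℝ) + y) / d < (((x + y) / d : ℕ) : ℝ) + 1 := by
    have := Nat.lt_div_mul_add (a := x + y) (by omega : 0 < d)
    rw [div_lt_iff₀ hd0]
    have h' : ((x + y : ℕ) : ℝ) < (((x + y) / d * d + d : ℕ) : ℝ) := by exact_mod_cast this
    push_cast at h' ⊢
    nlinarith
  have b1 : ((x / d : ℕ) : ℝ) ≤ (x : ℝ) / d := Nat.cast_div_le
  have b2 : (x : ℝ) / d < ((x / d : ℕ) : ℝ) + 1 := by
    have := Nat.lt_div_mul_add (a := x) (by omega : 0 < d)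
    rw [div_lt_iff₀ hd0]
    have h' : ((x : ℕ) : ℝ) < ((x / d * d + d : ℕ) : ℝ) := by exact_mod_cast this
    push_cast at h' ⊢
    nlinarith
  rw [h1, abs_le]
  have e : ((x : ℝ) + y) / d = (x : ℝ) / d + (y : ℝ) / d := by ring
  rw [e] at a1 a2
  constructor <;> linarith

theorem bt_upper (x y N : ℕ) (hN : 1 ≤ N) (lam : ℕ → ℝ) (h1 : lam 1 = 1) :
    (((Icc (x + 1) (x + y)).filter Nat.Prime).card : ℝ) ≤
      N + ∑ n ∈ Icc (x + 1) (x + y), (∑ r ∈ Icc 1 N, if r ∣ n then lam r else 0) ^ 2 := by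
  set I := Icc (x + 1) (x + y) with hI
  have hs : ((I.filter Nat.Prime).card : ℝ) = (((I.filter Nat.Prime).filter (fun p => p ≤ N)).card : ℝ) +
      (((I.filter Nat.Prime).filter (fun p => ¬ p ≤ N)).card : ℝ) := by
    rw [← Nat.cast_add, card_filter_add_card_filter_not]
  rw [hs]
  refine add_le_add ?_ ?_
  · have : ((I.filter Nat.Prime).filter (fun p => p ≤ N)).card ≤ (Icc 1 N).card := by
      refine card_le_card fun p hp => ?_
      simp only [mem_filter, mem_Icc] at hp ⊢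
      exact ⟨hp.1.2.one_lt.le, hp.2⟩
    rw [Nat.card_Icc] at this
    have h2 : ((I.filter Nat.Prime).filter (fun p => p ≤ N)).card ≤ N := by omega
    exact_mod_cast h2
  · have h2 : ∀ n ∈ (I.filter Nat.Prime).filter (fun p => ¬ p ≤ N),
        (∑ r ∈ Icc 1 N, if r ∣ n then lam r else 0) ^ 2 = 1 := by
      intro n hn
      simp only [mem_filter] at hn
      have h3 : ∑ r ∈ Icc 1 N, (if r ∣ n then lam r else 0) = lam 1 := by
        rw [sum_eq_single 1]
        · simp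
        · intro r hr hr1
          rw [mem_Icc] at hr
          rw [if_neg]
          intro hd
          rcases (Nat.dvd_prime hn.1.2).1 hd with h | h
          · exact hr1 h
          · omega
        · intro h
          exact absurd (mem_Icc.2 ⟨le_rfl, hN⟩) h
      rw [h3, h1]
      norm_num
    calc (((I.filter Nat.Prime).filter (fun p => ¬ p ≤ N)).card : ℝ)
        = ∑ n ∈ (I.filter Nat.Prime).filter (fun p => ¬ p ≤ N), (1 : ℝ) := by
          rw [sum_const, nsmul_eq_mul, mul_one]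
      _ = ∑ n ∈ (I.filter Nat.Prime).filter (fun p => ¬ p ≤ N),
            (∑ r ∈ Icc 1 N, if r ∣ n then lam r else 0) ^ 2 :=
          sum_congr rfl fun n hn => (h2 n hn).symm
      _ ≤ _ := by
          refine sum_le_sum_of_subset_of_nonneg ?_ fun n _ _ => sq_nonneg _
          exact (filter_subset _ _).trans (filter_subset _ _)

theorem bt_expand (x y N : ℕ) (lam : ℕ → ℝ) :
    ∑ n ∈ Icc (x + 1) (x + y), (∑ r ∈ Icc 1 N, if r ∣ n then lam r else 0) ^ 2 =
      ∑ r ∈ Icc 1 N, ∑ s ∈ Icc 1 N, lam r * lam s *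
        ((((Icc (x + 1) (x + y)).filter (fun n => Nat.lcm r s ∣ n)).card : ℕ) : ℝ) := by
  have h : ∀ n : ℕ, (∑ r ∈ Icc 1 N, if r ∣ n then lam r else 0) ^ 2 =
      ∑ r ∈ Icc 1 N, ∑ s ∈ Icc 1 N, lam r * lam s * (if Nat.lcm r s ∣ n then 1 else 0) := by
    intro n
    rw [sq, sum_mul_sum]
    refine sum_congr rfl fun r _ => sum_congr rfl fun s _ => ?_
    by_cases hr : r ∣ n
    · by_cases hs : s ∣ n
      · rw [if_pos hr, if_pos hs, if_pos (Nat.lcm_dvd hr hs), mul_one]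
      · rw [if_pos hr, if_neg hs, if_neg fun h => hs ((Nat.dvd_lcm_right r s).trans h)]
        simp
    · rw [if_neg hr, if_neg fun h => hr ((Nat.dvd_lcm_left r s).trans h)]
      simp
  rw [sum_congr rfl fun n _ => h n, sum_comm]
  refine sum_congr rfl fun r _ => ?_
  rw [sum_comm]
  refine sum_congr rfl fun s _ => ?_
  rw [← mul_sum]
  congr 1
  rw [card_eq_sum_ones, sum_filter]
  push_cast
  rfl

theorem bt_sum (x y N : ℕ) (lam : ℕ → ℝ) (hl : ∀ r, |lam r| ≤ 1) :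
    ∑ r ∈ Icc 1 N, ∑ s ∈ Icc 1 N, lam r * lam s *
        ((((Icc (x + 1) (x + y)).filter (fun n => Nat.lcm r s ∣ n)).card : ℕ) : ℝ) ≤
      y * (∑ r ∈ Icc 1 N, ∑ s ∈ Icc 1 N, lam r * lam s / (Nat.lcm r s : ℝ)) + (N : ℝ) ^ 2 := by
  have h : ∀ r ∈ Icc 1 N, ∀ s ∈ Icc 1 N, lam r * lam s *
      ((((Icc (x + 1) (x + y)).filter (fun n => Nat.lcm r s ∣ n)).card : ℕ) : ℝ) ≤
      y * (lam r * lam s / (Nat.lcm r s : ℝ)) + 1 := by
    intro r hr s hs
    rw [mem_Icc] at hr hs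
    have hc := bt_count x y (Nat.lcm r s) (Nat.lcm_pos (by omega) (by omega))
    set c := ((((Icc (x + 1) (x + y)).filter (fun n => Nat.lcm r s ∣ n)).card : ℕ) : ℝ) with hcd
    have e1 : lam r * lam s * c - y * (lam r * lam s / (Nat.lcm r s : ℝ)) =
        lam r * lam s * (c - (y : ℝ) / (Nat.lcm r s : ℝ)) := by ring
    have e2 : |lam r * lam s * (c - (y : ℝ) / (Nat.lcm r s : ℝ))| ≤ 1 := by
      rw [abs_mul, abs_mul]
      have a1 := hl r
      have a2 := hl s
      have a3 : |lam r| * |lam s| ≤ 1 := by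
        calc |lam r| * |lam s| ≤ 1 * 1 := mul_le_mul a1 a2 (abs_nonneg _) zero_le_one
          _ = 1 := one_mul 1
      calc |lam r| * |lam s| * |c - (y : ℝ) / (Nat.lcm r s : ℝ)| ≤ 1 * 1 :=
            mul_le_mul a3 hc (abs_nonneg _) zero_le_one
        _ = 1 := one_mul 1
    have e3 := (abs_le.1 e2).2
    linarith
  calc _ ≤ ∑ r ∈ Icc 1 N, ∑ s ∈ Icc 1 N, (y * (lam r * lam s / (Nat.lcm r s : ℝ)) + 1) :=
        sum_le_sum fun r hr => sum_le_sum fun s hs => h r hr s hs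
    _ = _ := by
        simp only [sum_add_distrib, sum_const, Nat.card_Icc, Nat.add_sub_cancel, nsmul_eq_mul,
          mul_one, mul_sum]
        ring

theorem brun_titchmarsh : ∃ C : ℝ, 0 < C ∧ ∀ x y : ℕ, 2 ≤ y →
    (((Icc (x + 1) (x + y)).filter Nat.Prime).card : ℝ) ≤ C * y / Real.log y := by
  refine ⟨8, by norm_num, fun x y hy => ?_⟩
  have hy2 : (2 : ℝ) ≤ y := by exact_mod_cast hy
  have hlog : 0 < Real.log y := Real.log_pos (by linarith)
  have hs1 : 1 < Real.sqrt y := by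
    rw [Real.lt_sqrt zero_le_one]
    norm_num
    linarith
  set z := Real.sqrt (Real.sqrt y) with hz
  have hz1 : 1 < z := by
    rw [hz, Real.lt_sqrt zero_le_one]
    simpa using hs1
  have hz2 : z ^ 2 = Real.sqrt y := Real.sq_sqrt (Real.sqrt_nonneg _)
  have hzlog : Real.log z = Real.log y / 4 := by
    rw [hz, Real.log_sqrt (Real.sqrt_nonneg _), Real.log_sqrt (by linarith)]
    ring
  obtain ⟨lam, l1, l2, -, -, l5⟩ := Pool.Agent.H91.PT.selberg_weights 1 le_rfl hz1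
  set N := ⌊z⌋₊ with hNd
  have hN : 1 ≤ N := Nat.le_floor (by push_cast; exact hz1.le)
  have hNz : (N : ℝ) ≤ z := Nat.floor_le (by linarith)
  have k1 := bt_upper x y N hN lam l1
  rw [bt_expand] at k1
  have k2 := bt_sum x y N lam l2
  have k3 : (y : ℝ) * (∑ r ∈ Icc 1 N, ∑ s ∈ Icc 1 N, lam r * lam s / (Nat.lcm r s : ℝ)) ≤
      y * (4 / Real.log y) := by
    refine mul_le_mul_of_nonneg_left (l5.trans (le_of_eq ?_)) (by linarith)
    rw [hzlog]
    simp
  have hN2 : (N : ℝ) ^ 2 ≤ Real.sqrt y := by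
    rw [← hz2]
    have : (0 : ℝ) ≤ N := Nat.cast_nonneg N
    gcongr
  have hN1 : (N : ℝ) ≤ Real.sqrt y := by
    have : (1 : ℝ) ≤ N := by exact_mod_cast hN
    nlinarith
  -- the square root against y / log y
  have hsq : Real.sqrt y ≤ 2 * y / Real.log y := by
    rw [le_div_iff₀ hlog]
    have e1 : Real.log y = 2 * Real.log (Real.sqrt y) := by
      rw [Real.log_sqrt (by linarith)]
      ring
    have e2 := Real.log_le_sub_one_of_pos (by linarith : 0 < Real.sqrt y)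
    have e3 : Real.sqrt y * Real.sqrt y = y := Real.mul_self_sqrt (by linarith)
    rw [e1]
    nlinarith
  have e4 : (8 : ℝ) * y / Real.log y = y * (4 / Real.log y) + 2 * (2 * y / Real.log y) := by
    field_simp
    ring
  rw [e4]
  linarith

end Pool.Agent.H3.LC
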