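import Pool.Agent.H3.LC.Defs

/-!
# LC Cases: consequences of a single ratio

Let `r = u / v` in lowest terms.  Every `x ∈ S` is divisible by `v` (`r x` is an integer).  If `v ≥ 2` take a prime `q ∣ v`.
If `v = 1` then `r` is an integer (if `S` is empty both alternatives hold), `r ≥ 2` because `y ≥ m + 1 > n + k ≥ x ≥ 1`.
For `x < x'` in `S`: `y' - y = r (x' - x) ≥ 2 (x' - x)` and `y' - y ≤ k - 1`.  For `x' ≤ x`: `2 x' + 1 ≤ 2 x + k` as `k ≥ 1`
(because the block is nonempty).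
-/

set_option autoImplicit false

open Finset

namespace Pool.Agent.H3.LC

theorem ratio_cases {n k m : ℕ} (hnk : n + k ≤ m) {S : Finset ℕ} (hS : S ⊆ Icc (n + 1) (n + k)) {r : ℚ}
    (hr : ∀ x ∈ S, ∃ y ∈ Icc (m + 1) (m + k), (y : ℚ) = r * (x : ℚ)) :
    (∃ q : ℕ, q.Prime ∧ ∀ x ∈ S, q ∣ x) ∨ (∀ x ∈ S, ∀ x' ∈ S, 2 * x' + 1 ≤ 2 * x + k) := by
  by_cases hv : r.den = 1
  · right
    have hrn : r = (r.num : ℚ) := by
      conv_lhs => rw [← Rat.num_div_den r]
      rw [hv]; simp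
    have hint : ∀ x ∈ S, ∃ y : ℕ, m + 1 ≤ y ∧ y ≤ m + k ∧ (y : ℤ) = r.num * (x : ℤ) := by
      intro x hx
      obtain ⟨y, hy, hyx⟩ := hr x hx
      rw [mem_Icc] at hy
      refine ⟨y, hy.1, hy.2, ?_⟩
      rw [hrn] at hyx
      exact_mod_cast hyx
    intro x hx x' hx'
    have h1 := mem_Icc.1 (hS hx)
    have h2 := mem_Icc.1 (hS hx')
    obtain ⟨y, hy1, hy2, hy⟩ := hint x hx
    obtain ⟨y', hy1', hy2', hy'⟩ := hint x' hx'
    rcases le_or_gt x' x with h | h
    · omega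
    · have hxp : (1 : ℤ) ≤ x := by omega
      have hz : (2 : ℤ) ≤ r.num := by
        by_contra hlt
        have h3 : r.num ≤ 1 := by omega
        have h4 : r.num * (x : ℤ) ≤ 1 * (x : ℤ) := mul_le_mul_of_nonneg_right h3 (by omega)
        omega
      have h5 : (y' : ℤ) - y = r.num * ((x' : ℤ) - x) := by
        rw [hy, hy']; ring
      have h6 : 2 * ((x' : ℤ) - x) ≤ r.num * ((x' : ℤ) - x) :=
        mul_le_mul_of_nonneg_right hz (by omega)
      omega
  · left
    obtain ⟨q, hq, hqd⟩ := Nat.exists_prime_and_dvd hv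
    refine ⟨q, hq, fun x hx => ?_⟩
    obtain ⟨y, _, hyx⟩ := hr x hx
    have h1 : (y : ℚ) * r.den = r.num * x := by
      rw [hyx, mul_right_comm, Rat.mul_den_eq_num]
    have h2 : (y : ℤ) * r.den = r.num * x := by exact_mod_cast h1
    have h3 : (r.den : ℤ) ∣ r.num * x := ⟨y, by rw [← h2]; ring⟩
    have h4 : r.den ∣ r.num.natAbs * x := by
      have := Int.natAbs_dvd_natAbs.2 h3
      rwa [Int.natAbs_mul, Int.natAbs_natCast, Int.natAbs_natCast] at this
    have h5 : r.den ∣ x := (r.reduced.symm).dvd_of_dvd_mul_left h4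
    exact hqd.trans h5

end Pool.Agent.H3.LC
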