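import Mathlib

/-!
# PROJECT LC (MP_765627_nt, equal lcm of two disjoint blocks of consecutive integers): definitions

`M n k = lcm (n+1, ..., n+k)`.  Final theorems (Main.lean):
* `almost_all`: for almost all `n` there are no `k ≥ 1`, `m ≥ n + k` with `M m k = M n k`;
* `long_blocks`: for every `ε > 0` there are no solutions with `n ≥ n0(ε)` and `k ≥ n^(1/2+ε)`.
-/

set_option autoImplicit false

open Finset

namespace Pool.Agent.H3.LC

/-- `lcm (n+1, ..., n+k)` -/
def M (n k : ℕ) : ℕ := (Icc (n + 1) (n + k)).lcm id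

/-- the blocks `(n, n+k]` and `(m, m+k]` are disjoint (the second one to the right) with equal lcm -/
def Sol (n k m : ℕ) : Prop := 0 < k ∧ n + k ≤ m ∧ M m k = M n k

/-- the prime factors of `x` larger than `T` -/
noncomputable def big (T : ℝ) (x : ℕ) : Finset ℕ := x.primeFactors.filter (fun p => T < (p : ℝ))

/-- the mass of `x` above `T`: sum of `log p` over the prime factors `p > T` of `x` -/
noncomputable def ms (T : ℝ) (x : ℕ) : ℝ := ∑ p ∈ big T x, Real.log p

/-- the mass of `x` in `(A, B]` -/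
noncomputable def md (A B : ℝ) (x : ℕ) : ℝ :=
  ∑ p ∈ x.primeFactors.filter (fun p : ℕ => A < (p : ℝ) ∧ (p : ℝ) ≤ B), Real.log (p : ℝ)

/-- the elements of the block `(n, n+k]` with a prime factor larger than `T` -/
noncomputable def E (T : ℝ) (n k : ℕ) : Finset ℕ :=
  (Icc (n + 1) (n + k)).filter (fun x => (big T x).Nonempty)

/-- `∑ log p / p` over the primes `p ≤ √N` -/
noncomputable def mu (N : ℕ) : ℝ := ∑ p ∈ (Icc 1 (Nat.sqrt N)).filter Nat.Prime, Real.log p / p

open scoped Classical in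
/-- the number of `n < N` with property `Q` -/
noncomputable def cnt (N : ℕ) (Q : ℕ → Prop) : ℕ := ((range N).filter Q).card

theorem cnt_mono {N : ℕ} {Q Q' : ℕ → Prop} (h : ∀ n, n < N → Q n → Q' n) : cnt N Q ≤ cnt N Q' := by
  classical
  unfold cnt
  refine card_le_card fun n hn => ?_
  rw [mem_filter, mem_range] at hn ⊢
  exact ⟨hn.1, h n hn.1 hn.2⟩

theorem cnt_or_le (N : ℕ) (Q Q' : ℕ → Prop) : cnt N (fun n => Q n ∨ Q' n) ≤ cnt N Q + cnt N Q' := by
  classical
  unfold cnt
  refine le_trans (card_le_card fun n hn => ?_) (card_union_le _ _)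
  simp only [mem_filter] at hn
  rw [mem_union, mem_filter, mem_filter]
  rcases hn.2 with h | h
  · exact Or.inl ⟨hn.1, h⟩
  · exact Or.inr ⟨hn.1, h⟩

theorem cnt_eq_zero {N : ℕ} {Q : ℕ → Prop} (h : ∀ n, n < N → ¬ Q n) : cnt N Q = 0 := by
  classical
  unfold cnt
  rw [card_eq_zero, filter_eq_empty_iff]
  intro n hn
  exact h n (mem_range.1 hn)

theorem cnt_lt_le (N a : ℕ) : cnt N (fun n => n < a) ≤ a := by
  classical
  unfold cnt
  refine le_trans (card_le_card (t := range a) fun n hn => ?_) (card_range a).le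
  simp only [mem_filter] at hn
  exact mem_range.2 hn.2

theorem ms_nonneg (T : ℝ) (x : ℕ) : 0 ≤ ms T x :=
  sum_nonneg fun p _ => Real.log_natCast_nonneg p

theorem md_nonneg (A B : ℝ) (x : ℕ) : 0 ≤ md A B x :=
  sum_nonneg fun p _ => Real.log_natCast_nonneg p

theorem ms_eq_zero {T : ℝ} {x : ℕ} (h : ¬ (big T x).Nonempty) : ms T x = 0 := by
  rw [not_nonempty_iff_eq_empty] at h
  rw [ms, h, sum_empty]

theorem sum_log_primeFactors_le {x : ℕ} (hx : x ≠ 0) : ∑ p ∈ x.primeFactors, Real.log p ≤ Real.log x := by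
  have h1 : ∏ p ∈ x.primeFactors, p ≤ x := Nat.le_of_dvd (Nat.pos_of_ne_zero hx) (Nat.prod_primeFactors_dvd x)
  have h2 : ∑ p ∈ x.primeFactors, Real.log p = Real.log ((∏ p ∈ x.primeFactors, p : ℕ) : ℝ) := by
    push_cast
    rw [Real.log_prod]
    intro p hp
    exact Nat.cast_ne_zero.2 (Nat.prime_of_mem_primeFactors hp).ne_zero
  rw [h2]
  refine Real.log_le_log ?_ (Nat.cast_le.2 h1)
  exact Nat.cast_pos.2 (prod_pos fun p hp => (Nat.prime_of_mem_primeFactors hp).pos)

theorem ms_le_log {T : ℝ} {x : ℕ} (hx : x ≠ 0) : ms T x ≤ Real.log x :=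
  le_trans (sum_le_sum_of_subset_of_nonneg (filter_subset _ _)
    fun p _ _ => Real.log_natCast_nonneg p) (sum_log_primeFactors_le hx)

theorem md_le_log {A B : ℝ} {x : ℕ} (hx : x ≠ 0) : md A B x ≤ Real.log x :=
  le_trans (sum_le_sum_of_subset_of_nonneg (filter_subset _ _)
    fun p _ _ => Real.log_natCast_nonneg p) (sum_log_primeFactors_le hx)

/-- splitting of the mass -/
theorem ms_split {A B : ℝ} (hAB : A ≤ B) (x : ℕ) : ms A x = md A B x + ms B x := by
  unfold ms md big
  rw [← sum_union]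
  · congr 1
    ext p
    rw [mem_union, mem_filter, mem_filter, mem_filter]
    constructor
    · rintro ⟨h1, h2⟩
      rcases le_or_gt (p : ℝ) B with h | h
      · exact Or.inl ⟨h1, h2, h⟩
      · exact Or.inr ⟨h1, h⟩
    · rintro (⟨h1, h2, _⟩ | ⟨h1, h2⟩)
      · exact ⟨h1, h2⟩
      · exact ⟨h1, hAB.trans_lt h2⟩
  · rw [disjoint_filter]
    rintro p _ ⟨_, h⟩ h'
    exact absurd h' (not_lt.2 h)

end Pool.Agent.H3.LC
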