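import Pool.Agent.H3.LC.Arith

/-!
# LC Frac: the fractions `y / x`

* `exists_frac`: for `x ∈ E T n k` choose a prime `p > T ≥ k` with `p ∣ x`.  Then `p ∣ M n k = M m k`, so `p ∣ y` for some
  `y ∈ (m, m+k]` (`prime_dvd_M`).  Put `F x = y / x`.  With `x = p a`, `y = p b` we have `F x = b / a`, so the denominator
  divides `a` and `den * p ∣ x`.  (Choose `F` by `choose` / `Classical`, `F x = 0` off `E`.)
* `frac_interval`: `y / x ≥ (m+1)/(n+k)` and `y/x ≤ (m+k)/(n+1)`, and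
  `(m+k)/(n+1) - (m+1)/(n+k) = (k-1)(m+n+k+1)/((n+1)(n+k)) ≤ 257 k / n` as `m + k ≤ 256 (n+k)` (`sol_ratio`) and
  `n + 1 ≤ n + k`.
-/

set_option autoImplicit false

open Finset

namespace Pool.Agent.H3.LC

theorem exists_frac {n k m : ℕ} (h : Sol n k m) {T : ℝ} (hT : (k : ℝ) ≤ T) :
    ∃ F : ℕ → ℚ, ∀ x ∈ E T n k, ∃ y ∈ Icc (m + 1) (m + k), ∃ p : ℕ, p.Prime ∧ T < (p : ℝ) ∧ p ∣ x ∧
      p ∣ y ∧ F x = (y : ℚ) / (x : ℚ) ∧ (F x).den * p ∣ x := by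
  have key : ∀ x ∈ E T n k, ∃ q : ℚ, ∃ y ∈ Icc (m + 1) (m + k), ∃ p : ℕ, p.Prime ∧ T < (p : ℝ) ∧
      p ∣ x ∧ p ∣ y ∧ q = (y : ℚ) / (x : ℚ) ∧ q.den * p ∣ x := by
    intro x hx
    rw [E, mem_filter] at hx
    obtain ⟨hx1, p, hp⟩ := hx
    rw [big, mem_filter] at hp
    have hpp := Nat.prime_of_mem_primeFactors hp.1
    have hpx := Nat.dvd_of_mem_primeFactors hp.1
    have h1 : p ∣ M n k := (prime_dvd_M hpp).2 ⟨x, hx1, hpx⟩
    rw [← h.2.2] at h1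
    obtain ⟨y, hy, hpy⟩ := (prime_dvd_M hpp).1 h1
    refine ⟨(y : ℚ) / (x : ℚ), y, hy, p, hpp, hp.2, hpx, hpy, rfl, ?_⟩
    obtain ⟨a, ha⟩ := hpx
    obtain ⟨b, hb⟩ := hpy
    have hp0 : (p : ℚ) ≠ 0 := Nat.cast_ne_zero.2 hpp.ne_zero
    have h2 : (y : ℚ) / (x : ℚ) = ((b : ℤ) : ℚ) / ((a : ℤ) : ℚ) := by
      rw [ha, hb]
      push_cast
      rw [mul_div_mul_left _ _ hp0]
    have h3 : ((((y : ℚ) / (x : ℚ)).den : ℕ) : ℤ) ∣ (a : ℤ) := by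
      rw [h2, ← Rat.divInt_eq_div]; exact Rat.den_dvd b a
    have h4 : ((y : ℚ) / (x : ℚ)).den ∣ a := Int.natCast_dvd_natCast.1 h3
    have h5 : ((y : ℚ) / (x : ℚ)).den * p ∣ p * a := by
      rw [mul_comm]; exact Nat.mul_dvd_mul_left p h4
    rwa [← ha] at h5
  choose! F hF using key
  exact ⟨F, hF⟩

theorem frac_interval {n k m x y : ℕ} (hn : 0 < n) (h : Sol n k m) (hx : x ∈ Icc (n + 1) (n + k))
    (hy : y ∈ Icc (m + 1) (m + k)) :
    ((m : ℝ) + 1) / ((n : ℝ) + k) ≤ (y : ℝ) / (x : ℝ) ∧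
      (y : ℝ) / (x : ℝ) ≤ ((m : ℝ) + 1) / ((n : ℝ) + k) + 257 * (k : ℝ) / n := by
  have hk : (1 : ℝ) ≤ k := by exact_mod_cast h.1
  have hn' : (0 : ℝ) < n := by exact_mod_cast hn
  have hm : (0 : ℝ) ≤ m := Nat.cast_nonneg m
  have hr : (m : ℝ) + k ≤ 256 * ((n : ℝ) + k) := by exact_mod_cast sol_ratio h
  rw [mem_Icc] at hx hy
  have hx1 : (n : ℝ) + 1 ≤ x := by exact_mod_cast hx.1
  have hx2 : (x : ℝ) ≤ n + k := by exact_mod_cast hx.2
  have hy1 : (m : ℝ) + 1 ≤ y := by exact_mod_cast hy.1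
  have hy2 : (y : ℝ) ≤ m + k := by exact_mod_cast hy.2
  have hx0 : (0 : ℝ) < x := by linarith
  constructor
  · exact div_le_div₀ (by linarith) hy1 hx0 hx2
  · have h1 : (y : ℝ) / x ≤ ((m : ℝ) + k) / (n + 1) :=
      div_le_div₀ (by linarith) hy2 (by linarith) hx1
    have h2 : ((m : ℝ) + k) / (n + 1) - ((m : ℝ) + 1) / (n + k) ≤ 257 * (k : ℝ) / n := by
      have hA : (0 : ℝ) < n + 1 := by linarith
      have hB : (0 : ℝ) < n + k := by linarith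
      rw [div_sub_div _ _ hA.ne' hB.ne', div_le_div_iff₀ (mul_pos hA hB) hn']
      have h3 : ((m : ℝ) + k) * (n + k) - (n + 1) * (m + 1) = (k - 1) * (m + n + k + 1) := by ring
      rw [h3]
      have h4 : (m : ℝ) + n + k + 1 ≤ 257 * (n + k) := by linarith
      have h5 : ((k : ℝ) - 1) * (m + n + k + 1) ≤ k * (257 * (n + k)) :=
        mul_le_mul (by linarith) h4 (by linarith) (by linarith)
      calc ((k : ℝ) - 1) * (m + n + k + 1) * n ≤ (k * (257 * (n + k))) * (n + 1) :=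
            mul_le_mul h5 (by linarith) hn'.le (by positivity)
        _ = 257 * k * ((n + 1) * (n + k)) := by ring
    linarith

end Pool.Agent.H3.LC
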