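import Pool.Agent.H3.LC.Defs

/-!
# LC Maximal: discrete one-sided maximal inequality

Proof.  Show by strong induction on `N - a` that for every `a ≤ N`
 `lam * #{a ≤ n < N : n bad} ≤ ∑_{x ∈ Ioc a (N+H)} g x`, where `n` is bad if some `0 < k ≤ H` has `lam k < ∑_{x ∈ (n,n+k]} g x`.
If `a` is not bad use the statement for `a + 1`.  If `a` is bad with `k`, the bad `n` in `[a, a+k)` are at most `k`, they contribute
`lam k < ∑_{(a,a+k]} g`, and use the statement for `a + k` (if `a + k ≥ N` there is nothing left; note `a + k ≤ N + H`).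
-/

set_option autoImplicit false

open Finset

namespace Pool.Agent.H3.LC

open scoped Classical in
theorem maximal_aux {g : ℕ → ℝ} (hg : ∀ x, 0 ≤ g x) {lam : ℝ} (hl : 0 < lam) (N H : ℕ)
    (bad : ℕ → Prop)
    (hbad : ∀ n, bad n → ∃ k : ℕ, 0 < k ∧ k ≤ H ∧
      lam * (k : ℝ) < ∑ x ∈ Icc (n + 1) (n + k), g x) :
    ∀ d a : ℕ, N - a ≤ d → lam * (((Ico a N).filter bad).card : ℝ) ≤
      ∑ x ∈ Ico (a + 1) (N + H + 1), g x := by
  intro d
  induction d with
  | zero =>
    intro a ha
    have h1 : Ico a N = ∅ := Ico_eq_empty_of_le (by omega)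
    rw [h1, filter_empty, card_empty, Nat.cast_zero, mul_zero]
    exact sum_nonneg fun x _ => hg x
  | succ d ih =>
    intro a ha
    by_cases haN : N ≤ a
    · have h1 : Ico a N = ∅ := Ico_eq_empty_of_le haN
      rw [h1, filter_empty, card_empty, Nat.cast_zero, mul_zero]
      exact sum_nonneg fun x _ => hg x
    push Not at haN
    by_cases hb : bad a
    · obtain ⟨k, hk0, hkH, hk⟩ := hbad a hb
      have h1 := ih (a + k) (by omega)
      have h2 : ((Ico a N).filter bad).card ≤ k + ((Ico (a + k) N).filter bad).card := by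
        have h3 : (Ico a N).filter bad ⊆ Ico a (a + k) ∪ (Ico (a + k) N).filter bad := by
          intro n hn
          rw [mem_filter, mem_Ico] at hn
          rw [mem_union, mem_filter, mem_Ico, mem_Ico]
          by_cases h : n < a + k
          · exact Or.inl ⟨hn.1.1, h⟩
          · exact Or.inr ⟨⟨by omega, hn.1.2⟩, hn.2⟩
        refine (card_le_card h3).trans ((card_union_le _ _).trans ?_)
        rw [Nat.card_Ico]
        omega
      have h4 : ∑ x ∈ Ico (a + 1) (N + H + 1), g x =
          ∑ x ∈ Ico (a + 1) (a + k + 1), g x + ∑ x ∈ Ico (a + k + 1) (N + H + 1), g x :=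
        (sum_Ico_consecutive g (by omega) (by omega)).symm
      have h5 : Icc (a + 1) (a + k) = Ico (a + 1) (a + k + 1) := by
        ext x
        rw [mem_Icc, mem_Ico]
        omega
      rw [h5] at hk
      have h6 : (((Ico a N).filter bad).card : ℝ) ≤ k + (((Ico (a + k) N).filter bad).card : ℝ) := by
        exact_mod_cast h2
      rw [h4]
      have h7 := mul_le_mul_of_nonneg_left h6 hl.le
      rw [mul_add] at h7
      linarith
    · have h1 := ih (a + 1) (by omega)
      have h2 : (Ico a N).filter bad = (Ico (a + 1) N).filter bad := by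
        ext n
        rw [mem_filter, mem_filter, mem_Ico, mem_Ico]
        constructor
        · rintro ⟨⟨h3, h4⟩, h5⟩
          have : n ≠ a := by
            rintro rfl
            exact hb h5
          exact ⟨⟨by omega, h4⟩, h5⟩
        · rintro ⟨⟨h3, h4⟩, h5⟩
          exact ⟨⟨by omega, h4⟩, h5⟩
      rw [h2]
      refine h1.trans ?_
      refine sum_le_sum_of_subset_of_nonneg (Ico_subset_Ico_left (by omega)) fun x _ _ => hg x

theorem maximal {g : ℕ → ℝ} (hg : ∀ x, 0 ≤ g x) {lam : ℝ} (hl : 0 < lam) (N H : ℕ) :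
    lam * (cnt N (fun n => ∃ k : ℕ, 0 < k ∧ k ≤ H ∧ lam * (k : ℝ) < ∑ x ∈ Icc (n + 1) (n + k), g x) : ℝ) ≤
      ∑ x ∈ Icc 1 (N + H), g x := by
  classical
  have h1 := maximal_aux hg hl N H
    (fun n => ∃ k : ℕ, 0 < k ∧ k ≤ H ∧ lam * (k : ℝ) < ∑ x ∈ Icc (n + 1) (n + k), g x)
    (fun n h => h) N 0 (by omega)
  unfold cnt
  have h2 : Icc 1 (N + H) = Ico (0 + 1) (N + H + 1) := by
    ext x
    rw [mem_Icc, mem_Ico]
    omega
  rw [h2]
  have h3 : range N = Ico 0 N := range_eq_Ico N
  rw [h3]
  convert h1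

end Pool.Agent.H3.LC
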