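import Pool.Agent.H3.LC.Mertens
import Pool.Agent.H3.LC.Maximal

/-!
# LC GoodG: the mass of the primes in `(√N, N^(1/2+ε)]`

`g x = md √N (N^(1/2+ε)) x`.  `∑_{x ∈ Icc 1 (2N)} g x = ∑_{√N < p ≤ N^(1/2+ε)} log p ⌊2N/p⌋ ≤ 2N ∑_{√N < p ≤ N^(1/2+ε)} log p / p ≤ 2N (ε log N + C)` (`mertens`
for the integer parts of `N^(1/2+ε)` and `√N`).  Apply `maximal` with `H = N`, `lam = δ log N`: exceptional set of size at most
`2N (ε log N + C) / (δ log N) ≤ η N` if `ε = min (1/4) (η δ / 4)` and `N` is large.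
-/

set_option autoImplicit false

open Finset

namespace Pool.Agent.H3.LC

/-- number of multiples of `p` in `Icc 1 L` -/
theorem goodG_card_mult (L p : ℕ) :
    (((Icc 1 L).filter (fun x => p ∣ x)).card : ℝ) ≤ (L : ℝ) / p := by
  have h : ((Icc 1 L).filter (fun x => p ∣ x)).card = L / p := by
    have := Nat.Ioc_filter_dvd_card_eq_div L p
    rw [← this]
    rfl
  rw [h]
  exact Nat.cast_div_le

/-- swapping the order of summation -/
theorem goodG_sum_md (A B : ℝ) (hA : 0 ≤ A) (L : ℕ) :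
    ∑ x ∈ Icc 1 L, md A B x ≤
      (L : ℝ) * ∑ p ∈ ((Icc 1 ⌊B⌋₊).filter Nat.Prime).filter (fun p => ¬ (p ≤ ⌊A⌋₊)), Real.log p / p := by
  classical
  have h1 : ∀ x ∈ Icc 1 L, md A B x ≤
      ∑ p ∈ ((Icc 1 ⌊B⌋₊).filter Nat.Prime).filter (fun p => ¬ (p ≤ ⌊A⌋₊)),
        (if p ∣ x then Real.log p else 0) := by
    intro x hx
    unfold md
    rw [← sum_filter]
    refine sum_le_sum_of_subset_of_nonneg ?_ fun p _ _ => Real.log_natCast_nonneg p
    intro p hp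
    rw [mem_filter] at hp
    obtain ⟨hp1, hp2, hp3⟩ := hp
    have hpp := Nat.prime_of_mem_primeFactors hp1
    rw [mem_filter, mem_filter, mem_filter, mem_Icc]
    refine ⟨⟨⟨⟨hpp.one_le, Nat.le_floor hp3⟩, hpp⟩, ?_⟩, Nat.dvd_of_mem_primeFactors hp1⟩
    intro h
    have := (Nat.le_floor_iff hA).1 h
    exact absurd hp2 (not_lt.2 this)
  refine (sum_le_sum h1).trans ?_
  rw [sum_comm, mul_sum]
  refine sum_le_sum fun p _ => ?_
  rw [← sum_filter, sum_const, nsmul_eq_mul]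
  have h2 := goodG_card_mult L p
  have h3 : (0 : ℝ) ≤ Real.log p := Real.log_natCast_nonneg p
  calc (((Icc 1 L).filter (fun x => p ∣ x)).card : ℝ) * Real.log p ≤ (L : ℝ) / p * Real.log p :=
        mul_le_mul_of_nonneg_right h2 h3
    _ = (L : ℝ) * (Real.log p / p) := by ring

/-- difference of two Mertens sums -/
theorem goodG_diff (a b : ℕ) (hab : a ≤ b) :
    ∑ p ∈ ((Icc 1 b).filter Nat.Prime).filter (fun p => ¬ (p ≤ a)), Real.log p / p =
      ∑ p ∈ (Icc 1 b).filter Nat.Prime, Real.log p / p - ∑ p ∈ (Icc 1 a).filter Nat.Prime, Real.log p / p := by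
  classical
  rw [← sum_filter_add_sum_filter_not ((Icc 1 b).filter Nat.Prime) (fun p => p ≤ a)]
  have h : ((Icc 1 b).filter Nat.Prime).filter (fun p => p ≤ a) = (Icc 1 a).filter Nat.Prime := by
    ext p
    simp only [mem_filter, mem_Icc]
    constructor
    · rintro ⟨⟨⟨h1, _⟩, h2⟩, h3⟩
      exact ⟨⟨h1, h3⟩, h2⟩
    · rintro ⟨⟨h1, h3⟩, h2⟩
      exact ⟨⟨⟨h1, h3.trans hab⟩, h2⟩, h3⟩
  rw [h]
  ring

theorem good_g (δ η : ℝ) (hδ : 0 < δ) (hη : 0 < η) : ∃ ε : ℝ, 0 < ε ∧ ε ≤ 1 / 4 ∧ ∃ N0 : ℕ, ∀ N : ℕ, N0 ≤ N →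
    (cnt N (fun n => ∃ k : ℕ, 1 ≤ k ∧ k ≤ N ∧ δ * k * Real.log N <
      ∑ x ∈ Icc (n + 1) (n + k), md (Real.sqrt N) ((N : ℝ) ^ (1 / 2 + ε)) x) : ℝ) ≤ η * N := by
  obtain ⟨C, hC, hM⟩ := mertens
  set ε : ℝ := min (1 / 4) (η * δ / 4) with hε
  have hε0 : 0 < ε := by
    rw [hε]
    exact lt_min (by norm_num) (by positivity)
  have hε1 : ε ≤ 1 / 4 := min_le_left _ _
  have hε2 : ε ≤ η * δ / 4 := min_le_right _ _
  refine ⟨ε, hε0, hε1, ?_⟩
  set D : ℝ := Real.log 2 + 2 * C with hD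
  have hD0 : 0 < D := by
    have := Real.log_pos (one_lt_two : (1 : ℝ) < 2)
    rw [hD]; positivity
  have htend : Filter.Tendsto (fun N : ℕ => Real.log (N : ℝ)) Filter.atTop Filter.atTop :=
    Real.tendsto_log_atTop.comp tendsto_natCast_atTop_atTop
  obtain ⟨N1, hN1⟩ := Filter.eventually_atTop.1 (htend.eventually_ge_atTop (4 * D / (δ * η)))
  refine ⟨max N1 2, fun N hN => ?_⟩
  have hN1' : N1 ≤ N := (le_max_left _ _).trans hN
  have hN2 : 2 ≤ N := (le_max_right _ _).trans hN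
  have hlogN := hN1 N hN1'
  have hNr : (2 : ℝ) ≤ (N : ℝ) := by exact_mod_cast hN2
  have hN0 : (0 : ℝ) < (N : ℝ) := by linarith
  have hN1r : (1 : ℝ) ≤ (N : ℝ) := by linarith
  have hlog0 : 0 < Real.log N := Real.log_pos (by linarith)
  have hlam : 0 < δ * Real.log N := by positivity
  set A : ℝ := Real.sqrt N with hA
  set B : ℝ := (N : ℝ) ^ (1 / 2 + ε) with hB
  have hA1 : 1 ≤ A := by
    rw [hA]
    exact Real.one_le_sqrt.2 hN1r
  have hAB : A ≤ B := by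
    rw [hA, hB, Real.sqrt_eq_rpow]
    exact Real.rpow_le_rpow_of_exponent_le hN1r (by linarith)
  have hB1 : 1 ≤ B := hA1.trans hAB
  have hfa : 1 ≤ ⌊A⌋₊ := (Nat.one_le_floor_iff _).2 hA1
  have hfb : 1 ≤ ⌊B⌋₊ := (Nat.one_le_floor_iff _).2 hB1
  have hfab : ⌊A⌋₊ ≤ ⌊B⌋₊ := Nat.floor_le_floor hAB
  have hsum := goodG_sum_md A B (by linarith) (N + N)
  rw [goodG_diff _ _ hfab] at hsum
  have hMa := (abs_le.1 (hM ⌊A⌋₊ hfa)).1
  have hMb := (abs_le.1 (hM ⌊B⌋₊ hfb)).2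
  have hlogB : Real.log (⌊B⌋₊ : ℝ) ≤ (1 / 2 + ε) * Real.log N := by
    rw [← Real.log_rpow hN0]
    exact Real.log_le_log (by exact_mod_cast hfb) (Nat.floor_le (by linarith))
  have hlogA : 1 / 2 * Real.log N - Real.log 2 ≤ Real.log (⌊A⌋₊ : ℝ) := by
    have h1 : A / 2 ≤ (⌊A⌋₊ : ℝ) := by
      have h2 := Nat.lt_floor_add_one A
      have h3 : (1 : ℝ) ≤ (⌊A⌋₊ : ℝ) := by exact_mod_cast hfa
      linarith
    have h4 : Real.log (A / 2) ≤ Real.log (⌊A⌋₊ : ℝ) := Real.log_le_log (by linarith) h1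
    rw [Real.log_div (by linarith) (by norm_num), hA, Real.log_sqrt (by linarith)] at h4
    linarith
  have hdiff : ∑ p ∈ (Icc 1 ⌊B⌋₊).filter Nat.Prime, Real.log p / p -
      ∑ p ∈ (Icc 1 ⌊A⌋₊).filter Nat.Prime, Real.log p / p ≤ ε * Real.log N + D := by
    rw [hD]
    linarith
  have hmax := maximal (g := md A B) (fun x => md_nonneg A B x) hlam N N
  have hcnt : (cnt N (fun n => ∃ k : ℕ, 1 ≤ k ∧ k ≤ N ∧ δ * k * Real.log N <
      ∑ x ∈ Icc (n + 1) (n + k), md A B x) : ℝ) ≤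
      (cnt N (fun n => ∃ k : ℕ, 0 < k ∧ k ≤ N ∧ δ * Real.log N * (k : ℝ) <
        ∑ x ∈ Icc (n + 1) (n + k), md A B x) : ℝ) := by
    refine Nat.cast_le.2 (cnt_mono fun n _ h => ?_)
    obtain ⟨k, hk1, hk2, hk3⟩ := h
    refine ⟨k, hk1, hk2, ?_⟩
    calc δ * Real.log N * (k : ℝ) = δ * k * Real.log N := by ring
      _ < _ := hk3
  refine hcnt.trans ?_
  set c : ℝ := (cnt N (fun n => ∃ k : ℕ, 0 < k ∧ k ≤ N ∧ δ * Real.log N * (k : ℝ) <
        ∑ x ∈ Icc (n + 1) (n + k), md A B x) : ℝ) with hc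
  have h5 : δ * Real.log N * c ≤ ((N + N : ℕ) : ℝ) * (ε * Real.log N + D) := by
    refine hmax.trans (hsum.trans ?_)
    exact mul_le_mul_of_nonneg_left hdiff (Nat.cast_nonneg _)
  have h6 : ((N + N : ℕ) : ℝ) * (ε * Real.log N + D) ≤ δ * Real.log N * (η * N) := by
    push_cast
    have h7 : D ≤ δ * η / 4 * Real.log N := by
      rw [div_le_iff₀ (by positivity)] at hlogN
      linarith
    have h8 : ε * Real.log N ≤ η * δ / 4 * Real.log N := mul_le_mul_of_nonneg_right hε2 hlog0.le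
    have h9 : ε * Real.log N + D ≤ δ * η / 2 * Real.log N := by linarith
    calc ((N : ℝ) + N) * (ε * Real.log N + D) ≤ ((N : ℝ) + N) * (δ * η / 2 * Real.log N) :=
          mul_le_mul_of_nonneg_left h9 (by linarith)
      _ = δ * Real.log N * (η * N) := by ring
  exact le_of_mul_le_mul_left (h5.trans h6) hlam

end Pool.Agent.H3.LC
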