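import Pool.Agent.H3.LC.Mertens
import Pool.Agent.H3.LC.Maximal

/-!
# LC GoodH: the non-squarefree part

`h x = log x - ms 0 x ≥ 0` (for `x ≥ 1`; extend by `h 0 = 0` for `maximal`, whose sums only use `x ≥ 1`).
`∑_{x=1}^{2N} ms 0 x = ∑_{p ≤ 2N} log p ⌊2N/p⌋ ≥ 2N ∑_{p ≤ 2N} log p / p - ∑_{p ≤ 2N} log p ≥ 2N (log(2N) - C) - 4N` (`mertens`, `cheb_theta`),
`∑_{x=1}^{2N} log x ≤ 2N log(2N)`, so `∑ h ≤ C' N`.  `maximal` with `H = N`, `lam = δ log N`: exceptional set `≤ C' N / (δ log N) ≤ η N`.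
-/

set_option autoImplicit false

open Finset

namespace Pool.Agent.H3.LC

private theorem goodh_nonneg (x : ℕ) : 0 ≤ Real.log x - ms 0 x := by
  rcases Nat.eq_zero_or_pos x with h | h
  · subst h
    simp [ms, big]
  · have := ms_le_log (T := 0) h.ne'
    linarith

private theorem goodh_ms {n x : ℕ} (hx : x ∈ Icc 1 n) :
    ms 0 x = ∑ p ∈ (Icc 1 n).filter Nat.Prime, if p ∣ x then Real.log p else 0 := by
  rw [mem_Icc] at hx
  rw [← sum_filter]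
  unfold ms big
  congr 1
  ext p
  rw [mem_filter, mem_filter, mem_filter, mem_Icc, Nat.mem_primeFactors]
  constructor
  · rintro ⟨⟨h1, h2, -⟩, -⟩
    exact ⟨⟨⟨h1.one_le, (Nat.le_of_dvd (by omega) h2).trans hx.2⟩, h1⟩, h2⟩
  · rintro ⟨⟨-, h1⟩, h2⟩
    exact ⟨⟨h1, h2, by omega⟩, by exact_mod_cast h1.pos⟩

private theorem goodh_sum_ms (n : ℕ) :
    (n : ℝ) * ∑ p ∈ (Icc 1 n).filter Nat.Prime, Real.log p / p -
      ∑ p ∈ (Icc 1 n).filter Nat.Prime, Real.log p ≤ ∑ x ∈ Icc 1 n, ms 0 x := by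
  rw [sum_congr rfl fun x hx => goodh_ms hx, sum_comm, mul_sum, ← sum_sub_distrib]
  apply sum_le_sum
  intro p hp
  rw [mem_filter] at hp
  have hp0 : (0 : ℝ) < p := by exact_mod_cast hp.2.pos
  rw [← sum_filter, sum_const, nsmul_eq_mul]
  have h1 : ((Icc 1 n).filter fun x => p ∣ x).card = n / p := by
    have : Icc 1 n = Ioc 0 n := by
      ext y; rw [mem_Icc, mem_Ioc]; omega
    rw [this]
    exact Nat.Ioc_filter_dvd_card_eq_div n p
  rw [h1]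
  have h2 : (n : ℝ) / p ≤ ((n / p : ℕ) : ℝ) + 1 := by
    rw [div_le_iff₀ hp0]
    have h3 := (Nat.lt_mul_div_succ n hp.2.pos).le
    have h4 : n ≤ (n / p + 1) * p := by rw [mul_comm]; exact h3
    exact_mod_cast h4
  have h5 : 0 ≤ Real.log p := Real.log_natCast_nonneg p
  have h6 : (n : ℝ) * (Real.log p / p) = (n : ℝ) / p * Real.log p := by ring
  rw [h6]
  nlinarith

private theorem goodh_sum : ∃ C : ℝ, 0 < C ∧ ∀ n : ℕ, 1 ≤ n →
    ∑ x ∈ Icc 1 n, (Real.log x - ms 0 x) ≤ C * n := by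
  obtain ⟨C, hC, h⟩ := mertens
  refine ⟨C + 2, by positivity, fun n hn => ?_⟩
  rw [sum_sub_distrib]
  have h1 := goodh_sum_ms n
  have h2 := cheb_theta n
  have h3 := (abs_le.1 (h n hn)).1
  have h4 : ∑ x ∈ Icc 1 n, Real.log x ≤ n * Real.log n := by
    have h5 : ∀ x ∈ Icc 1 n, Real.log x ≤ Real.log n := by
      intro x hx
      rw [mem_Icc] at hx
      apply Real.log_le_log (by exact_mod_cast (by omega : 0 < x))
      exact_mod_cast hx.2
    have h6 := sum_le_card_nsmul _ _ _ h5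
    rw [Nat.card_Icc, nsmul_eq_mul] at h6
    simpa using h6
  have hn0 : (0 : ℝ) ≤ n := Nat.cast_nonneg n
  have h7 : (n : ℝ) * (Real.log n - C) ≤ n * ∑ p ∈ (Icc 1 n).filter Nat.Prime, Real.log p / p :=
    mul_le_mul_of_nonneg_left (by linarith) hn0
  nlinarith

theorem good_h (δ η : ℝ) (hδ : 0 < δ) (hη : 0 < η) : ∃ N0 : ℕ, ∀ N : ℕ, N0 ≤ N →
    (cnt N (fun n => ∃ k : ℕ, 1 ≤ k ∧ k ≤ N ∧ δ * k * Real.log N <
      ∑ x ∈ Icc (n + 1) (n + k), (Real.log x - ms 0 x)) : ℝ) ≤ η * N := by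
  obtain ⟨C, hC, hS⟩ := goodh_sum
  set L : ℝ := 2 * C / (δ * η) with hL
  have hL0 : 0 < L := by positivity
  refine ⟨⌈Real.exp L⌉₊ + 2, fun N hN => ?_⟩
  have hN0 : (0 : ℝ) < N := by exact_mod_cast (by omega : 0 < N)
  have hlog : L ≤ Real.log N := by
    rw [Real.le_log_iff_exp_le hN0]
    refine (Nat.le_ceil _).trans ?_
    exact_mod_cast (by omega : ⌈Real.exp L⌉₊ ≤ N)
  have hlog0 : 0 < Real.log N := hL0.trans_le hlog
  have hmax := maximal goodh_nonneg (lam := δ * Real.log N) (by positivity) N N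
  have hs := hS (N + N) (by omega)
  have hc : (cnt N (fun n => ∃ k : ℕ, 1 ≤ k ∧ k ≤ N ∧ δ * k * Real.log N <
      ∑ x ∈ Icc (n + 1) (n + k), (Real.log x - ms 0 x)) : ℝ) ≤
      (cnt N (fun n => ∃ k : ℕ, 0 < k ∧ k ≤ N ∧ δ * Real.log N * (k : ℝ) <
        ∑ x ∈ Icc (n + 1) (n + k), (Real.log x - ms 0 x)) : ℝ) := by
    have : cnt N (fun n => ∃ k : ℕ, 1 ≤ k ∧ k ≤ N ∧ δ * k * Real.log N <
      ∑ x ∈ Icc (n + 1) (n + k), (Real.log x - ms 0 x)) ≤
      cnt N (fun n => ∃ k : ℕ, 0 < k ∧ k ≤ N ∧ δ * Real.log N * (k : ℝ) <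
        ∑ x ∈ Icc (n + 1) (n + k), (Real.log x - ms 0 x)) := by
      apply cnt_mono
      rintro n - ⟨k, h1, h2, h3⟩
      exact ⟨k, h1, h2, by rw [show δ * Real.log N * (k : ℝ) = δ * k * Real.log N by ring]; exact h3⟩
    exact_mod_cast this
  refine hc.trans ?_
  have h1 := hmax.trans hs
  push_cast at h1
  -- `δ L cnt ≤ 2 C N`
  set X : ℝ := (cnt N (fun n => ∃ k : ℕ, 0 < k ∧ k ≤ N ∧ δ * Real.log N * (k : ℝ) <
        ∑ x ∈ Icc (n + 1) (n + k), (Real.log x - ms 0 x)) : ℝ) with hX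
  have hX0 : 0 ≤ X := Nat.cast_nonneg _
  have h2 : δ * L * X ≤ δ * Real.log N * X :=
    mul_le_mul_of_nonneg_right (mul_le_mul_of_nonneg_left hlog hδ.le) hX0
  have h3 : δ * L * η = 2 * C := by
    rw [hL]
    field_simp
  have h4 : 2 * C * X ≤ η * (2 * C * N) := by
    calc 2 * C * X = η * (δ * L * X) := by rw [← h3]; ring
      _ ≤ η * (C * (N + N)) := mul_le_mul_of_nonneg_left (h2.trans h1) hη.le
      _ = η * (2 * C * N) := by ring
  have h5 : 2 * C * X ≤ 2 * C * (η * N) := by linarith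
  exact le_of_mul_le_mul_left h5 (by positivity)

end Pool.Agent.H3.LC
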