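import Pool.Agent.H3.LC.GoodF
import Pool.Agent.H3.LC.GoodG
import Pool.Agent.H3.LC.GoodH

/-!
# LC Good: the mass of the primes above `N^(1/2+ε)` for almost all `n`

With `T = N^(1/2+ε) ≥ √N`: `log x = md 0 √N x + md √N T x + ms T x + (log x - ms 0 x)` (`ms_split` twice).
Sum over `x ∈ (n, n+k]`, `k ≤ N`, `c N ≤ n < N`: the left side is between `k log (c N)` and `k log (2N)`.  Use `good_f`, `good_g`, `good_h`
with `δ/8` and `η/3`; the three error terms are at most `(δ/8) k log N` each and `log (cN)`, `log (2N)` are `log N + O(1)`.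
-/

set_option autoImplicit false

open Finset

namespace Pool.Agent.H3.LC

/-- `n` is good: the mass above `T` of every block `(n, n+k]`, `K1 ≤ k ≤ N`, is about `(k/2) log N` -/
def Good (N : ℕ) (T δ : ℝ) (K1 n : ℕ) : Prop := ∀ k : ℕ, K1 ≤ k → k ≤ N →
  |∑ x ∈ Icc (n + 1) (n + k), ms T x - 1 / 2 * k * Real.log N| ≤ δ * k * Real.log N

theorem good_density (δ η c : ℝ) (hδ : 0 < δ) (hη : 0 < η) (hc : 0 < c) :
    ∃ ε : ℝ, 0 < ε ∧ ε ≤ 1 / 4 ∧ ∃ K1 N0 : ℕ, ∀ N : ℕ, N0 ≤ N →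
      (cnt N (fun n => c * N ≤ n ∧ ¬ Good N ((N : ℝ) ^ (1 / 2 + ε)) δ K1 n) : ℝ) ≤ η * N := by
  obtain ⟨K1, N1, hF⟩ := good_f (δ / 8) (η / 3) (by positivity) (by positivity)
  obtain ⟨ε, hε, hε4, N2, hG⟩ := good_g (δ / 8) (η / 3) (by positivity) (by positivity)
  obtain ⟨N3, hH⟩ := good_h (δ / 8) (η / 3) (by positivity) (by positivity)
  obtain ⟨N4, hN4⟩ := exists_nat_ge (Real.exp (8 * (|Real.log c| + Real.log 2) / δ))
  refine ⟨ε, hε, hε4, max K1 1, max (max N1 N2) (max N3 (max N4 1)), fun N hN => ?_⟩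
  have b1 : N1 ≤ N := le_trans (le_trans (le_max_left _ _) (le_max_left _ _)) hN
  have b2 : N2 ≤ N := le_trans (le_trans (le_max_right _ _) (le_max_left _ _)) hN
  have b3 : N3 ≤ N := le_trans (le_trans (le_max_left _ _) (le_max_right _ _)) hN
  have b4 : N4 ≤ N := le_trans (le_trans (le_trans (le_max_left _ _) (le_max_right _ _))
    (le_max_right _ _)) hN
  have b5 : 1 ≤ N := le_trans (le_trans (le_trans (le_max_right _ _) (le_max_right _ _))
    (le_max_right _ _)) hN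
  have hNR : (1 : ℝ) ≤ N := by exact_mod_cast b5
  have hN0 : (0 : ℝ) < N := by linarith
  have hlog : 8 * (|Real.log c| + Real.log 2) / δ ≤ Real.log N := by
    rw [Real.le_log_iff_exp_le hN0]
    exact hN4.trans (by exact_mod_cast b4)
  have hlog' : |Real.log c| + Real.log 2 ≤ δ / 8 * Real.log N := by
    rw [div_le_iff₀ hδ] at hlog
    linarith
  have hlc : 0 ≤ |Real.log c| := abs_nonneg _
  have hl2 : 0 ≤ Real.log 2 := Real.log_nonneg (by norm_num)
  have hlc1 : |Real.log c| ≤ δ / 8 * Real.log N := by linarith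
  have hlc2 : Real.log 2 ≤ δ / 8 * Real.log N := by linarith
  have hsqrtT : Real.sqrt N ≤ (N : ℝ) ^ (1 / 2 + ε) := by
    rw [Real.sqrt_eq_rpow]
    exact Real.rpow_le_rpow_of_exponent_le hNR (by linarith)
  have hcnt : cnt N (fun n => c * N ≤ n ∧ ¬ Good N ((N : ℝ) ^ (1 / 2 + ε)) δ (max K1 1) n) ≤
      cnt N (fun n => ∃ k : ℕ, K1 ≤ k ∧ k ≤ N ∧ δ / 8 * k * Real.log N <
        |∑ x ∈ Icc (n + 1) (n + k), md 0 (Real.sqrt N) x - 1 / 2 * k * Real.log N|) +
      (cnt N (fun n => ∃ k : ℕ, 1 ≤ k ∧ k ≤ N ∧ δ / 8 * k * Real.log N <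
        ∑ x ∈ Icc (n + 1) (n + k), md (Real.sqrt N) ((N : ℝ) ^ (1 / 2 + ε)) x) +
      cnt N (fun n => ∃ k : ℕ, 1 ≤ k ∧ k ≤ N ∧ δ / 8 * k * Real.log N <
        ∑ x ∈ Icc (n + 1) (n + k), (Real.log x - ms 0 x))) := by
    refine le_trans (cnt_mono ?_) (le_trans (cnt_or_le N _ _) (Nat.add_le_add_left (cnt_or_le N _ _) _))
    rintro n hn ⟨hcn, hbad⟩
    by_contra hcon
    push Not at hcon
    obtain ⟨g1, g2, g3⟩ := hcon
    apply hbad
    intro k hk1 hkN
    have hkK : K1 ≤ k := le_trans (le_max_left _ _) hk1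
    have hk1' : 1 ≤ k := le_trans (le_max_right _ _) hk1
    have e1 := g1 k hkK hkN
    have e2 := g2 k hk1' hkN
    have e3 := g3 k hk1' hkN
    set T : ℝ := (N : ℝ) ^ (1 / 2 + ε)
    have hcard : ((Icc (n + 1) (n + k)).card : ℝ) = k := by
      rw [Nat.card_Icc]
      have : n + k + 1 - (n + 1) = k := by omega
      rw [this]
    have hsplit : ∑ x ∈ Icc (n + 1) (n + k), Real.log x =
        ∑ x ∈ Icc (n + 1) (n + k), md 0 (Real.sqrt N) x +
        ∑ x ∈ Icc (n + 1) (n + k), md (Real.sqrt N) T x +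
        ∑ x ∈ Icc (n + 1) (n + k), ms T x +
        ∑ x ∈ Icc (n + 1) (n + k), (Real.log x - ms 0 x) := by
      rw [← sum_add_distrib, ← sum_add_distrib, ← sum_add_distrib]
      refine sum_congr rfl fun x _ => ?_
      have s1 := ms_split (Real.sqrt_nonneg (N : ℝ)) x
      have s2 := ms_split hsqrtT x
      linarith
    have hlow : (k : ℝ) * (Real.log N - δ / 8 * Real.log N) ≤ ∑ x ∈ Icc (n + 1) (n + k), Real.log x := by
      rw [← hcard, ← nsmul_eq_mul]
      refine card_nsmul_le_sum _ _ _ fun x hx => ?_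
      rw [mem_Icc] at hx
      have hx1 : c * N ≤ (x : ℝ) := by
        have : (n : ℝ) ≤ x := by exact_mod_cast (by omega : n ≤ x)
        linarith
      have hx2 : Real.log (c * N) ≤ Real.log x := Real.log_le_log (by positivity) hx1
      rw [Real.log_mul hc.ne' hN0.ne'] at hx2
      have := neg_abs_le (Real.log c)
      linarith
    have hup : ∑ x ∈ Icc (n + 1) (n + k), Real.log x ≤ (k : ℝ) * (Real.log N + δ / 8 * Real.log N) := by
      rw [← hcard, ← nsmul_eq_mul]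
      refine sum_le_card_nsmul _ _ _ fun x hx => ?_
      rw [mem_Icc] at hx
      have hx1 : (x : ℝ) ≤ 2 * N := by
        have : x ≤ 2 * N := by omega
        exact_mod_cast this
      have hx0 : (0 : ℝ) < x := by exact_mod_cast (by omega : 0 < x)
      have hx2 : Real.log x ≤ Real.log (2 * N) := Real.log_le_log hx0 hx1
      rw [Real.log_mul (by norm_num) hN0.ne'] at hx2
      linarith
    have hb0 : 0 ≤ ∑ x ∈ Icc (n + 1) (n + k), md (Real.sqrt N) T x := sum_nonneg fun x _ => md_nonneg _ _ _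
    have hc0 : 0 ≤ ∑ x ∈ Icc (n + 1) (n + k), (Real.log x - ms 0 x) := by
      refine sum_nonneg fun x hx => ?_
      rw [mem_Icc] at hx
      exact sub_nonneg.2 (ms_le_log (by omega))
    rw [abs_le] at e1
    have hkL : 0 ≤ δ * k * Real.log N := by
      have := Real.log_nonneg hNR
      positivity
    rw [abs_le]
    constructor
    · nlinarith [e1.1, e1.2]
    · nlinarith [e1.1, e1.2]
  have hcntR : (cnt N (fun n => c * N ≤ n ∧ ¬ Good N ((N : ℝ) ^ (1 / 2 + ε)) δ (max K1 1) n) : ℝ) ≤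
      cnt N (fun n => ∃ k : ℕ, K1 ≤ k ∧ k ≤ N ∧ δ / 8 * k * Real.log N <
        |∑ x ∈ Icc (n + 1) (n + k), md 0 (Real.sqrt N) x - 1 / 2 * k * Real.log N|) +
      (cnt N (fun n => ∃ k : ℕ, 1 ≤ k ∧ k ≤ N ∧ δ / 8 * k * Real.log N <
        ∑ x ∈ Icc (n + 1) (n + k), md (Real.sqrt N) ((N : ℝ) ^ (1 / 2 + ε)) x) +
      cnt N (fun n => ∃ k : ℕ, 1 ≤ k ∧ k ≤ N ∧ δ / 8 * k * Real.log N <
        ∑ x ∈ Icc (n + 1) (n + k), (Real.log x - ms 0 x))) := by
    exact_mod_cast hcnt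
  have c1 := hF N b1
  have c2 := hG N b2
  have c3 := hH N b3
  linarith

end Pool.Agent.H3.LC
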