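import Pool.Agent.H3.LC.Second
import Pool.Agent.H3.LC.Maximal

/-!
# LC GoodF: the mass of the primes up to `√N` for almost all `n`, all `k ≥ K1`

`f x = md 0 √N x`, `μ = mu N`, so `|μ - (1/2) log N| ≤ C` (`mertens` for `Nat.sqrt N`; `log (Nat.sqrt N) = (1/2) log N + O(1)`).
Fix a large `K = K(δ, η)` and put `D n = |∑_{x ∈ (n,n+K]} f x - K μ| ≥ 0`.  By `second_moment` and Cauchy-Schwarz
`∑_{n < 2N} D n ≤ √(2N · 8 K N log² N) = 4 √K N log N`.
`maximal` for `g x = D (x - 1)` (so `∑_{x ∈ (n,n+k]} g x = ∑_{s<k} D(n+s)`), `lam = K (δ/4) log N`, `H = N`: all but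
`16 N / (√K δ)` of the `n < N` satisfy `∑_{s<k} D(n+s) ≤ K (δ/4) k log N` for all `1 ≤ k ≤ N`; this is `≤ η N` if `K ≥ (16/(δη))²`.
For such `n` and `k ≥ K1`: `∑_{s<k} ∑_{i=1}^K f(n+s+i)` counts every `x ∈ [n+K, n+k]` exactly `K` times and every `x ∈ (n, n+k+K]` at most `K` times, so
it differs from `K ∑_{x∈(n,n+k]} f x` by at most `K · 2K log(3N)`.  Hence
`|∑_{x∈(n,n+k]} f x - k μ| ≤ (1/K) ∑_{s<k} D(n+s) + 2K log(3N) ≤ (δ/4) k log N + 2 K log(3N) ≤ (δ/2) k log N` for `k ≥ K1 = K1(K, δ)`.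
-/

set_option autoImplicit false

open Finset

namespace Pool.Agent.H3.LC

private theorem goodF_mu : ∃ C : ℝ, 0 < C ∧ ∀ N : ℕ, 1 ≤ N → |mu N - 1 / 2 * Real.log N| ≤ C := by
  obtain ⟨C, hC, h⟩ := mertens
  refine ⟨C + Real.log 2, by positivity, fun N hN => ?_⟩
  have hs : 1 ≤ Nat.sqrt N := Nat.sqrt_pos.2 hN
  have h1 := h (Nat.sqrt N) hs
  have hN0 : (0 : ℝ) < N := Nat.cast_pos.2 hN
  have hs0 : (0 : ℝ) < (Nat.sqrt N : ℕ) := Nat.cast_pos.2 hs
  have h2 : Real.log (Nat.sqrt N : ℕ) ≤ 1 / 2 * Real.log N := by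
    have : ((Nat.sqrt N : ℕ) : ℝ) ^ 2 ≤ N := by
      exact_mod_cast Nat.sqrt_le' N
    have h3 := Real.log_le_log (by positivity) this
    rw [Real.log_pow] at h3
    push_cast at h3
    linarith
  have h3 : 1 / 2 * Real.log N ≤ Real.log 2 + Real.log (Nat.sqrt N : ℕ) := by
    have : (N : ℝ) ≤ (2 * (Nat.sqrt N : ℕ)) ^ 2 := by
      have h4 : N < (Nat.sqrt N + 1) ^ 2 := Nat.lt_succ_sqrt' N
      have h5 : (Nat.sqrt N + 1) ^ 2 ≤ (2 * Nat.sqrt N) ^ 2 := Nat.pow_le_pow_left (by omega) 2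
      exact_mod_cast (h4.trans_le h5).le
    have h6 := Real.log_le_log hN0 this
    rw [Real.log_pow, Real.log_mul (by norm_num) hs0.ne'] at h6
    push_cast at h6
    linarith
  have h4 : mu N = ∑ p ∈ (Icc 1 (Nat.sqrt N)).filter Nat.Prime, Real.log p / p := rfl
  rw [← h4] at h1
  rw [abs_le] at h1 ⊢
  constructor <;> linarith [h1.1, h1.2]

private theorem goodF_Icc (f : ℕ → ℝ) (n k : ℕ) :
    ∑ x ∈ Icc (n + 1) (n + k), f x = ∑ s ∈ range k, f (n + 1 + s) := by
  have h1 : Icc (n + 1) (n + k) = Ico (n + 1) (n + 1 + k) := by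
    ext x
    rw [mem_Icc, mem_Ico]
    omega
  rw [h1, Finset.sum_Ico_eq_sum_range]
  have h2 : n + 1 + k - (n + 1) = k := by omega
  rw [h2]

private theorem goodF_shift (f : ℕ → ℝ) (L : ℝ) (m k i : ℕ)
    (hf : ∀ s, s < k + i → 0 ≤ f (m + s) ∧ f (m + s) ≤ L) :
    |∑ s ∈ range k, f (m + i + s) - ∑ s ∈ range k, f (m + s)| ≤ i * L := by
  have h1 : ∑ s ∈ range (k + i), f (m + s) = ∑ s ∈ range k, f (m + s) +
      ∑ s ∈ range i, f (m + (k + s)) := by
    rw [Finset.sum_range_add (fun s => f (m + s)) k i]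
  have h2 : ∑ s ∈ range (i + k), f (m + s) = ∑ s ∈ range i, f (m + s) +
      ∑ s ∈ range k, f (m + (i + s)) := by
    rw [Finset.sum_range_add (fun s => f (m + s)) i k]
  have h3 : ∑ s ∈ range k, f (m + i + s) = ∑ s ∈ range k, f (m + (i + s)) :=
    sum_congr rfl fun s _ => by rw [add_assoc]
  rw [add_comm i k] at h2
  have h4 : 0 ≤ ∑ s ∈ range i, f (m + s) :=
    sum_nonneg fun s hs => (hf s (by rw [mem_range] at hs; omega)).1
  have h5 : ∑ s ∈ range i, f (m + s) ≤ i * L := by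
    calc ∑ s ∈ range i, f (m + s) ≤ ∑ s ∈ range i, L :=
          sum_le_sum fun s hs => (hf s (by rw [mem_range] at hs; omega)).2
      _ = i * L := by rw [sum_const, card_range, nsmul_eq_mul]
  have h6 : 0 ≤ ∑ s ∈ range i, f (m + (k + s)) :=
    sum_nonneg fun s hs => (hf (k + s) (by rw [mem_range] at hs; omega)).1
  have h7 : ∑ s ∈ range i, f (m + (k + s)) ≤ i * L := by
    calc ∑ s ∈ range i, f (m + (k + s)) ≤ ∑ s ∈ range i, L :=
          sum_le_sum fun s hs => (hf (k + s) (by rw [mem_range] at hs; omega)).2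
      _ = i * L := by rw [sum_const, card_range, nsmul_eq_mul]
  rw [h3, abs_le]
  constructor <;> linarith

/-- the deterministic averaging step -/
private theorem goodF_avg (f : ℕ → ℝ) (L μ lam : ℝ) (n k K : ℕ) (hK : 0 < K) (hL : 0 ≤ L)
    (hf : ∀ s, s < k + K → 0 ≤ f (n + 1 + s) ∧ f (n + 1 + s) ≤ L)
    (h : ∑ s ∈ range k, |∑ x ∈ Icc (n + s + 1) (n + s + K), f x - K * μ| ≤ lam * k) :
    |∑ x ∈ Icc (n + 1) (n + k), f x - k * μ| ≤ lam * k / K + K * L := by
  have hK0 : (0 : ℝ) < K := Nat.cast_pos.2 hK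
  set A := ∑ s ∈ range k, f (n + 1 + s) with hA
  have h1 : |∑ s ∈ range k, (∑ x ∈ Icc (n + s + 1) (n + s + K), f x - K * μ)| ≤ lam * k :=
    (abs_sum_le_sum_abs _ _).trans h
  have h2 : ∑ s ∈ range k, (∑ x ∈ Icc (n + s + 1) (n + s + K), f x - K * μ) =
      ∑ i ∈ range K, ∑ s ∈ range k, f (n + 1 + i + s) - K * (k * μ) := by
    rw [sum_sub_distrib, sum_const, card_range, nsmul_eq_mul]
    congr 1
    · rw [sum_comm]
      refine (sum_congr rfl fun s _ => ?_)
      rw [goodF_Icc]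
      refine sum_congr rfl fun i _ => ?_
      congr 1
      omega
    · ring
  have h3 : |∑ i ∈ range K, ∑ s ∈ range k, f (n + 1 + i + s) - K * A| ≤ K * (K * L) := by
    have : ∑ i ∈ range K, ∑ s ∈ range k, f (n + 1 + i + s) - K * A =
        ∑ i ∈ range K, (∑ s ∈ range k, f (n + 1 + i + s) - A) := by
      rw [sum_sub_distrib, sum_const, card_range, nsmul_eq_mul]
    rw [this]
    refine (abs_sum_le_sum_abs _ _).trans ?_
    calc ∑ i ∈ range K, |∑ s ∈ range k, f (n + 1 + i + s) - A| ≤ ∑ i ∈ range K, (K : ℝ) * L := by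
          refine sum_le_sum fun i hi => ?_
          rw [mem_range] at hi
          refine (goodF_shift f L (n + 1) k i fun s hs => hf s (by omega)).trans ?_
          exact mul_le_mul_of_nonneg_right (Nat.cast_le.2 hi.le) hL
      _ = K * (K * L) := by rw [sum_const, card_range, nsmul_eq_mul]
  rw [h2] at h1
  have h4 : K * |A - k * μ| ≤ lam * k + K * (K * L) := by
    rw [← abs_of_pos hK0, ← abs_mul, abs_of_pos hK0]
    rw [abs_le] at h1 h3 ⊢
    constructor <;> nlinarith [h1.1, h1.2, h3.1, h3.2]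
  rw [goodF_Icc, ← hA]
  have h5 : |A - k * μ| = K * |A - k * μ| / K := by
    field_simp
  rw [h5]
  calc K * |A - k * μ| / K ≤ (lam * k + K * (K * L)) / K :=
        div_le_div_of_nonneg_right h4 hK0.le
    _ = lam * k / K + K * L := by field_simp

theorem good_f (δ η : ℝ) (hδ : 0 < δ) (hη : 0 < η) : ∃ K1 N0 : ℕ, ∀ N : ℕ, N0 ≤ N →
    (cnt N (fun n => ∃ k : ℕ, K1 ≤ k ∧ k ≤ N ∧ δ * k * Real.log N <
      |∑ x ∈ Icc (n + 1) (n + k), md 0 (Real.sqrt N) x - 1 / 2 * k * Real.log N|) : ℝ) ≤ η * N := by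
  obtain ⟨C, hC, hmu⟩ := goodF_mu
  obtain ⟨K, hK⟩ := exists_nat_gt (max 1 ((16 / (δ * η)) ^ 2))
  have hK1 : 1 < K := by
    have : (1 : ℝ) < K := (le_max_left _ _).trans_lt hK
    exact_mod_cast this
  have hK2 : (16 / (δ * η)) ^ 2 ≤ K := ((le_max_right _ _).trans_lt hK).le
  have hK0 : (0 : ℝ) < K := by exact_mod_cast (by omega : 0 < K)
  have hsK : 16 / (δ * η) ≤ Real.sqrt K := Real.le_sqrt_of_sq_le hK2
  have hsK0 : 0 < Real.sqrt K := Real.sqrt_pos.2 hK0
  obtain ⟨N1, hN1⟩ := second_moment K (by omega)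
  obtain ⟨N2, hN2⟩ := exists_nat_gt (Real.exp (4 * C / δ + 1))
  obtain ⟨K1, hK1'⟩ := exists_nat_gt (8 * K / δ)
  refine ⟨K1 + 1, max N1 (max N2 (max 3 K)), fun N hN => ?_⟩
  have a1 : N1 ≤ N := (le_max_left _ _).trans hN
  have a2 : N2 ≤ N := ((le_max_left _ _).trans (le_max_right _ _)).trans hN
  have a3 : 3 ≤ N := ((le_max_left _ _).trans
    ((le_max_right _ _).trans (le_max_right _ _))).trans hN
  have a4 : K ≤ N := ((le_max_right _ _).trans
    ((le_max_right _ _).trans (le_max_right _ _))).trans hN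
  have hN0 : (0 : ℝ) < N := by exact_mod_cast (by omega : 0 < N)
  have hlog : 4 * C / δ + 1 ≤ Real.log N := by
    rw [Real.le_log_iff_exp_le hN0]
    exact hN2.le.trans (Nat.cast_le.2 a2)
  have hlog0 : 0 < Real.log N := lt_of_lt_of_le (by positivity) hlog
  set f : ℕ → ℝ := fun x => md 0 (Real.sqrt N) x with hf
  set D : ℕ → ℝ := fun n => |∑ x ∈ Icc (n + 1) (n + K), f x - K * mu N| with hD
  have hDsum : ∑ n ∈ range (2 * N), D n ≤ 4 * Real.sqrt K * N * Real.log N := by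
    have h1 := hN1 N a1
    have h2 : (∑ n ∈ range (2 * N), D n) ^ 2 ≤ (2 * N) * (8 * K * N * (Real.log N) ^ 2) := by
      have h3 := sq_sum_le_card_mul_sum_sq (s := range (2 * N)) (f := D)
      rw [card_range] at h3
      push_cast at h3
      refine h3.trans ?_
      refine mul_le_mul_of_nonneg_left ?_ (by positivity)
      refine le_trans (le_of_eq ?_) h1
      refine sum_congr rfl fun n _ => ?_
      rw [hD]
      exact sq_abs _
    refine abs_le_of_sq_le_sq' (a := ∑ n ∈ range (2 * N), D n) ?_ (by positivity) |>.2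
    refine h2.trans (le_of_eq ?_)
    have : Real.sqrt K ^ 2 = K := Real.sq_sqrt hK0.le
    calc (2 * N : ℝ) * (8 * K * N * (Real.log N) ^ 2) = 16 * K * (N * Real.log N) ^ 2 := by ring
      _ = 16 * Real.sqrt K ^ 2 * (N * Real.log N) ^ 2 := by rw [this]
      _ = (4 * Real.sqrt K * N * Real.log N) ^ 2 := by ring
  set lam : ℝ := K * (δ / 4) * Real.log N with hlam
  have hlam0 : 0 < lam := by positivity
  have hmax := maximal (g := fun x => D (x - 1)) (fun x => abs_nonneg _) hlam0 N N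
  have hs1 : ∑ x ∈ Icc 1 (N + N), D (x - 1) = ∑ n ∈ range (2 * N), D n := by
    have := goodF_Icc (fun x => D (x - 1)) 0 (N + N)
    rw [zero_add, zero_add] at this
    rw [this, two_mul]
    refine sum_congr rfl fun s _ => ?_
    congr 1
    omega
  rw [hs1] at hmax
  have hcnt : (cnt N (fun n => ∃ k : ℕ, 0 < k ∧ k ≤ N ∧ lam * (k : ℝ) <
      ∑ x ∈ Icc (n + 1) (n + k), D (x - 1)) : ℝ) ≤ η * N := by
    have h1 := hmax.trans hDsum
    have h2 : 4 * Real.sqrt K * N * Real.log N ≤ lam * (η * N) := by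
      have h3 : 16 ≤ Real.sqrt K * (δ * η) := by
        rwa [div_le_iff₀ (by positivity)] at hsK
      have h4 : Real.sqrt K * Real.sqrt K = K := Real.mul_self_sqrt hK0.le
      rw [hlam]
      nth_rewrite 2 [← h4]
      have h5 : 0 ≤ Real.sqrt K * N * Real.log N := by positivity
      nlinarith [mul_le_mul_of_nonneg_left h3 h5]
    exact le_of_mul_le_mul_left (h1.trans h2) hlam0
  refine le_trans (Nat.cast_le.2 (cnt_mono fun n hn hex => ?_)) hcnt
  obtain ⟨k, hk1, hkN, hk⟩ := hex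
  refine ⟨k, by omega, hkN, ?_⟩
  by_contra hcon
  rw [not_lt] at hcon
  refine absurd hk (not_lt.2 ?_)
  have hk0 : (0 : ℝ) ≤ k := Nat.cast_nonneg k
  have hsum : ∑ s ∈ range k, |∑ x ∈ Icc (n + s + 1) (n + s + K), f x - K * mu N| ≤ lam * k := by
    rw [goodF_Icc] at hcon
    refine le_trans (le_of_eq ?_) hcon
    refine sum_congr rfl fun s _ => ?_
    rw [hD]
    have : n + 1 + s - 1 = n + s := by omega
    simp only [this]
  have havg := goodF_avg f (2 * Real.log N) (mu N) lam n k K (by omega) (by positivity)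
    (fun s hs => ⟨md_nonneg _ _ _, ?_⟩) hsum
  swap
  · refine (md_le_log (by omega)).trans ?_
    have h1 : ((n + 1 + s : ℕ) : ℝ) ≤ (N : ℝ) ^ 2 := by
      have : n + 1 + s ≤ N ^ 2 := by nlinarith
      exact_mod_cast this
    have h2 := Real.log_le_log (by positivity) h1
    rw [Real.log_pow] at h2
    exact_mod_cast h2
  have hm := hmu N (by omega)
  have h8 : 8 * K ≤ δ * k := by
    have : (8 * K / δ : ℝ) ≤ k := hK1'.le.trans (Nat.cast_le.2 (by omega))
    rwa [div_le_iff₀ hδ, mul_comm (k : ℝ)] at this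
  have h9 : lam * k / K = δ / 4 * k * Real.log N := by
    rw [hlam]
    field_simp
  rw [h9] at havg
  have h10 : C ≤ δ / 4 * Real.log N := by
    have h11 : 4 * C / δ ≤ Real.log N := by linarith
    rw [div_le_iff₀ hδ] at h11
    linarith
  have h12 : |(k : ℝ) * mu N - 1 / 2 * k * Real.log N| ≤ k * C := by
    have : (k : ℝ) * mu N - 1 / 2 * k * Real.log N = k * (mu N - 1 / 2 * Real.log N) := by ring
    rw [this, abs_mul, abs_of_nonneg hk0]
    exact mul_le_mul_of_nonneg_left hm hk0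
  have h13 : (k : ℝ) * C ≤ k * (δ / 4 * Real.log N) := mul_le_mul_of_nonneg_left h10 hk0
  have h14 : K * (2 * Real.log N) ≤ δ / 4 * k * Real.log N := by
    nlinarith [mul_le_mul_of_nonneg_right h8 hlog0.le]
  have h15 : 0 ≤ δ * k * Real.log N := by positivity
  rw [abs_le] at havg h12 ⊢
  constructor <;> nlinarith [havg.1, havg.2, h12.1, h12.2]

end Pool.Agent.H3.LC
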