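import Mathlib

/-!
# LC Ker: the Fejer kernel

`ker L u = 2 (1 - cos (L u)) / (L u²)` for `u ≠ 0`, `ker L 0 = L` (`L > 0`); `tri L t = 1 - |t| / L`.
* `ker_eq`: `∫_{-L}^{L} (1 - |t|/L) exp(i t u) dt = ker L u` (the integral is `2 ∫_0^L (1 - t/L) cos(tu) dt`; integrate by parts; `u = 0` directly).
* `0 ≤ ker L u ≤ L` (`1 - cos x ≤ x²/2`), `ker L u ≤ 4 / (L u²)`.
* `ker_int`: `∫_{-1}^{1} ker L ≥ 1` for `L ≥ 1`: on `|u| ≤ 1/L` we have `1 - cos (Lu) ≥ (11/24) (Lu)²` (or any bound `1 - cos x ≥ c x²` with `4 c ≥ 1`, e.g.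
  `Real.cos_le_one_sub_mul_cos_sq`, `Real.cos_lt_one_div_sqrt_sq_add_one`, ...), so `ker L u ≥ (11/12) L`, the interval has length `2/L`.
-/

set_option autoImplicit false

open MeasureTheory

namespace Pool.Agent.H3.LC

noncomputable def ker (L u : ℝ) : ℝ := if u = 0 then L else 2 * (1 - Real.cos (L * u)) / (L * u ^ 2)

theorem ker_sinc {L : ℝ} (hL : 0 < L) (u : ℝ) : ker L u = L * (Real.sinc (L * u / 2)) ^ 2 := by
  unfold ker
  split_ifs with h
  · subst h
    simp
  · have hx : L * u / 2 ≠ 0 := by positivity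
    rw [Real.sinc_of_ne_zero hx]
    have hc : Real.cos (L * u) = 1 - 2 * Real.sin (L * u / 2) ^ 2 := by
      have h1 := Real.cos_two_mul (L * u / 2)
      have h2 := Real.sin_sq_add_cos_sq (L * u / 2)
      have h3 : 2 * (L * u / 2) = L * u := by ring
      rw [h3] at h1
      linarith
    rw [hc]
    field_simp
    ring

theorem ker_nonneg {L : ℝ} (hL : 0 < L) (u : ℝ) : 0 ≤ ker L u := by
  rw [ker_sinc hL]
  positivity

theorem ker_le {L : ℝ} (hL : 0 < L) (u : ℝ) : ker L u ≤ L := by
  unfold ker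
  split_ifs with h
  · exact le_rfl
  · have h1 := Real.one_sub_sq_div_two_le_cos (x := L * u)
    have h2 : 0 < L * u ^ 2 := by positivity
    rw [div_le_iff₀ h2]
    nlinarith

theorem ker_le_inv_sq {L : ℝ} (hL : 0 < L) {u : ℝ} (hu : u ≠ 0) : ker L u ≤ 4 / (L * u ^ 2) := by
  unfold ker
  rw [if_neg hu]
  have h2 : 0 < L * u ^ 2 := by positivity
  apply div_le_div_of_nonneg_right _ h2.le
  have := Real.neg_one_le_cos (L * u)
  linarith

theorem ker_continuous {L : ℝ} (hL : 0 < L) : Continuous (ker L) := by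
  have h : ker L = fun u => L * (Real.sinc (L * u / 2)) ^ 2 := funext fun u => ker_sinc hL u
  rw [h]
  have h1 : Continuous fun u : ℝ => Real.sinc (L * u / 2) :=
    Real.continuous_sinc.comp (by fun_prop)
  exact continuous_const.mul (h1.pow 2)

theorem ker_eq {L : ℝ} (hL : 0 < L) (u : ℝ) :
    (∫ t in (-L)..L, ((1 - |t| / L : ℝ) : ℂ) * Complex.exp (t * u * Complex.I)) = (ker L u : ℂ) := by
  have hLc : (L : ℂ) ≠ 0 := by exact_mod_cast hL.ne'
  have hcont : Continuous fun t : ℝ => ((1 - |t| / L : ℝ) : ℂ) * Complex.exp (t * u * Complex.I) := by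
    fun_prop
  rw [← intervalIntegral.integral_add_adjacent_intervals (b := 0)
    (hcont.intervalIntegrable _ _) (hcont.intervalIntegrable _ _)]
  have e1 : (∫ t in (-L)..0, ((1 - |t| / L : ℝ) : ℂ) * Complex.exp (t * u * Complex.I)) =
      ∫ t in (-L)..0, (1 + (t : ℂ) / L) * Complex.exp (t * u * Complex.I) := by
    apply intervalIntegral.integral_congr
    intro t ht
    rw [Set.uIcc_of_le (by linarith)] at ht
    simp only
    rw [abs_of_nonpos ht.2]
    push_cast
    ring
  have e2 : (∫ t in (0 : ℝ)..L, ((1 - |t| / L : ℝ) : ℂ) * Complex.exp (t * u * Complex.I)) =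
      ∫ t in (0 : ℝ)..L, (1 - (t : ℂ) / L) * Complex.exp (t * u * Complex.I) := by
    apply intervalIntegral.integral_congr
    intro t ht
    rw [Set.uIcc_of_le hL.le] at ht
    simp only
    rw [abs_of_nonneg ht.1]
    push_cast
    ring
  rw [e1, e2]
  by_cases hu : u = 0
  · subst hu
    have hd1 : ∀ t : ℝ, HasDerivAt (fun t : ℝ => (t : ℂ) + (t : ℂ) ^ 2 / (2 * L))
        ((1 + (t : ℂ) / L) * Complex.exp (t * (0 : ℝ) * Complex.I)) t := by
      intro t
      have h1 : HasDerivAt (fun t : ℝ => (t : ℂ)) 1 t := Complex.ofRealCLM.hasDerivAt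
      have h2 := h1.add ((h1.pow 2).div_const (2 * (L : ℂ)))
      refine h2.congr_deriv ?_
      have he : Complex.exp ((t : ℂ) * ((0 : ℝ) : ℂ) * Complex.I) = 1 := by simp
      rw [he]
      field_simp
      ring
    have hd2 : ∀ t : ℝ, HasDerivAt (fun t : ℝ => (t : ℂ) - (t : ℂ) ^ 2 / (2 * L))
        ((1 - (t : ℂ) / L) * Complex.exp (t * (0 : ℝ) * Complex.I)) t := by
      intro t
      have h1 : HasDerivAt (fun t : ℝ => (t : ℂ)) 1 t := Complex.ofRealCLM.hasDerivAt
      have h2 := h1.sub ((h1.pow 2).div_const (2 * (L : ℂ)))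
      refine h2.congr_deriv ?_
      have he : Complex.exp ((t : ℂ) * ((0 : ℝ) : ℂ) * Complex.I) = 1 := by simp
      rw [he]
      field_simp
      ring
    rw [intervalIntegral.integral_eq_sub_of_hasDerivAt (fun t _ => hd1 t)
      (Continuous.intervalIntegrable (by fun_prop) _ _),
      intervalIntegral.integral_eq_sub_of_hasDerivAt (fun t _ => hd2 t)
      (Continuous.intervalIntegrable (by fun_prop) _ _)]
    unfold ker
    rw [if_pos rfl]
    push_cast
    field_simp
    ring
  · have huc : (u : ℂ) ≠ 0 := by exact_mod_cast hu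
    have hI : Complex.I ≠ 0 := Complex.I_ne_zero
    have hc0 : (u : ℂ) * Complex.I ≠ 0 := mul_ne_zero huc hI
    set c : ℂ := (u : ℂ) * Complex.I with hc
    have hexp : ∀ t : ℝ, HasDerivAt (fun t : ℝ => Complex.exp (t * u * Complex.I))
        (c * Complex.exp (t * u * Complex.I)) t := by
      intro t
      have h1 : HasDerivAt (fun t : ℝ => (t : ℂ)) 1 t := Complex.ofRealCLM.hasDerivAt
      have h2 : HasDerivAt (fun t : ℝ => (t : ℂ) * u * Complex.I) (1 * u * Complex.I) t :=
        (h1.mul_const (u : ℂ)).mul_const Complex.I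
      have h3 := h2.cexp
      convert h3 using 1
      rw [hc]
      ring
    have hd1 : ∀ t : ℝ, HasDerivAt (fun t : ℝ => (1 + (t : ℂ) / L) * Complex.exp (t * u * Complex.I) / c
        - Complex.exp (t * u * Complex.I) / (L * c ^ 2))
        ((1 + (t : ℂ) / L) * Complex.exp (t * u * Complex.I)) t := by
      intro t
      have h1 : HasDerivAt (fun t : ℝ => (t : ℂ)) 1 t := Complex.ofRealCLM.hasDerivAt
      have h2 : HasDerivAt (fun t : ℝ => 1 + (t : ℂ) / L) (1 / L) t := (h1.div_const (L : ℂ)).const_add 1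
      have h4 := ((h2.mul (hexp t)).div_const c).sub ((hexp t).div_const (L * c ^ 2))
      refine h4.congr_deriv ?_
      field_simp
      ring
    have hd2 : ∀ t : ℝ, HasDerivAt (fun t : ℝ => (1 - (t : ℂ) / L) * Complex.exp (t * u * Complex.I) / c
        + Complex.exp (t * u * Complex.I) / (L * c ^ 2))
        ((1 - (t : ℂ) / L) * Complex.exp (t * u * Complex.I)) t := by
      intro t
      have h1 : HasDerivAt (fun t : ℝ => (t : ℂ)) 1 t := Complex.ofRealCLM.hasDerivAt
      have h2 : HasDerivAt (fun t : ℝ => 1 - (t : ℂ) / L) (-(1 / L)) t :=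
        (h1.div_const (L : ℂ)).const_sub 1
      have h4 := ((h2.mul (hexp t)).div_const c).add ((hexp t).div_const (L * c ^ 2))
      refine h4.congr_deriv ?_
      field_simp
      ring
    rw [intervalIntegral.integral_eq_sub_of_hasDerivAt (fun t _ => hd1 t)
      (Continuous.intervalIntegrable (by fun_prop) _ _),
      intervalIntegral.integral_eq_sub_of_hasDerivAt (fun t _ => hd2 t)
      (Continuous.intervalIntegrable (by fun_prop) _ _)]
    unfold ker
    rw [if_neg hu]
    have hcos : Complex.cos ((L : ℂ) * u) =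
        (Complex.exp (L * u * Complex.I) + Complex.exp (-(L * u * Complex.I))) / 2 := by
      rw [Complex.cos]
      congr 2
      ring_nf
    push_cast
    rw [hcos]
    have hI2 : Complex.I ^ 2 = -1 := Complex.I_sq
    have hneg : Complex.exp (-(L : ℂ) * u * Complex.I) = Complex.exp (-(L * u * Complex.I)) := by
      congr 1
      ring
    rw [hneg]
    have hc2 : c ^ 2 = -(u : ℂ) ^ 2 := by
      rw [hc, mul_pow, hI2]
      ring
    rw [hc2]
    simp only [zero_mul, Complex.exp_zero, mul_one, zero_div, add_zero, sub_zero]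
    have hLL : (1 : ℂ) + -(L : ℂ) / L = 0 := by
      field_simp
      ring
    have hLL2 : (1 : ℂ) - (L : ℂ) / L = 0 := by
      field_simp
      ring
    rw [hLL, hLL2]
    field_simp
    ring

theorem ker_int {L : ℝ} (hL : 1 ≤ L) : 1 ≤ ∫ u in (-1 : ℝ)..1, ker L u := by
  have hL0 : 0 < L := by linarith
  have hcont := ker_continuous hL0
  have hinv : 0 < 1 / L := by positivity
  have hinv1 : 1 / L ≤ 1 := by
    rw [div_le_one hL0]
    exact hL
  have h1 : ∫ u in (-(1 / L))..(1 / L), ker L u ≤ ∫ u in (-1 : ℝ)..1, ker L u :=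
    intervalIntegral.integral_mono_interval (by linarith) (by linarith) hinv1
      (Filter.Eventually.of_forall fun u => ker_nonneg hL0 u) (hcont.intervalIntegrable _ _)
  have h2 : ∫ _u in (-(1 / L))..(1 / L), L / 2 ≤ ∫ u in (-(1 / L))..(1 / L), ker L u := by
    apply intervalIntegral.integral_mono_on (by linarith) (continuous_const.intervalIntegrable _ _)
      (hcont.intervalIntegrable _ _)
    intro u hu
    unfold ker
    split_ifs with h
    · linarith
    · have habs : |L * u| ≤ 1 := by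
        rw [abs_mul, abs_of_pos hL0]
        have : |u| ≤ 1 / L := abs_le.2 hu
        calc L * |u| ≤ L * (1 / L) := mul_le_mul_of_nonneg_left this hL0.le
          _ = 1 := by field_simp
      have hb := Real.cos_bound habs
      have h4 : |L * u| ^ 4 ≤ (L * u) ^ 2 := by
        have : |L * u| ^ 4 = (L * u) ^ 2 * |L * u| ^ 2 := by
          rw [← sq_abs (L * u)]
          ring
        rw [this]
        have h5 : |L * u| ^ 2 ≤ 1 := pow_le_one₀ (abs_nonneg _) habs
        nlinarith [sq_nonneg (L * u)]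
      have h5 := (abs_le.1 hb).2
      have h6 : 0 < L * u ^ 2 := by positivity
      rw [le_div_iff₀ h6]
      nlinarith [sq_nonneg (L * u)]
  have h3 : ∫ _u in (-(1 / L))..(1 / L), L / 2 = 1 := by
    rw [intervalIntegral.integral_const, smul_eq_mul]
    field_simp
    ring
  linarith

end Pool.Agent.H3.LC
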