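import Pool.Agent.H3.LC.Ker

/-!
# LC KerFar: the contribution of the far terms

Chebyshev (`Chebyshev.psi_le_const_mul_self`): `∑_{a ≤ log n < a+1} Λ(n)/n ≤ e^{-a} ψ(e^{a+1}) ≤ (log 4 + 4) e =: c` for every real `a` (for `a < -1` the sum is empty).
For `|log n - y| ≥ δ`: `ker L (log n - y) ≤ 4 / (L (log n - y)²)`, and `n^{-(1+σ)} ≤ 1/n`.  Split according to `j = ⌊log n - y⌋ ∈ ℤ`:
for `j = 0, -1` use `(log n - y)² ≥ δ²`; for `j ≥ 1` use `≥ j²`; for `j ≤ -2` use `≥ (|j| - 1)²`.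
The sum is `≤ (4c/L) (2/δ² + 2 ∑_{j ≥ 1} 1/j²) ≤ C / (L δ²)` for `δ ≤ 1`.
State it for the indicator function of `{n : δ ≤ |log n - y|}`.
-/

set_option autoImplicit false

open ArithmeticFunction

namespace Pool.Agent.H3.LC

/-- the weights are summable -/
theorem kerfar_summable : Summable (fun j : ℤ => 1 / (1 + |(j : ℝ)|) ^ 2) := by
  have h0 : Summable (fun n : ℕ => 1 / (1 + (n : ℝ)) ^ 2) := by
    have h1 : Summable (fun n : ℕ => 1 / ((n : ℝ)) ^ 2) := Real.summable_one_div_nat_pow.2 one_lt_two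
    have h2 := (summable_nat_add_iff 1).2 h1
    refine h2.congr fun n => ?_
    push_cast
    rw [add_comm (n : ℝ) 1]
  rw [summable_int_iff_summable_nat_and_neg]
  constructor
  · refine h0.congr fun n => ?_
    simp
  · refine h0.congr fun n => ?_
    simp

/-- Chebyshev bound for one bucket -/
theorem kerfar_bucket (y : ℝ) (s : Finset ℕ) (j : ℤ) :
    ∑ n ∈ s.filter (fun n : ℕ => ⌊Real.log n - y⌋ = j), vonMangoldt n / (n : ℝ) ≤
      (Real.log 4 + 4) * Real.exp 1 := by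
  set X : ℝ := Real.exp (y + j) with hX
  have hXpos : 0 < X := Real.exp_pos _
  have key : ∀ n ∈ s.filter (fun n : ℕ => ⌊Real.log n - y⌋ = j), n ≠ 0 →
      X ≤ n ∧ (n : ℝ) < Real.exp 1 * X := by
    intro n hn hn0
    rw [Finset.mem_filter] at hn
    have hnpos : (0 : ℝ) < n := Nat.cast_pos.2 (Nat.pos_of_ne_zero hn0)
    have h1 := Int.floor_eq_iff.1 hn.2
    constructor
    · rw [hX, ← Real.le_log_iff_exp_le hnpos]
      linarith [h1.1]
    · rw [hX, ← Real.exp_add, ← Real.log_lt_iff_lt_exp hnpos]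
      linarith [h1.2]
  have h1 : ∑ n ∈ s.filter (fun n : ℕ => ⌊Real.log n - y⌋ = j), vonMangoldt n / (n : ℝ) ≤
      ∑ n ∈ s.filter (fun n : ℕ => ⌊Real.log n - y⌋ = j), vonMangoldt n / X := by
    refine Finset.sum_le_sum fun n hn => ?_
    by_cases hn0 : n = 0
    · rw [hn0]
      simp
    · exact div_le_div_of_nonneg_left vonMangoldt_nonneg hXpos (key n hn hn0).1
  have h2 : ∑ n ∈ s.filter (fun n : ℕ => ⌊Real.log n - y⌋ = j), vonMangoldt n ≤
      Chebyshev.psi (Real.exp 1 * X) := by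
    rw [Chebyshev.psi_eq_sum_Icc]
    refine Finset.sum_le_sum_of_subset_of_nonneg ?_ fun n _ _ => vonMangoldt_nonneg
    intro n hn
    rw [Finset.mem_Icc]
    refine ⟨Nat.zero_le _, ?_⟩
    by_cases hn0 : n = 0
    · rw [hn0]
      exact Nat.zero_le _
    · exact Nat.le_floor (key n hn hn0).2.le
  have h3 := Chebyshev.psi_le_const_mul_self (x := Real.exp 1 * X) (by positivity)
  rw [← Finset.sum_div] at h1
  refine le_trans h1 ?_
  rw [div_le_iff₀ hXpos]
  calc _ ≤ Chebyshev.psi (Real.exp 1 * X) := h2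
    _ ≤ (Real.log 4 + 4) * (Real.exp 1 * X) := h3
    _ = (Real.log 4 + 4) * Real.exp 1 * X := by ring

/-- bound for one term -/
theorem kerfar_term {L σ δ y : ℝ} (hL : 0 < L) (hσ : 0 < σ) (hδ : 0 < δ) (hδ1 : δ ≤ 1) (n : ℕ) :
    (if δ ≤ |Real.log n - y| then
      vonMangoldt n * (n : ℝ) ^ (-(1 + σ)) * ker L (Real.log n - y) else 0) ≤
      (36 / (L * δ ^ 2)) * (vonMangoldt n / (n : ℝ) * (1 / (1 + |((⌊Real.log n - y⌋ : ℤ) : ℝ)|) ^ 2)) := by
  have hΛ : 0 ≤ vonMangoldt n := vonMangoldt_nonneg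
  have hR : 0 ≤ (36 / (L * δ ^ 2)) *
      (vonMangoldt n / (n : ℝ) * (1 / (1 + |((⌊Real.log n - y⌋ : ℤ) : ℝ)|) ^ 2)) := by
    have : (0 : ℝ) ≤ n := Nat.cast_nonneg n
    positivity
  split_ifs with hd
  · by_cases hn0 : n = 0
    · rw [hn0] at hR ⊢
      simp
    · have hn1 : (1 : ℝ) ≤ n := by exact_mod_cast Nat.one_le_iff_ne_zero.2 hn0
      obtain ⟨u, hu⟩ : ∃ u, u = Real.log n - y := ⟨_, rfl⟩
      rw [← hu] at hd hR ⊢
      have hu0 : u ≠ 0 := by
        intro h0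
        rw [h0, abs_zero] at hd
        linarith
      have hupos : 0 < |u| := abs_pos.2 hu0
      have hp : (n : ℝ) ^ (-(1 + σ)) ≤ 1 / (n : ℝ) := by
        have h1 : (n : ℝ) ^ (-(1 + σ)) ≤ (n : ℝ) ^ (-1 : ℝ) :=
          Real.rpow_le_rpow_of_exponent_le hn1 (by linarith)
        rwa [Real.rpow_neg_one, ← one_div] at h1
      have hp0 : 0 ≤ (n : ℝ) ^ (-(1 + σ)) := by positivity
      have hfl : |((⌊u⌋ : ℤ) : ℝ)| ≤ |u| + 1 := by
        have h1 := Int.floor_le u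
        have h2 := Int.lt_floor_add_one u
        rw [abs_le]
        constructor
        · have := neg_abs_le u
          linarith
        · have := le_abs_self u
          linarith
      have hk : ker L u ≤ 36 / (L * δ ^ 2) * (1 / (1 + |((⌊u⌋ : ℤ) : ℝ)|) ^ 2) := by
        refine le_trans (ker_le_inv_sq hL hu0) ?_
        have hw : 0 < 1 + |((⌊u⌋ : ℤ) : ℝ)| := by positivity
        have h3 : δ * (1 + |((⌊u⌋ : ℤ) : ℝ)|) ≤ 3 * |u| := by nlinarith
        have h4 : (δ * (1 + |((⌊u⌋ : ℤ) : ℝ)|)) ^ 2 ≤ 9 * u ^ 2 := by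
          have h5 := pow_le_pow_left₀ (by positivity) h3 2
          have h6 : (3 * |u|) ^ 2 = 9 * u ^ 2 := by
            rw [mul_pow, sq_abs]
            norm_num
          rw [h6] at h5
          exact h5
        rw [div_mul_div_comm, mul_one, div_le_div_iff₀ (by positivity) (by positivity)]
        calc 4 * (L * δ ^ 2 * (1 + |((⌊u⌋ : ℤ) : ℝ)|) ^ 2) =
              4 * L * (δ * (1 + |((⌊u⌋ : ℤ) : ℝ)|)) ^ 2 := by ring
          _ ≤ 4 * L * (9 * u ^ 2) := mul_le_mul_of_nonneg_left h4 (by positivity)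
          _ = 36 * (L * u ^ 2) := by ring
      have hk0 : 0 ≤ ker L u := ker_nonneg hL u
      calc vonMangoldt n * (n : ℝ) ^ (-(1 + σ)) * ker L u
          ≤ vonMangoldt n * (1 / (n : ℝ)) * (36 / (L * δ ^ 2) * (1 / (1 + |((⌊u⌋ : ℤ) : ℝ)|) ^ 2)) := by
            apply mul_le_mul _ hk hk0 (by positivity)
            exact mul_le_mul_of_nonneg_left hp hΛ
        _ = _ := by ring
  · exact hR

theorem ker_far : ∃ C : ℝ, 0 < C ∧ ∀ L σ δ y : ℝ, 0 < L → 0 < σ → 0 < δ → δ ≤ 1 →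
    ∑' n : ℕ, (if δ ≤ |Real.log n - y| then
      vonMangoldt n * (n : ℝ) ^ (-(1 + σ)) * ker L (Real.log n - y) else 0) ≤ C / (L * δ ^ 2) := by
  obtain ⟨c, hc⟩ : ∃ c : ℝ, c = (Real.log 4 + 4) * Real.exp 1 := ⟨_, rfl⟩
  obtain ⟨T, hT⟩ : ∃ T : ℝ, T = ∑' j : ℤ, 1 / (1 + |(j : ℝ)|) ^ 2 := ⟨_, rfl⟩
  have hc0 : 0 < c := by
    rw [hc]
    have := Real.log_nonneg (show (1 : ℝ) ≤ 4 by norm_num)
    positivity
  have hT0 : 0 ≤ T := by
    rw [hT]
    exact tsum_nonneg fun j => by positivity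
  refine ⟨36 * (c * T) + 1, by positivity, ?_⟩
  intro L σ δ y hL hσ hδ hδ1
  apply Real.tsum_le_of_sum_range_le
  · intro n
    split_ifs
    · exact mul_nonneg (mul_nonneg vonMangoldt_nonneg (by positivity)) (ker_nonneg hL _)
    · exact le_rfl
  · intro N
    have h1 : ∑ n ∈ Finset.range N, (if δ ≤ |Real.log n - y| then
        vonMangoldt n * (n : ℝ) ^ (-(1 + σ)) * ker L (Real.log n - y) else 0) ≤
        ∑ n ∈ Finset.range N, (36 / (L * δ ^ 2)) *
          (vonMangoldt n / (n : ℝ) * (1 / (1 + |((⌊Real.log n - y⌋ : ℤ) : ℝ)|) ^ 2)) :=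
      Finset.sum_le_sum fun n _ => kerfar_term hL hσ hδ hδ1 n
    refine le_trans h1 ?_
    rw [← Finset.mul_sum]
    have h2 : ∑ n ∈ Finset.range N, vonMangoldt n / (n : ℝ) *
        (1 / (1 + |((⌊Real.log n - y⌋ : ℤ) : ℝ)|) ^ 2) ≤ c * T := by
      rw [← Finset.sum_fiberwise_of_maps_to (t := (Finset.range N).image
        (fun n : ℕ => ⌊Real.log n - y⌋)) (g := fun n : ℕ => ⌊Real.log n - y⌋)
        (fun n hn => Finset.mem_image_of_mem _ hn)]
      have h3 : ∀ j ∈ (Finset.range N).image (fun n : ℕ => ⌊Real.log n - y⌋),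
          ∑ n ∈ (Finset.range N).filter (fun n : ℕ => ⌊Real.log n - y⌋ = j),
            vonMangoldt n / (n : ℝ) * (1 / (1 + |((⌊Real.log n - y⌋ : ℤ) : ℝ)|) ^ 2) ≤
            c * (1 / (1 + |(j : ℝ)|) ^ 2) := by
        intro j _
        have h4 : ∑ n ∈ (Finset.range N).filter (fun n : ℕ => ⌊Real.log n - y⌋ = j),
            vonMangoldt n / (n : ℝ) * (1 / (1 + |((⌊Real.log n - y⌋ : ℤ) : ℝ)|) ^ 2) =
            (∑ n ∈ (Finset.range N).filter (fun n : ℕ => ⌊Real.log n - y⌋ = j),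
              vonMangoldt n / (n : ℝ)) * (1 / (1 + |(j : ℝ)|) ^ 2) := by
          rw [Finset.sum_mul]
          refine Finset.sum_congr rfl fun n hn => ?_
          rw [(Finset.mem_filter.1 hn).2]
        rw [h4, hc]
        exact mul_le_mul_of_nonneg_right (kerfar_bucket y _ j) (by positivity)
      refine le_trans (Finset.sum_le_sum h3) ?_
      rw [← Finset.mul_sum, hT]
      apply mul_le_mul_of_nonneg_left _ hc0.le
      exact kerfar_summable.sum_le_tsum _ (fun j _ => by positivity)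
    calc 36 / (L * δ ^ 2) * ∑ n ∈ Finset.range N, vonMangoldt n / (n : ℝ) *
          (1 / (1 + |((⌊Real.log n - y⌋ : ℤ) : ℝ)|) ^ 2)
        ≤ 36 / (L * δ ^ 2) * (c * T) := mul_le_mul_of_nonneg_left h2 (by positivity)
      _ = 36 * (c * T) / (L * δ ^ 2) := by ring
      _ ≤ (36 * (c * T) + 1) / (L * δ ^ 2) := by
        apply div_le_div_of_nonneg_right _ (by positivity)
        linarith

end Pool.Agent.H3.LC
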