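import Pool.Agent.H3.LC.Ker

/-!
# LC KerId: the explicit formula with the Fejer kernel

`GG : ℂ → ℂ` is a function with `GG s = ∑ Λ(n) n^{-s} - 1/(s-1)` for `re s > 1`, continuous on `re s ≥ 1`.  It exists:
`ArithmeticFunction.vonMangoldt.LFunctionResidueClassAux (1 : ZMod 1)` (file NumberTheory/LSeries/PrimesInAP.lean,
`eqOn_LFunctionResidueClassAux`, `continuousOn_LFunctionResidueClassAux`; the residue class function for modulus 1 is `Λ`).
`lambda_formula`: for `σ > 0`, `y ≥ 0`
 `∑_n Λ(n) n^{-(1+σ)} ker L (log n - y) = ∫_0^∞ e^{-σu} ker L (u - y) du + re ∫_{-L}^{L} (1-|t|/L) e^{-ity} GG (1 + σ - it) dt`.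
Proof: insert `ker_eq` on the left, exchange sum and integral (absolutely summable, `∑ Λ(n) n^{-1-σ} < ∞`): the left side is
`∫ (1-|t|/L) e^{-ity} D(1+σ-it) dt`, `D(s) = ∑ Λ(n) n^{-s}`, since `n^{-(1+σ)} e^{it log n} = n^{-(1+σ-it)}`; similarly by Fubini
`∫_0^∞ e^{-σu} ker L (u-y) du = ∫ (1-|t|/L) e^{-ity} /(σ - it) dt`, and `D(1+σ-it) - 1/(σ-it) = GG(1+σ-it)`.
-/

set_option autoImplicit false

open MeasureTheory ArithmeticFunction

namespace Pool.Agent.H3.LC

theorem exists_GG : ∃ G : ℂ → ℂ, ContinuousOn G {s | 1 ≤ s.re} ∧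
    ∀ s : ℂ, 1 < s.re → G s = LSeries (fun n => (vonMangoldt n : ℂ)) s - 1 / (s - 1) := by
  refine ⟨ArithmeticFunction.vonMangoldt.LFunctionResidueClassAux (1 : ZMod 1),
    ArithmeticFunction.vonMangoldt.continuousOn_LFunctionResidueClassAux (1 : ZMod 1), ?_⟩
  intro s hs
  have h := ArithmeticFunction.vonMangoldt.eqOn_LFunctionResidueClassAux
    (a := (1 : ZMod 1)) isUnit_one hs
  rw [h]
  have h1 : (fun n : ℕ => ((ArithmeticFunction.vonMangoldt.residueClass (1 : ZMod 1) n : ℝ) : ℂ)) =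
      fun n : ℕ => (vonMangoldt n : ℂ) := by
    funext n
    congr 1
    unfold ArithmeticFunction.vonMangoldt.residueClass
    rw [Set.indicator_of_mem]
    exact Subsingleton.elim _ _
  simp only [h1, Nat.totient_one, Nat.cast_one, inv_one]

theorem kerId_term_norm {σ : ℝ} (t : ℝ) (n : ℕ) :
    ‖LSeries.term (fun n => (vonMangoldt n : ℂ)) (1 + σ - t * Complex.I) n‖ =
      vonMangoldt n * (n : ℝ) ^ (-(1 + σ)) := by
  rcases Nat.eq_zero_or_pos n with rfl | hn
  · simp
  · rw [LSeries.term_of_ne_zero hn.ne', norm_div, Complex.norm_natCast_cpow_of_pos hn]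
    have h1 : (1 + (σ : ℂ) - t * Complex.I).re = 1 + σ := by simp
    rw [h1, Complex.norm_real, Real.norm_of_nonneg vonMangoldt_nonneg,
      Real.rpow_neg (Nat.cast_nonneg n), div_eq_mul_inv]

theorem kerId_summable {σ : ℝ} (hσ : 0 < σ) :
    Summable (fun n : ℕ => vonMangoldt n * (n : ℝ) ^ (-(1 + σ))) := by
  have h := ArithmeticFunction.LSeriesSummable_vonMangoldt (s := 1 + σ - (0 : ℝ) * Complex.I)
    (by simpa using hσ)
  have h2 := h.norm
  refine h2.congr fun n => ?_
  exact kerId_term_norm 0 n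

theorem summable_lambda_ker {L σ : ℝ} (hL : 0 < L) (hσ : 0 < σ) (y : ℝ) :
    Summable (fun n : ℕ => vonMangoldt n * (n : ℝ) ^ (-(1 + σ)) * ker L (Real.log n - y)) := by
  refine Summable.of_nonneg_of_le (fun n => ?_) (fun n => ?_) ((kerId_summable hσ).mul_right L)
  · exact mul_nonneg (mul_nonneg vonMangoldt_nonneg (Real.rpow_nonneg (Nat.cast_nonneg n) _))
      (ker_nonneg hL _)
  · exact mul_le_mul_of_nonneg_left (ker_le hL _)
      (mul_nonneg vonMangoldt_nonneg (Real.rpow_nonneg (Nat.cast_nonneg n) _))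

/-- the weight -/
noncomputable def kerIdW (L y t : ℝ) : ℂ :=
  ((1 - |t| / L : ℝ) : ℂ) * Complex.exp (-(t * y * Complex.I))

theorem kerIdW_cont (L y : ℝ) : Continuous (kerIdW L y) := by
  unfold kerIdW
  fun_prop

theorem kerIdW_norm {L : ℝ} (hL : 0 < L) (y : ℝ) {t : ℝ} (ht : t ∈ Set.uIoc (-L) L) :
    ‖kerIdW L y t‖ ≤ 1 := by
  rw [Set.uIoc_of_le (by linarith)] at ht
  have h1 : |t| ≤ L := abs_le.2 ⟨ht.1.le, ht.2⟩
  unfold kerIdW
  rw [norm_mul, Complex.norm_real]
  have h2 : ‖Complex.exp (-(t * y * Complex.I))‖ = 1 := by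
    have : (-((t : ℂ) * y * Complex.I)) = ((-(t * y) : ℝ) : ℂ) * Complex.I := by
      push_cast; ring
    rw [this, Complex.norm_exp_ofReal_mul_I]
  rw [h2, mul_one, Real.norm_eq_abs, abs_le]
  have h3 : |t| / L ≤ 1 := (div_le_one hL).2 h1
  have h4 : 0 ≤ |t| / L := by positivity
  constructor <;> linarith

theorem kerId_ker {L : ℝ} (hL : 0 < L) (y u : ℝ) :
    (ker L (u - y) : ℂ) = ∫ t in (-L)..L, kerIdW L y t * Complex.exp (t * u * Complex.I) := by
  rw [← ker_eq hL]
  refine intervalIntegral.integral_congr fun t _ => ?_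
  simp only [kerIdW]
  rw [mul_assoc ((1 - |t| / L : ℝ) : ℂ) (Complex.exp _) (Complex.exp _), ← Complex.exp_add]
  congr 2
  push_cast
  ring

theorem kerId_sum {L σ : ℝ} (hL : 0 < L) (hσ : 0 < σ) (y : ℝ) :
    ((∑' n : ℕ, vonMangoldt n * (n : ℝ) ^ (-(1 + σ)) * ker L (Real.log n - y) : ℝ) : ℂ) =
      ∫ t in (-L)..L, kerIdW L y t *
        LSeries (fun n => (vonMangoldt n : ℂ)) (1 + σ - t * Complex.I) := by
  have key : HasSum (fun n : ℕ => ∫ t in (-L)..L, kerIdW L y t *
      LSeries.term (fun n => (vonMangoldt n : ℂ)) (1 + σ - t * Complex.I) n)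
      (∫ t in (-L)..L, kerIdW L y t *
        LSeries (fun n => (vonMangoldt n : ℂ)) (1 + σ - t * Complex.I)) := by
    refine intervalIntegral.hasSum_integral_of_dominated_convergence
      (fun n _ => vonMangoldt n * (n : ℝ) ^ (-(1 + σ))) ?_ ?_ ?_ ?_ ?_
    · intro n
      refine Continuous.aestronglyMeasurable ?_
      refine (kerIdW_cont L y).mul ?_
      rcases Nat.eq_zero_or_pos n with rfl | hn
      · simp only [LSeries.term_zero]
        exact continuous_const
      · simp only [LSeries.term_of_ne_zero hn.ne']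
        have hn0 : (n : ℂ) ≠ 0 := Nat.cast_ne_zero.2 hn.ne'
        refine Continuous.div continuous_const ?_ ?_
        · refine Continuous.const_cpow ?_ (Or.inl hn0)
          fun_prop
        · intro t
          rw [Ne, Complex.cpow_eq_zero_iff]
          tauto
    · intro n
      refine Filter.Eventually.of_forall fun t ht => ?_
      rw [norm_mul, kerId_term_norm]
      have h0 : 0 ≤ vonMangoldt n * (n : ℝ) ^ (-(1 + σ)) :=
        mul_nonneg vonMangoldt_nonneg (Real.rpow_nonneg (Nat.cast_nonneg n) _)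
      exact mul_le_of_le_one_left h0 (kerIdW_norm hL y ht)
    · exact Filter.Eventually.of_forall fun t _ => kerId_summable hσ
    · exact intervalIntegrable_const
    · refine Filter.Eventually.of_forall fun t _ => ?_
      refine HasSum.mul_left _ ?_
      have hs : 1 < (1 + (σ : ℂ) - t * Complex.I).re := by simpa using hσ
      exact (ArithmeticFunction.LSeriesSummable_vonMangoldt hs).LSeriesHasSum
  rw [← key.tsum_eq, Complex.ofReal_tsum]
  refine tsum_congr fun n => ?_
  rcases Nat.eq_zero_or_pos n with rfl | hn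
  · simp
  · have hn0 : (n : ℂ) ≠ 0 := Nat.cast_ne_zero.2 hn.ne'
    have h1 : ∀ t : ℝ, kerIdW L y t *
        LSeries.term (fun n => (vonMangoldt n : ℂ)) (1 + σ - t * Complex.I) n =
        ((vonMangoldt n * (n : ℝ) ^ (-(1 + σ)) : ℝ) : ℂ) *
          (kerIdW L y t * Complex.exp (t * (Real.log n : ℝ) * Complex.I)) := by
      intro t
      rw [LSeries.term_of_ne_zero hn.ne']
      have h2 : (n : ℂ) ^ (1 + (σ : ℂ) - t * Complex.I) =
          ((((n : ℝ) ^ (1 + σ) : ℝ)) : ℂ) * Complex.exp (-(t * (Real.log n : ℝ) * Complex.I)) := by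
        rw [Complex.ofReal_cpow (Nat.cast_nonneg n), Complex.cpow_def_of_ne_zero hn0,
          Complex.cpow_def_of_ne_zero (by simpa using hn0), ← Complex.exp_add]
        congr 1
        rw [← Complex.natCast_log]
        push_cast
        ring
      rw [h2, Real.rpow_neg (Nat.cast_nonneg n)]
      have h3 : ((((n : ℝ) ^ (1 + σ) : ℝ)) : ℂ) ≠ 0 := by
        rw [Ne, Complex.ofReal_eq_zero]
        exact (Real.rpow_pos_of_pos (Nat.cast_pos.2 hn) _).ne'
      rw [Complex.exp_neg]
      have h4 : Complex.exp (t * (Real.log n : ℝ) * Complex.I) ≠ 0 := Complex.exp_ne_zero _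
      push_cast at h3 h4 ⊢
      field_simp
    simp_rw [h1]
    rw [intervalIntegral.integral_const_mul, ← kerId_ker hL]
    push_cast
    ring

theorem kerId_int {L σ : ℝ} (hL : 0 < L) (hσ : 0 < σ) (y : ℝ) :
    ((∫ u in Set.Ioi (0 : ℝ), Real.exp (-σ * u) * ker L (u - y) : ℝ) : ℂ) =
      ∫ t in (-L)..L, kerIdW L y t * (1 / (σ - t * Complex.I)) := by
  have hLL : -L ≤ L := by linarith
  rw [← integral_complex_ofReal]
  have h1 : ∀ u : ℝ, ((Real.exp (-σ * u) * ker L (u - y) : ℝ) : ℂ) =
      ∫ t in Set.Ioc (-L) L, kerIdW L y t * Complex.exp (-((σ : ℂ) - t * Complex.I) * u) := by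
    intro u
    rw [Complex.ofReal_mul, kerId_ker hL, intervalIntegral.integral_of_le hLL,
      ← MeasureTheory.integral_const_mul]
    refine MeasureTheory.integral_congr_ae (Filter.Eventually.of_forall fun t => ?_)
    simp only
    rw [mul_left_comm, Complex.ofReal_exp, ← Complex.exp_add]
    congr 2
    push_cast
    ring
  simp_rw [h1]
  rw [MeasureTheory.integral_integral_swap, intervalIntegral.integral_of_le hLL]
  · refine MeasureTheory.integral_congr_ae (Filter.Eventually.of_forall fun t => ?_)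
    simp only
    rw [MeasureTheory.integral_const_mul]
    congr 1
    rw [integral_exp_mul_complex_Ioi (by simpa using hσ)]
    simp only [Complex.ofReal_zero, mul_zero, Complex.exp_zero]
    rw [neg_div_neg_eq]
  · -- integrability
    have hA : Integrable (fun u : ℝ => Real.exp (-σ * u)) (volume.restrict (Set.Ioi (0 : ℝ))) := by
      exact integrableOn_exp_mul_Ioi (by linarith) 0
    have hB : Integrable (fun _ : ℝ => (1 : ℝ)) (volume.restrict (Set.Ioc (-L) L)) := by
      exact integrable_const 1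
    have hAB := hA.mul_prod hB
    refine hAB.mono' ?_ ?_
    · refine Continuous.aestronglyMeasurable ?_
      simp only [Function.uncurry_def]
      refine Continuous.mul ((kerIdW_cont L y).comp continuous_snd) ?_
      fun_prop
    · have hmem : ∀ᵐ z : ℝ × ℝ ∂((volume.restrict (Set.Ioi (0 : ℝ))).prod
          (volume.restrict (Set.Ioc (-L) L))), z ∈ (Set.Ioi (0 : ℝ)) ×ˢ (Set.Ioc (-L) L) := by
        rw [Measure.prod_restrict]
        exact ae_restrict_mem (measurableSet_Ioi.prod measurableSet_Ioc)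
      filter_upwards [hmem] with z hz
      simp only [Function.uncurry_def]
      rw [norm_mul, Complex.norm_exp]
      have h2 : (-((σ : ℂ) - z.2 * Complex.I) * z.1).re = -σ * z.1 := by
        simp
      rw [h2, mul_one]
      refine mul_le_of_le_one_left (Real.exp_pos _).le (kerIdW_norm hL y ?_)
      rw [Set.uIoc_of_le hLL]
      exact hz.2

theorem lambda_formula {G : ℂ → ℂ} (hG : ContinuousOn G {s | 1 ≤ s.re})
    (hG1 : ∀ s : ℂ, 1 < s.re → G s = LSeries (fun n => (vonMangoldt n : ℂ)) s - 1 / (s - 1))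
    {L σ y : ℝ} (hL : 0 < L) (hσ : 0 < σ) :
    ∑' n : ℕ, vonMangoldt n * (n : ℝ) ^ (-(1 + σ)) * ker L (Real.log n - y) =
      (∫ u in Set.Ioi (0 : ℝ), Real.exp (-σ * u) * ker L (u - y)) +
        (∫ t in (-L)..L, ((1 - |t| / L : ℝ) : ℂ) * Complex.exp (-(t * y * Complex.I)) *
          G (1 + σ - t * Complex.I)).re := by
  have hcG : Continuous (fun t : ℝ => G (1 + σ - t * Complex.I)) := by
    refine hG.comp_continuous (by fun_prop) fun t => ?_
    simp only [Set.mem_ofPred_eq]
    simpa using hσ.le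
  have hne : ∀ t : ℝ, (σ : ℂ) - t * Complex.I ≠ 0 := by
    intro t h
    have := congrArg Complex.re h
    simp at this
    exact hσ.ne' this
  have hc1 : Continuous (fun t : ℝ => (1 : ℂ) / (σ - t * Complex.I)) :=
    Continuous.div continuous_const (by fun_prop) hne
  have hkey : ∀ t : ℝ, LSeries (fun n => (vonMangoldt n : ℂ)) (1 + σ - t * Complex.I) =
      1 / (σ - t * Complex.I) + G (1 + σ - t * Complex.I) := by
    intro t
    have hs : 1 < (1 + (σ : ℂ) - t * Complex.I).re := by simpa using hσ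
    rw [hG1 _ hs]
    have : (1 + (σ : ℂ) - t * Complex.I - 1) = σ - t * Complex.I := by ring
    rw [this]
    ring
  have hC : ((∑' n : ℕ, vonMangoldt n * (n : ℝ) ^ (-(1 + σ)) * ker L (Real.log n - y) : ℝ) : ℂ) =
      ((∫ u in Set.Ioi (0 : ℝ), Real.exp (-σ * u) * ker L (u - y) : ℝ) : ℂ) +
        ∫ t in (-L)..L, kerIdW L y t * G (1 + σ - t * Complex.I) := by
    rw [kerId_sum hL hσ, kerId_int hL hσ, ← intervalIntegral.integral_add]
    · refine intervalIntegral.integral_congr fun t _ => ?_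
      rw [hkey]
      ring
    · exact ((kerIdW_cont L y).mul hc1).intervalIntegrable _ _
    · exact ((kerIdW_cont L y).mul hcG).intervalIntegrable _ _
  have hR := congrArg Complex.re hC
  rw [Complex.add_re, Complex.ofReal_re, Complex.ofReal_re] at hR
  exact hR

end Pool.Agent.H3.LC
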