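import Mathlib

/-!
# LC KerLim: Riemann-Lebesgue, uniformly for small `σ`

`G` is continuous on `re s ≥ 1`.  On the compact set `{σ ∈ [0,1], |t| ≤ L}` it is uniformly continuous, so there is `σ0` with
`|G(1+σ-it) - G(1-it)| ≤ ε/(4L)` for `0 ≤ σ ≤ σ0`, `|t| ≤ L`; the integral changes by at most `ε/2`.  For `σ = 0` the integral tends to `0` for
`y → ∞` by the Riemann-Lebesgue lemma (`Real.tendsto_integral_exp_smul_cocompact` or `tendsto_integral_exp_smul_cocompact`; the integrand without the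
exponential factor is the integrable function `t ↦ 1_{[-L,L]}(t) (1-|t|/L) G(1-it)`).
-/

set_option autoImplicit false

open MeasureTheory

namespace Pool.Agent.H3.LC

/-- continuity of `(σ,t) ↦ G(1+σ-it)` -/
theorem kerlim_cont {G : ℂ → ℂ} (hG : ContinuousOn G {s | 1 ≤ s.re}) (L : ℝ) :
    ContinuousOn (fun p : ℝ × ℝ => G (1 + (p.1 : ℂ) - (p.2 : ℂ) * Complex.I))
      (Set.Icc (0 : ℝ) 1 ×ˢ Set.Icc (-L) L) := by
  have h1 : Continuous (fun p : ℝ × ℝ => (1 + (p.1 : ℂ) - (p.2 : ℂ) * Complex.I)) := by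
    fun_prop
  refine hG.comp h1.continuousOn ?_
  rintro ⟨a, b⟩ ⟨ha, _⟩
  show 1 ≤ (1 + (a : ℂ) - (b : ℂ) * Complex.I).re
  have h2 : (1 + (a : ℂ) - (b : ℂ) * Complex.I).re = 1 + a := by simp
  rw [h2]
  have := ha.1
  simp only at this
  linarith

/-- the modulus of the kernel is at most one -/
theorem kerlim_norm {L : ℝ} (hL : 0 < L) {t : ℝ} (ht : t ∈ Set.Icc (-L) L) (y : ℝ) :
    ‖((1 - |t| / L : ℝ) : ℂ) * Complex.exp (-(t * y * Complex.I))‖ ≤ 1 := by
  rw [norm_mul, Complex.norm_real]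
  have h1 : ‖Complex.exp (-(t * y * Complex.I))‖ = 1 := by
    have : (-(t * y * Complex.I) : ℂ) = ((-(t * y) : ℝ) : ℂ) * Complex.I := by push_cast; ring
    rw [this, Complex.norm_exp_ofReal_mul_I]
  rw [h1, mul_one, Real.norm_eq_abs, abs_le]
  have h2 : |t| ≤ L := abs_le.2 ht
  have h3 : |t| / L ≤ 1 := (div_le_one hL).2 h2
  have h4 : 0 ≤ |t| / L := div_nonneg (abs_nonneg _) hL.le
  constructor <;> linarith

/-- Riemann-Lebesgue on the line `σ = 0` -/
theorem kerlim_zero (G : ℂ → ℂ) {L : ℝ} (hL : 0 < L) {ε : ℝ} (hε : 0 < ε) :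
    ∃ y0 : ℝ, ∀ y : ℝ, y0 ≤ y →
      ‖∫ t in (-L)..L, ((1 - |t| / L : ℝ) : ℂ) * Complex.exp (-(t * y * Complex.I)) *
          G (1 + (0 : ℝ) - t * Complex.I)‖ < ε := by
  let f : ℝ → ℂ := (Set.Ioc (-L) L).indicator
    (fun t => ((1 - |t| / L : ℝ) : ℂ) * G (1 + (0 : ℝ) - t * Complex.I))
  have h1 := Real.tendsto_integral_exp_smul_cocompact f
  have h2 : Filter.Tendsto (fun y : ℝ => y / (2 * Real.pi)) Filter.atTop (Filter.cocompact ℝ) :=
    (Filter.tendsto_id.atTop_div_const Real.two_pi_pos).mono_right atTop_le_cocompact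
  have h3 := (h1.comp h2).norm
  rw [norm_zero] at h3
  have h4 := h3.eventually_lt_const hε
  obtain ⟨y0, hy0⟩ := Filter.eventually_atTop.1 h4
  refine ⟨y0, fun y hy => ?_⟩
  have h5 := hy0 y hy
  have h6 : ∫ t in (-L)..L, ((1 - |t| / L : ℝ) : ℂ) * Complex.exp (-(t * y * Complex.I)) *
      G (1 + (0 : ℝ) - t * Complex.I) =
      ∫ v : ℝ, (Real.fourierChar (-(v * (y / (2 * Real.pi)))) : Circle) • f v := by
    rw [intervalIntegral.integral_of_le (by linarith), ← integral_indicator measurableSet_Ioc]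
    refine integral_congr_ae (Filter.Eventually.of_forall fun t => ?_)
    show _ = (Real.fourierChar (-(t * (y / (2 * Real.pi)))) : Circle) • f t
    by_cases ht : t ∈ Set.Ioc (-L) L
    · simp only [f, Set.indicator_of_mem ht]
      rw [Circle.smul_def, Real.fourierChar_apply, smul_eq_mul]
      have h7 : (((2 * Real.pi * (-(t * (y / (2 * Real.pi)))) : ℝ) : ℂ) * Complex.I) =
          -(t * y * Complex.I) := by
        have h8 : (2 * Real.pi * (-(t * (y / (2 * Real.pi)))) : ℝ) = -(t * y) := by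
          field_simp
        rw [h8]
        push_cast
        ring
      rw [h7]
      ring
    · simp only [f, Set.indicator_of_notMem ht, smul_zero]
  rw [h6]
  exact h5

theorem ker_lim {G : ℂ → ℂ} (hG : ContinuousOn G {s | 1 ≤ s.re}) {L : ℝ} (hL : 0 < L) {ε : ℝ} (hε : 0 < ε) :
    ∃ σ0 : ℝ, 0 < σ0 ∧ ∃ y0 : ℝ, ∀ σ : ℝ, 0 < σ → σ ≤ σ0 → ∀ y : ℝ, y0 ≤ y →
      |(∫ t in (-L)..L, ((1 - |t| / L : ℝ) : ℂ) * Complex.exp (-(t * y * Complex.I)) *
          G (1 + σ - t * Complex.I)).re| ≤ ε := by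
  have hcont := kerlim_cont hG L
  have hcpt : IsCompact (Set.Icc (0 : ℝ) 1 ×ˢ Set.Icc (-L) L) := isCompact_Icc.prod isCompact_Icc
  have huc := hcpt.uniformContinuousOn_of_continuous hcont
  rw [Metric.uniformContinuousOn_iff] at huc
  obtain ⟨δ, hδ, hδ'⟩ := huc (ε / (4 * L)) (by positivity)
  obtain ⟨y0, hy0⟩ := kerlim_zero G hL (half_pos hε)
  refine ⟨min (δ / 2) 1, lt_min (half_pos hδ) one_pos, y0, fun σ hσ hσ0 y hy => ?_⟩
  have hσδ : σ < δ := by
    have := hσ0.trans (min_le_left _ _)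
    linarith
  have hσ1 : σ ≤ 1 := hσ0.trans (min_le_right _ _)
  have hmem : ∀ s ∈ Set.Icc (0 : ℝ) 1, ∀ t ∈ Set.Icc (-L) L,
      (s, t) ∈ Set.Icc (0 : ℝ) 1 ×ˢ Set.Icc (-L) L := fun s hs t ht => ⟨hs, ht⟩
  have hclose : ∀ t ∈ Set.Icc (-L) L,
      ‖G (1 + σ - t * Complex.I) - G (1 + (0 : ℝ) - t * Complex.I)‖ ≤ ε / (4 * L) := by
    intro t ht
    have h1 := hδ' (σ, t) (hmem σ ⟨hσ.le, hσ1⟩ t ht) (0, t) (hmem 0 ⟨le_rfl, zero_le_one⟩ t ht) (by
      rw [Prod.dist_eq]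
      simp only [dist_self, Real.dist_eq, sub_zero]
      rw [max_lt_iff]
      exact ⟨by rw [abs_of_pos hσ]; exact hσδ, hδ⟩)
    rw [dist_eq_norm] at h1
    exact h1.le
  have hcs : ∀ s ∈ Set.Icc (0 : ℝ) 1,
      ContinuousOn (fun t : ℝ => G (1 + (s : ℂ) - (t : ℂ) * Complex.I)) (Set.Icc (-L) L) := by
    intro s hs
    exact hcont.comp (f := fun t : ℝ => (s, t)) (by fun_prop) (fun t ht => hmem s hs t ht)
  have hker : Continuous (fun t : ℝ => ((1 - |t| / L : ℝ) : ℂ) *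
      Complex.exp (-(t * y * Complex.I))) := by
    fun_prop
  have hint : ∀ s ∈ Set.Icc (0 : ℝ) 1, IntervalIntegrable (fun t : ℝ =>
      ((1 - |t| / L : ℝ) : ℂ) * Complex.exp (-(t * y * Complex.I)) *
        G (1 + (s : ℂ) - t * Complex.I)) volume (-L) L := by
    intro s hs
    refine ContinuousOn.intervalIntegrable ?_
    rw [Set.uIcc_of_le (by linarith)]
    exact hker.continuousOn.mul (hcs s hs)
  set I1 := ∫ t in (-L)..L, ((1 - |t| / L : ℝ) : ℂ) * Complex.exp (-(t * y * Complex.I)) *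
          G (1 + σ - t * Complex.I) with hI1
  set I0 := ∫ t in (-L)..L, ((1 - |t| / L : ℝ) : ℂ) * Complex.exp (-(t * y * Complex.I)) *
          G (1 + (0 : ℝ) - t * Complex.I) with hI0
  have hdiff : ‖I1 - I0‖ ≤ ε / 2 := by
    rw [hI1, hI0, ← intervalIntegral.integral_sub (hint σ ⟨hσ.le, hσ1⟩)
      (hint 0 ⟨le_rfl, zero_le_one⟩)]
    have h2 : ∀ t ∈ Set.uIoc (-L) L, ‖((1 - |t| / L : ℝ) : ℂ) * Complex.exp (-(t * y * Complex.I)) *
          G (1 + σ - t * Complex.I) - ((1 - |t| / L : ℝ) : ℂ) * Complex.exp (-(t * y * Complex.I)) *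
          G (1 + (0 : ℝ) - t * Complex.I)‖ ≤ ε / (4 * L) := by
      intro t ht
      rw [Set.uIoc_of_le (by linarith)] at ht
      have ht' : t ∈ Set.Icc (-L) L := ⟨ht.1.le, ht.2⟩
      rw [← mul_sub, norm_mul]
      calc ‖((1 - |t| / L : ℝ) : ℂ) * Complex.exp (-(t * y * Complex.I))‖ *
            ‖G (1 + σ - t * Complex.I) - G (1 + (0 : ℝ) - t * Complex.I)‖
          ≤ 1 * (ε / (4 * L)) := mul_le_mul (kerlim_norm hL ht' y) (hclose t ht')
            (norm_nonneg _) zero_le_one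
        _ = ε / (4 * L) := one_mul _
    have h3 := intervalIntegral.norm_integral_le_of_norm_le_const h2
    refine h3.trans (le_of_eq ?_)
    rw [abs_of_pos (by linarith)]
    field_simp
    ring
  have h0 : ‖I0‖ < ε / 2 := hy0 y hy
  calc |I1.re| ≤ ‖I1‖ := Complex.abs_re_le_norm _
    _ = ‖(I1 - I0) + I0‖ := by rw [sub_add_cancel]
    _ ≤ ‖I1 - I0‖ + ‖I0‖ := norm_add_le _ _
    _ ≤ ε := by linarith

end Pool.Agent.H3.LC
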