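import Pool.Agent.H3.LC.Mertens
import Pool.Agent.H3.LC.Arith

/-!
# LC MassUp: upper bound for the mass of the primes above `k` on the multiples of `q`

`ms k x ≤ log x - ∑_{p ∣ x, p ≤ k} log p` (`∑_{p ∣ x} log p ≤ log x`).
If `q > k` there is at most one multiple of `q` in the block (`multiple_unique`) and `ms k x ≤ log(2n) ≤ k`.
If `q ≤ k`: there are at most `k/q + 1` multiples, `∑ log x ≤ (k/q + 1) log(2n)`; and
`∑_{q ∣ x} ∑_{p ∣ x, p ≤ k} log p ≥ ∑_{p ≤ k/q, p ≠ q} log p #{x : pq ∣ x} ≥ ∑_{p ≤ k/q, p ≠ q} log p (k/(pq) - 1)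
 ≥ (k/q) (log(k/q) - C) - (k/q)(log q/q) - 2k/q` (`mertens` and `cheb_theta` for the integer part of `k/q`).
So the sum is `≤ (k/q)(log(2n) - log k + log q + C') + log(2n) ≤ (k/q)(log n - log k) + C'' k` (`(log q)/q ≤ 1`, `log(2n) ≤ k`).
-/

set_option autoImplicit false

open Finset

namespace Pool.Agent.H3.LC

/-- number of multiples of `d` in a block, from below -/
theorem massUp_count (n k d : ℕ) (hd : 0 < d) :
    (k : ℝ) / d - 1 ≤ (((Icc (n + 1) (n + k)).filter (fun x => d ∣ x)).card : ℝ) := by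
  have h1 : k / d ≤ ((Icc (n + 1) (n + k)).filter (fun x => d ∣ x)).card := by
    have h2 : ((range (k / d)).image (fun j => (n / d + 1 + j) * d)).card = k / d := by
      rw [card_image_of_injective, card_range]
      intro a b hab
      have h3 : (n / d + 1 + a) = (n / d + 1 + b) := Nat.eq_of_mul_eq_mul_right hd hab
      omega
    rw [← h2]
    refine card_le_card fun y hy => ?_
    rw [mem_image] at hy
    obtain ⟨j, hj, rfl⟩ := hy
    rw [mem_range] at hj
    rw [mem_filter, mem_Icc]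
    have h4 : n < (n / d + 1) * d := by
      have := Nat.lt_div_mul_add (a := n) hd
      rw [add_mul, one_mul]
      exact this
    have h5 : n / d * d ≤ n := Nat.div_mul_le_self n d
    have h6 : (1 + j) * d ≤ k / d * d := Nat.mul_le_mul_right d (by omega)
    have h7 : k / d * d ≤ k := Nat.div_mul_le_self k d
    have h8 : (n / d + 1 + j) * d = n / d * d + (1 + j) * d := by ring
    have h9 : (n / d + 1 + j) * d = (n / d + 1) * d + j * d := by ring
    refine ⟨⟨?_, ?_⟩, Dvd.intro_left _ rfl⟩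
    · rw [h9]
      omega
    · rw [h8]
      omega
  have hd' : (0 : ℝ) < d := Nat.cast_pos.2 hd
  have h2 : (k : ℝ) / d - 1 ≤ ((k / d : ℕ) : ℝ) := by
    have h3 : k < k / d * d + d := Nat.lt_div_mul_add hd
    have h4 : (k : ℝ) < ((k / d : ℕ) : ℝ) * d + d := by exact_mod_cast h3
    rw [sub_le_iff_le_add, div_le_iff₀ hd']
    nlinarith
  exact h2.trans (by exact_mod_cast h1)

/-- the mass of the small primes dividing the multiples of `q` -/
theorem massUp_low (n k q : ℕ) (hq : q.Prime) :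
    ∑ p ∈ ((Icc 1 (k / q)).filter Nat.Prime).filter (fun p => p ≠ q),
        Real.log p * ((k : ℝ) / (p * q : ℕ) - 1) ≤
      ∑ x ∈ (Icc (n + 1) (n + k)).filter (fun x => q ∣ x),
        ∑ p ∈ x.primeFactors.filter (fun p : ℕ => ¬ ((k : ℝ) < (p : ℝ))), Real.log p := by
  set P := ((Icc 1 (k / q)).filter Nat.Prime).filter (fun p => p ≠ q) with hP
  set A := (Icc (n + 1) (n + k)).filter (fun x => q ∣ x) with hA
  have hPm : ∀ p ∈ P, 1 ≤ p ∧ p ≤ k / q ∧ p.Prime ∧ p ≠ q := by
    intro p hp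
    rw [hP, mem_filter, mem_filter, mem_Icc] at hp
    exact ⟨hp.1.1.1, hp.1.1.2, hp.1.2, hp.2⟩
  have h1 : ∀ x ∈ A, ∑ p ∈ P.filter (fun p => p ∣ x), Real.log p ≤
      ∑ p ∈ x.primeFactors.filter (fun p : ℕ => ¬ ((k : ℝ) < (p : ℝ))), Real.log p := by
    intro x hx
    rw [hA, mem_filter, mem_Icc] at hx
    refine sum_le_sum_of_subset_of_nonneg (fun p hp => ?_) fun p _ _ => Real.log_natCast_nonneg p
    rw [mem_filter] at hp
    obtain ⟨_, h2, h3, _⟩ := hPm p hp.1
    rw [mem_filter, Nat.mem_primeFactors]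
    refine ⟨⟨h3, hp.2, by omega⟩, not_lt.2 ?_⟩
    have : p ≤ k := h2.trans (Nat.div_le_self k q)
    exact_mod_cast this
  refine le_trans ?_ (sum_le_sum h1)
  have h2 : ∑ x ∈ A, ∑ p ∈ P.filter (fun p => p ∣ x), Real.log p =
      ∑ p ∈ P, Real.log p * ((A.filter (fun x => p ∣ x)).card : ℝ) := by
    have h3 : ∀ x ∈ A, ∑ p ∈ P.filter (fun p => p ∣ x), Real.log p =
        ∑ p ∈ P, if p ∣ x then Real.log p else 0 := fun x _ => sum_filter _ _
    rw [sum_congr rfl h3, sum_comm]
    refine sum_congr rfl fun p _ => ?_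
    rw [← sum_filter, sum_const, nsmul_eq_mul, mul_comm]
  rw [h2]
  refine sum_le_sum fun p hp => ?_
  obtain ⟨h3, _, h5, h6⟩ := hPm p hp
  refine mul_le_mul_of_nonneg_left ?_ (Real.log_natCast_nonneg p)
  refine (massUp_count n k (p * q) (Nat.mul_pos h3 hq.pos)).trans ?_
  refine Nat.cast_le.2 (card_le_card fun x hx => ?_)
  rw [mem_filter] at hx
  rw [mem_filter, hA, mem_filter]
  exact ⟨⟨hx.1, (Dvd.intro_left p rfl).trans hx.2⟩, (Dvd.intro q rfl).trans hx.2⟩

theorem massUp_ms (k x : ℕ) (hx : x ≠ 0) :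
    ms k x ≤ Real.log x - ∑ p ∈ x.primeFactors.filter (fun p : ℕ => ¬ ((k : ℝ) < (p : ℝ))), Real.log p := by
  have h1 := sum_log_primeFactors_le hx
  have h2 := sum_filter_add_sum_filter_not x.primeFactors (fun p : ℕ => (k : ℝ) < (p : ℝ))
    (fun p : ℕ => Real.log (p : ℝ))
  unfold ms big
  linarith

theorem mass_upper (ε : ℝ) (hε : 0 < ε) : ∃ C : ℝ, 0 < C ∧ ∃ n0 : ℕ, ∀ n : ℕ, n0 ≤ n → ∀ k q : ℕ, q.Prime →
    (n : ℝ) ^ (1 / 2 + ε) ≤ k → k ≤ n →
    ∑ x ∈ (Icc (n + 1) (n + k)).filter (fun x => q ∣ x), ms k x ≤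
      (k : ℝ) / q * (Real.log n - Real.log k) + C * k := by
  obtain ⟨C0, hC0, hmert⟩ := mertens
  -- `log (2n) ≤ sqrt n` for large `n`
  have hev : ∀ᶠ n : ℕ in Filter.atTop, Real.log (2 * n) ≤ (n : ℝ) ^ (1 / 2 : ℝ) := by
    have h1 : Filter.Tendsto (fun x : ℝ => Real.log x / x ^ (1 / 4 : ℝ)) Filter.atTop (nhds 0) :=
      (isLittleO_log_rpow_atTop (by norm_num)).tendsto_div_nhds_zero
    have h2 : ∀ᶠ x : ℝ in Filter.atTop, Real.log x / x ^ (1 / 4 : ℝ) < 1 :=
      h1.eventually (gt_mem_nhds one_pos)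
    have h3 : Filter.Tendsto (fun n : ℕ => 2 * (n : ℝ)) Filter.atTop Filter.atTop :=
      tendsto_natCast_atTop_atTop.const_mul_atTop (by norm_num)
    filter_upwards [h3.eventually h2, Filter.eventually_ge_atTop 2] with n hn hn2
    have hn2' : (2 : ℝ) ≤ n := by exact_mod_cast hn2
    have h4 : (0 : ℝ) < (2 * n) ^ (1 / 4 : ℝ) := by positivity
    rw [div_lt_one h4] at hn
    refine hn.le.trans ?_
    calc (2 * (n : ℝ)) ^ (1 / 4 : ℝ) ≤ ((n : ℝ) ^ (2 : ℝ)) ^ (1 / 4 : ℝ) := by
          refine Real.rpow_le_rpow (by positivity) ?_ (by norm_num)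
          rw [Real.rpow_two]
          nlinarith
      _ = (n : ℝ) ^ (1 / 2 : ℝ) := by
          rw [← Real.rpow_mul (by positivity)]
          norm_num
  obtain ⟨n0, hn0⟩ := Filter.eventually_atTop.1 hev
  refine ⟨C0 + 10, by linarith, max n0 2, ?_⟩
  intro n hn k q hq hnk hkn
  have hn0' : n0 ≤ n := (le_max_left _ _).trans hn
  have hn2 : 2 ≤ n := (le_max_right _ _).trans hn
  have hn2' : (2 : ℝ) ≤ n := by exact_mod_cast hn2
  have hL0 : Real.log (2 * n) ≤ (n : ℝ) ^ (1 / 2 : ℝ) := hn0 n hn0'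
  have hL : Real.log (2 * n) ≤ k := by
    refine hL0.trans (le_trans ?_ hnk)
    exact Real.rpow_le_rpow_of_exponent_le (by linarith) (by linarith)
  have hk0 : (0 : ℝ) < k := lt_of_lt_of_le (by positivity) hnk
  have hk1 : 1 ≤ k := by
    have : (0 : ℝ) < (k : ℝ) := hk0
    exact_mod_cast this
  have hlogk : Real.log k ≤ Real.log n := Real.log_le_log hk0 (by exact_mod_cast hkn)
  have hq0 : (0 : ℝ) < q := by exact_mod_cast hq.pos
  have hq1 : (1 : ℝ) ≤ q := by exact_mod_cast hq.one_lt.le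
  have hxlog : ∀ x ∈ (Icc (n + 1) (n + k)).filter (fun x => q ∣ x), x ≠ 0 ∧ Real.log x ≤ Real.log (2 * n) := by
    intro x hx
    rw [mem_filter, mem_Icc] at hx
    refine ⟨by omega, Real.log_le_log ?_ ?_⟩
    · have : 0 < x := by omega
      exact_mod_cast this
    · have : x ≤ 2 * n := by omega
      exact_mod_cast this
  have hfirst : 0 ≤ (k : ℝ) / q * (Real.log n - Real.log k) :=
    mul_nonneg (by positivity) (by linarith)
  rcases lt_or_ge k q with hkq | hqk
  · -- at most one multiple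
    have hcard : ((Icc (n + 1) (n + k)).filter (fun x => q ∣ x)).card ≤ 1 := by
      rw [card_le_one]
      intro x hx y hy
      rw [mem_filter] at hx hy
      exact multiple_unique hkq.le hx.1 hy.1 hx.2 hy.2
    have h1 : ∑ x ∈ (Icc (n + 1) (n + k)).filter (fun x => q ∣ x), ms k x ≤
        ∑ x ∈ (Icc (n + 1) (n + k)).filter (fun x => q ∣ x), Real.log (2 * n) :=
      sum_le_sum fun x hx => (ms_le_log (hxlog x hx).1).trans (hxlog x hx).2
    rw [sum_const, nsmul_eq_mul] at h1
    have h2 : ((((Icc (n + 1) (n + k)).filter (fun x => q ∣ x)).card : ℕ) : ℝ) ≤ 1 := by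
      exact_mod_cast hcard
    have h3 : 0 ≤ Real.log (2 * n) := Real.log_nonneg (by linarith)
    nlinarith
  · -- many multiples
    set Q := k / q with hQ
    have hQ1 : 1 ≤ Q := (Nat.one_le_div_iff hq.pos).2 hqk
    have hQle : (Q : ℝ) ≤ k / q := Nat.cast_div_le
    have hQge : (k : ℝ) / q / 2 ≤ Q := by
      have h3 : k < Q * q + q := Nat.lt_div_mul_add hq.pos
      have h4 : (k : ℝ) < (Q : ℝ) * q + q := by exact_mod_cast h3
      have h5 : (1 : ℝ) ≤ Q := by exact_mod_cast hQ1
      rw [div_div, div_le_iff₀ (by positivity)]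
      nlinarith
    have hmain := massUp_low n k q hq
    rw [← hQ] at hmain
    set A := (Icc (n + 1) (n + k)).filter (fun x => q ∣ x) with hA
    have h1 : ∑ x ∈ A, ms k x ≤ (A.card : ℝ) * Real.log (2 * n) -
        ∑ x ∈ A, ∑ p ∈ x.primeFactors.filter (fun p : ℕ => ¬ ((k : ℝ) < (p : ℝ))), Real.log p := by
      rw [← nsmul_eq_mul, ← sum_const, ← sum_sub_distrib]
      refine sum_le_sum fun x hx => ?_
      have := massUp_ms k x (hxlog x hx).1
      have := (hxlog x hx).2
      linarith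
    have hcard : (A.card : ℝ) ≤ k / q + 1 := by
      have h2 := card_multiples_le (v := q) n k hq.pos
      rw [← hA] at h2
      have h3 : (A.card : ℝ) ≤ (Q : ℝ) + 1 := by exact_mod_cast h2
      linarith
    -- the lower bound
    have hlow : (k : ℝ) / q * (Real.log Q - C0) - (k : ℝ) / q * (Real.log q / q) - 2 * (k / q) ≤
        ∑ p ∈ ((Icc 1 Q).filter Nat.Prime).filter (fun p => p ≠ q),
          Real.log p * ((k : ℝ) / (p * q : ℕ) - 1) := by
      have e1 : ∀ p ∈ (Icc 1 Q).filter Nat.Prime,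
          Real.log p * ((k : ℝ) / (p * q : ℕ) - 1) = (k : ℝ) / q * (Real.log p / p) - Real.log p := by
        intro p hp
        rw [mem_filter, mem_Icc] at hp
        have hp0 : (p : ℝ) ≠ 0 := by
          have : p ≠ 0 := by omega
          exact_mod_cast this
        push_cast
        field_simp
      have e2 : ∑ p ∈ (Icc 1 Q).filter Nat.Prime, Real.log p * ((k : ℝ) / (p * q : ℕ) - 1) =
          (k : ℝ) / q * ∑ p ∈ (Icc 1 Q).filter Nat.Prime, Real.log p / p -
            ∑ p ∈ (Icc 1 Q).filter Nat.Prime, Real.log p := by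
        rw [sum_congr rfl e1, sum_sub_distrib, mul_sum]
      have e3 := hmert Q hQ1
      rw [abs_le] at e3
      have e4 := cheb_theta Q
      have e5 := sum_filter_add_sum_filter_not ((Icc 1 Q).filter Nat.Prime) (fun p => p ≠ q)
        (fun p : ℕ => Real.log p * ((k : ℝ) / (p * q : ℕ) - 1))
      have e6 : ∑ p ∈ ((Icc 1 Q).filter Nat.Prime).filter (fun p => ¬ (p ≠ q)),
          Real.log p * ((k : ℝ) / (p * q : ℕ) - 1) ≤ (k : ℝ) / q * (Real.log q / q) := by
        have e7 : ∀ p ∈ ((Icc 1 Q).filter Nat.Prime).filter (fun p => ¬ (p ≠ q)),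
            Real.log p * ((k : ℝ) / (p * q : ℕ) - 1) ≤ (k : ℝ) / q * (Real.log q / q) := by
          intro p hp
          rw [mem_filter] at hp
          have hpq : p = q := not_not.1 hp.2
          rw [e1 p hp.1, hpq]
          have := Real.log_natCast_nonneg q
          linarith
        refine (sum_le_card_nsmul _ _ _ e7).trans ?_
        rw [nsmul_eq_mul]
        have e8 : (((Icc 1 Q).filter Nat.Prime).filter (fun p => ¬ (p ≠ q))).card ≤ 1 := by
          rw [card_le_one]
          intro x hx y hy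
          rw [mem_filter] at hx hy
          rw [not_not.1 hx.2, not_not.1 hy.2]
        have e9 : ((((Icc 1 Q).filter Nat.Prime).filter (fun p => ¬ (p ≠ q))).card : ℝ) ≤ 1 := by
          exact_mod_cast e8
        have e10 : 0 ≤ (k : ℝ) / q * (Real.log q / q) :=
          mul_nonneg (by positivity) (div_nonneg (Real.log_natCast_nonneg q) hq0.le)
        nlinarith
      have e7 : (k : ℝ) / q * (Real.log Q - C0) ≤
          (k : ℝ) / q * ∑ p ∈ (Icc 1 Q).filter Nat.Prime, Real.log p / p :=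
        mul_le_mul_of_nonneg_left (by linarith) (by positivity)
      linarith
    have hlogQ : Real.log k - Real.log q - Real.log 2 ≤ Real.log Q := by
      rw [← Real.log_div hk0.ne' hq0.ne', ← Real.log_div (by positivity) (by norm_num)]
      exact Real.log_le_log (by positivity) hQge
    have hlogq : Real.log q ≤ q := (Real.log_le_sub_one_of_pos hq0).trans (by linarith)
    have hlog2 : Real.log 2 ≤ 1 := (Real.log_le_sub_one_of_pos (by norm_num)).trans (by norm_num)
    have hlog2n : Real.log (2 * n) = Real.log 2 + Real.log n :=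
      Real.log_mul (by norm_num) (by linarith)
    have hkq : (k : ℝ) / q ≤ k := div_le_self hk0.le hq1
    have hkq0 : (0 : ℝ) < k / q := by positivity
    have f1 : (k : ℝ) / q * Real.log q ≤ k := by
      calc (k : ℝ) / q * Real.log q ≤ (k : ℝ) / q * q := mul_le_mul_of_nonneg_left hlogq hkq0.le
        _ = k := by field_simp
    have f2 : (k : ℝ) / q * (Real.log q / q) ≤ k := by
      calc (k : ℝ) / q * (Real.log q / q) ≤ (k : ℝ) / q * 1 :=
            mul_le_mul_of_nonneg_left ((div_le_one hq0).2 hlogq) hkq0.le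
        _ ≤ k := by linarith
    have f3 : (k : ℝ) / q * (Real.log k - Real.log q - Real.log 2) ≤ (k : ℝ) / q * Real.log Q :=
      mul_le_mul_of_nonneg_left hlogQ hkq0.le
    have f4 : (A.card : ℝ) * Real.log (2 * n) ≤ (k / q + 1) * Real.log (2 * n) :=
      mul_le_mul_of_nonneg_right hcard (Real.log_nonneg (by linarith))
    have f5 : (k : ℝ) / q * Real.log 2 ≤ k := by nlinarith
    have f6 : (k : ℝ) / q * C0 ≤ C0 * k := by nlinarith
    have f7 : (k / q + 1) * Real.log (2 * n) =
        (k : ℝ) / q * Real.log n + (k : ℝ) / q * Real.log 2 + Real.log (2 * n) := by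
      rw [hlog2n]; ring
    nlinarith

end Pool.Agent.H3.LC
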