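import Pool.Agent.H3.LC.Defs

/-!
# LC Spacing: rationals with bounded denominators in a short interval

Two distinct rationals `f < g` satisfy `g - f ≥ 1 / (den f * den g)`.  Let `F` be finite with all denominators `≤ Z`.
Claim (induction on the cardinality, removing the minimum, e.g. `Finset.induction_on_min`):
 `∑_{f ∈ F, f ≠ max F} 1 / den f ≤ Z (max F - min F)`: the new minimum `a` and the old minimum `b` satisfy
 `1 / den a ≤ Z (b - a)` since `den b ≤ Z`.
If `F` has at least two elements also `1 / den (max F) ≤ Z (max F - min F)` (compare `max F` and `min F`).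
So `∑_{f ∈ F} 1 / den f ≤ 2 Z l`.  Since `1 / Z ≤ 1 / den f`, this gives `card F / Z ≤ 2 Z l`.
-/

set_option autoImplicit false

open Finset

namespace Pool.Agent.H3.LC

theorem spacing_gap {f g : ℚ} (h : f < g) :
    1 ≤ ((g : ℝ) - (f : ℝ)) * ((f.den : ℝ) * (g.den : ℝ)) := by
  have hfd : (0 : ℚ) < f.den := by exact_mod_cast f.den_pos
  have hgd : (0 : ℚ) < g.den := by exact_mod_cast g.den_pos
  have h1 : (g - f) * ((f.den : ℚ) * (g.den : ℚ)) = ((g.num * f.den - f.num * g.den : ℤ) : ℚ) := by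
    have hf : f * f.den = f.num := Rat.mul_den_eq_num f
    have hg : g * g.den = g.num := Rat.mul_den_eq_num g
    push_cast
    rw [← hf, ← hg]
    ring
  have h2 : 0 < (g - f) * ((f.den : ℚ) * (g.den : ℚ)) := by
    have : 0 < g - f := sub_pos.2 h
    positivity
  rw [h1] at h2
  have h3 : (1 : ℤ) ≤ g.num * f.den - f.num * g.den := by
    have : (0 : ℤ) < g.num * f.den - f.num * g.den := by exact_mod_cast h2
    omega
  have h4 : (1 : ℚ) ≤ (g - f) * ((f.den : ℚ) * (g.den : ℚ)) := by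
    rw [h1]
    exact_mod_cast h3
  exact_mod_cast h4

theorem spacing_left {f g : ℚ} {Z : ℝ} (h : f < g) (hZ : (g.den : ℝ) ≤ Z) :
    1 / (f.den : ℝ) ≤ Z * ((g : ℝ) - f) := by
  have hfd : (0 : ℝ) < f.den := by exact_mod_cast f.den_pos
  have hgf : (0 : ℝ) < (g : ℝ) - f := sub_pos.2 (by exact_mod_cast h)
  rw [div_le_iff₀ hfd]
  have h1 := spacing_gap h
  have h2 : ((g : ℝ) - f) * ((f.den : ℝ) * (g.den : ℝ)) ≤ ((g : ℝ) - f) * ((f.den : ℝ) * Z) :=
    mul_le_mul_of_nonneg_left (mul_le_mul_of_nonneg_left hZ hfd.le) hgf.le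
  linarith [show Z * ((g : ℝ) - f) * f.den = ((g : ℝ) - f) * ((f.den : ℝ) * Z) by ring]

theorem spacing_right {f g : ℚ} {Z : ℝ} (h : f < g) (hZ : (f.den : ℝ) ≤ Z) :
    1 / (g.den : ℝ) ≤ Z * ((g : ℝ) - f) := by
  have hfd : (0 : ℝ) < g.den := by exact_mod_cast g.den_pos
  have hgf : (0 : ℝ) < (g : ℝ) - f := sub_pos.2 (by exact_mod_cast h)
  rw [div_le_iff₀ hfd]
  have h1 := spacing_gap h
  have h2 : ((g : ℝ) - f) * ((f.den : ℝ) * (g.den : ℝ)) ≤ ((g : ℝ) - f) * (Z * (g.den : ℝ)) :=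
    mul_le_mul_of_nonneg_left (mul_le_mul_of_nonneg_right hZ hfd.le) hgf.le
  linarith [show Z * ((g : ℝ) - f) * g.den = ((g : ℝ) - f) * (Z * (g.den : ℝ)) by ring]

theorem spacing_ind {a Z : ℝ} (hZ0 : 0 ≤ Z) (F : Finset ℚ) :
    (∀ f ∈ F, a ≤ (f : ℝ)) → (∀ f ∈ F, (f.den : ℝ) ≤ Z) →
      ∀ M ∈ F, (∀ f ∈ F, f ≤ M) → ∑ f ∈ F.erase M, 1 / (f.den : ℝ) ≤ Z * ((M : ℝ) - a) := by
  induction F using Finset.induction_on_max with
  | empty => intro _ _ M hM; simp at hM
  | insert x F hx ih =>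
    intro ha hZ M hM hmax
    have hxF : x ∉ F := fun h => lt_irrefl _ (hx x h)
    have hMx : M = x := by
      rcases mem_insert.1 hM with h | h
      · exact h
      · exact absurd (hmax x (mem_insert_self x F)) (not_le.2 (hx M h))
    subst hMx
    rw [erase_insert hxF]
    rcases F.eq_empty_or_nonempty with h0 | hne
    · rw [h0, sum_empty]
      exact mul_nonneg hZ0 (sub_nonneg.2 (ha M (mem_insert_self M F)))
    · have hm := F.max'_mem hne
      have h1 := ih (fun f hf => ha f (mem_insert_of_mem hf)) (fun f hf => hZ f (mem_insert_of_mem hf))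
        (F.max' hne) hm (fun f hf => F.le_max' f hf)
      rw [← add_sum_erase F _ hm]
      have h2 := spacing_left (hx _ hm) (hZ M (mem_insert_self M F))
      nlinarith [h1, h2]

theorem spacing {F : Finset ℚ} {a l Z : ℝ} (hF : ∀ f ∈ F, a ≤ (f : ℝ) ∧ (f : ℝ) ≤ a + l)
    (hZ : ∀ f ∈ F, (f.den : ℝ) ≤ Z) (h2 : 2 ≤ F.card) :
    ∑ f ∈ F, 1 / (f.den : ℝ) ≤ 2 * Z * l ∧ (F.card : ℝ) ≤ 2 * Z ^ 2 * l := by
  have hne : F.Nonempty := card_pos.1 (by omega)
  have hM := F.max'_mem hne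
  have hm := F.min'_mem hne
  have hlt : F.min' hne < F.max' hne := F.min'_lt_max'_of_card (by omega)
  have hZ1 : 1 ≤ Z := by
    refine le_trans ?_ (hZ _ hM)
    exact_mod_cast (F.max' hne).den_pos
  have hZ0 : 0 ≤ Z := by linarith
  have h3 := spacing_ind hZ0 F (fun f hf => (hF f hf).1) hZ _ hM (fun f hf => F.le_max' f hf)
  have h4 := spacing_right hlt (hZ _ hm)
  have h5 : ((F.max' hne : ℚ) : ℝ) - a ≤ l := by linarith [(hF _ hM).2]
  have h6 : ((F.max' hne : ℚ) : ℝ) - (F.min' hne : ℚ) ≤ l := by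
    linarith [(hF _ hM).2, (hF _ hm).1]
  have hS : ∑ f ∈ F, 1 / (f.den : ℝ) ≤ 2 * Z * l := by
    rw [← add_sum_erase F _ hM]
    have h7 := mul_le_mul_of_nonneg_left h5 hZ0
    have h8 := mul_le_mul_of_nonneg_left h6 hZ0
    linarith
  refine ⟨hS, ?_⟩
  have h9 : (F.card : ℝ) * (1 / Z) ≤ ∑ f ∈ F, 1 / (f.den : ℝ) := by
    rw [← nsmul_eq_mul]
    refine card_nsmul_le_sum F _ _ fun f hf => ?_
    refine one_div_le_one_div_of_le ?_ (hZ f hf)
    exact_mod_cast f.den_pos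
  have h10 : (F.card : ℝ) * (1 / Z) ≤ 2 * Z * l := le_trans h9 hS
  have hZpos : 0 < Z := by linarith
  have h11 := mul_le_mul_of_nonneg_right h10 hZ0
  have h12 : (F.card : ℝ) * (1 / Z) * Z = F.card := by field_simp
  rw [h12] at h11
  linarith [show 2 * Z * l * Z = 2 * Z ^ 2 * l by ring]

end Pool.Agent.H3.LC
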