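import Pool.Agent.H3.LC.Frac
import Pool.Agent.H3.LC.Spacing
import Pool.Agent.H3.LC.BT

/-!
# LC NonMain: almost all the mass above `k` has one ratio

`n ≥ n0(ε)`, `n^(1/2+ε) ≤ k ≤ n`, `Sol n k m`.  Take `F` from `exists_frac` with `T = k`, `R` = image of `E k n k` under `F`, `Z := 2n/k`,
`l := 257 k/n` (so `Z l = 514`).  For `x ∈ E`: `(F x).den * p ∣ x` with a prime `p > k`, so `x = v c p`, `v = (F x).den`, `v c ≤ 2n/k = Z`.
If `R` is empty take `S = ∅`.  Otherwise let `f* ∈ R` have minimal denominator, `r = f*`, `S = {x ∈ E : F x = f*}` (then `y = r x`).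
For `f ∈ R`, `f ≠ f*`, `v = f.den`: `#{x ∈ E : F x = f} ≤ ∑_{1 ≤ c ≤ Z/v} #{p prime : v c p ∈ (n, n+k]}`; these `p` lie in an interval of
`⌊k/(vc)⌋ + 1 ≥ 2` integers, so by `brun_titchmarsh` their number is `≤ C (⌊k/(vc)⌋+1)/log(⌊k/(vc)⌋+1) ≤ 2 C (k/(vc)) / (ε log n)`, because
`k/(vc) ≥ k/Z = k²/(2n) ≥ n^(2ε)/2 ≥ n^ε` (`t ↦ t / log t` is increasing for `t ≥ e`).  Sum over `f ≠ f*`:
`≤ (2 C k / (ε log n)) ∑_{f ≠ f*} (1/v_f) ∑_{c ≤ Z/v_f} 1/c = (2 C k/(ε log n)) ∑_{c ≤ Z} (1/c) ∑_{f ≠ f*, v_f ≤ Z/c} 1/v_f`.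
If some `f ≠ f*` has `v_f ≤ Z/c` then also `f*` has, so `{f ∈ R : v_f ≤ Z/c}` has at least two elements and `spacing` gives
`∑_{f ≠ f*, v_f ≤ Z/c} 1/v_f ≤ 2 (Z/c) l`.  Total number of elements `≤ (2 C k/(ε log n)) · 2 Z l · ∑ 1/c² ≤ C' k / log n`,
and each has mass `≤ log(2n) ≤ 2 log n` (`ms_le_log`).
-/

set_option autoImplicit false

open Finset

namespace Pool.Agent.H3.LC

theorem nonmain_sum_sq (N : ℕ) : ∑ c ∈ Icc 1 N, 1 / (c : ℝ) ^ 2 ≤ 2 - 1 / (N : ℝ) := by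
  induction N with
  | zero => simp
  | succ N ih =>
    rw [Finset.sum_Icc_succ_top (by omega)]
    rcases Nat.eq_zero_or_pos N with h | h
    · subst h; norm_num
    · have hN : (0 : ℝ) < N := by exact_mod_cast h
      have h2 : 1 / ((N : ℝ) + 1) ^ 2 ≤ 1 / (N : ℝ) - 1 / ((N : ℝ) + 1) := by
        rw [div_sub_div _ _ hN.ne' (by positivity), div_le_div_iff₀ (by positivity) (by positivity)]
        nlinarith
      push_cast
      linarith

theorem nonmain_sum_sq_le (N : ℕ) : ∑ c ∈ Icc 1 N, 1 / (c : ℝ) ^ 2 ≤ 2 := by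
  have h := nonmain_sum_sq N
  have h2 : (0 : ℝ) ≤ 1 / (N : ℝ) := by positivity
  linarith

/-- the interval of primes -/
noncomputable def nonmainP (n k w : ℕ) : Finset ℕ := (Icc (n / w + 1) (n / w + (k / w + 1))).filter Nat.Prime

theorem nonmain_mem {n k w p : ℕ} (hw : 0 < w) (hp : p.Prime) (h1 : n < w * p) (h2 : w * p ≤ n + k) :
    p ∈ nonmainP n k w := by
  rw [nonmainP, mem_filter, mem_Icc]
  refine ⟨⟨?_, ?_⟩, hp⟩
  · have : n / w < p := by
      rw [Nat.div_lt_iff_lt_mul hw]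
      rwa [mul_comm] at h1
    omega
  · have h3 : p ≤ (n + k) / w := by
      rw [Nat.le_div_iff_mul_le hw]
      rwa [mul_comm] at h2
    have h4 : (n + k) / w ≤ n / w + (k / w + 1) := by
      rw [← Nat.lt_add_one_iff, Nat.div_lt_iff_lt_mul hw]
      have h5 := Nat.div_add_mod n w
      have h6 := Nat.div_add_mod k w
      have h7 := Nat.mod_lt n hw
      have h8 := Nat.mod_lt k hw
      nlinarith
    exact h3.trans h4

theorem nonmain_card {C : ℝ} (hC : 0 < C) (hBT : ∀ x y : ℕ, 2 ≤ y →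
    (((Icc (x + 1) (x + y)).filter Nat.Prime).card : ℝ) ≤ C * y / Real.log y) {n k w : ℕ} {L : ℝ} (hL : 0 < L)
    (hw : 0 < w) (hLk : L ≤ Real.log ((k : ℝ) / w)) :
    ((nonmainP n k w).card : ℝ) ≤ 2 * C * k / L * (1 / (w : ℝ)) := by
  have hwR : (0 : ℝ) < w := by exact_mod_cast hw
  have ht0 : (0 : ℝ) ≤ (k : ℝ) / w := by positivity
  have ht1 : 1 < (k : ℝ) / w := by
    by_contra h
    rw [not_lt] at h
    have := Real.log_nonpos ht0 h
    linarith
  have hk : w ≤ k := by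
    rw [lt_div_iff₀ hwR, one_mul] at ht1
    exact_mod_cast ht1.le
  have hkw : 1 ≤ k / w := (Nat.one_le_div_iff hw).2 hk
  have h1 := hBT (n / w) (k / w + 1) (by omega)
  rw [nonmainP]
  refine h1.trans ?_
  have h2 : ((k / w + 1 : ℕ) : ℝ) ≤ 2 * ((k : ℝ) / w) := by
    push_cast
    have := Nat.cast_div_le (α := ℝ) (m := k) (n := w)
    linarith
  have h3 : (k : ℝ) / w ≤ ((k / w + 1 : ℕ) : ℝ) := by
    rw [div_le_iff₀ hwR]
    have h6 := Nat.div_add_mod k w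
    have h8 := Nat.mod_lt k hw
    have : k ≤ (k / w + 1) * w := by nlinarith
    exact_mod_cast this
  have h4 : L ≤ Real.log ((k / w + 1 : ℕ) : ℝ) := hLk.trans (Real.log_le_log (by linarith) h3)
  calc C * ((k / w + 1 : ℕ) : ℝ) / Real.log ((k / w + 1 : ℕ) : ℝ) ≤ C * (2 * ((k : ℝ) / w)) / L := by
        gcongr
    _ = 2 * C * k / L * (1 / (w : ℝ)) := by ring

theorem nonmain_inner {R : Finset ℚ} {f0 : ℚ} (hf0 : f0 ∈ R) (hmin : ∀ f ∈ R, f0.den ≤ f.den) {a l Z : ℝ}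
    (hl : 0 ≤ l) (hZ0 : 0 ≤ Z) (hR : ∀ f ∈ R, a ≤ (f : ℝ) ∧ (f : ℝ) ≤ a + l) (c : ℕ) (hc : 0 < c) :
    ∑ f ∈ (R.erase f0).filter (fun f => ((f.den * c : ℕ) : ℝ) ≤ Z), 1 / (f.den : ℝ) ≤ 2 * (Z / c) * l := by
  have hcR : (0 : ℝ) < c := by exact_mod_cast hc
  rcases ((R.erase f0).filter (fun f => ((f.den * c : ℕ) : ℝ) ≤ Z)).eq_empty_or_nonempty with h | ⟨f1, hf1⟩
  · rw [h, sum_empty]
    positivity
  · rw [mem_filter, mem_erase] at hf1
    have hf1Z : ((f1.den : ℝ)) ≤ Z / c := by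
      rw [le_div_iff₀ hcR]
      exact_mod_cast hf1.2
    have hf0Z : ((f0.den : ℝ)) ≤ Z / c := le_trans (by exact_mod_cast hmin f1 hf1.1.2) hf1Z
    have hsp := spacing (F := R.filter (fun f => ((f.den : ℝ)) ≤ Z / c)) (a := a) (l := l) (Z := Z / c)
      (fun f hf => hR f (mem_filter.1 hf).1) (fun f hf => (mem_filter.1 hf).2) (by
        refine Finset.one_lt_card.2 ⟨f1, ?_, f0, ?_, hf1.1.1⟩
        · exact mem_filter.2 ⟨hf1.1.2, hf1Z⟩
        · exact mem_filter.2 ⟨hf0, hf0Z⟩)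
    refine le_trans (sum_le_sum_of_subset_of_nonneg ?_ fun f _ _ => by positivity) hsp.1
    intro f hf
    rw [mem_filter, mem_erase] at hf
    refine mem_filter.2 ⟨hf.1.2, ?_⟩
    rw [le_div_iff₀ hcR]
    exact_mod_cast hf.2

theorem non_main (ε : ℝ) (hε : 0 < ε) : ∃ C : ℝ, 0 < C ∧ ∃ n0 : ℕ, ∀ n : ℕ, n0 ≤ n → ∀ k m : ℕ,
    (n : ℝ) ^ (1 / 2 + ε) ≤ k → k ≤ n → Sol n k m →
    ∃ r : ℚ, ∃ S : Finset ℕ, S ⊆ E k n k ∧ (∀ x ∈ S, ∃ y ∈ Icc (m + 1) (m + k), (y : ℚ) = r * (x : ℚ)) ∧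
      ∑ x ∈ E k n k \ S, ms k x ≤ C * k := by
  classical
  obtain ⟨C, hC, hBT⟩ := brun_titchmarsh
  obtain ⟨n0, hn0⟩ : ∃ n0 : ℕ, ∀ n : ℕ, n0 ≤ n → 2 ≤ (n : ℝ) ^ ε := by
    have h1 := (tendsto_rpow_atTop hε).comp (tendsto_natCast_atTop_atTop (R := ℝ))
    exact Filter.eventually_atTop.1 (h1.eventually_ge_atTop 2)
  refine ⟨8224 * C / ε, by positivity, max n0 2, fun n hn k m hk hkn hsol => ?_⟩
  have hn2 : 2 ≤ n := le_trans (le_max_right _ _) hn
  have hnε := hn0 n (le_trans (le_max_left _ _) hn)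
  have hnR : (2 : ℝ) ≤ n := by exact_mod_cast hn2
  have hn0R : (0 : ℝ) < n := by linarith
  have hk0 : 0 < k := hsol.1
  have hkR : (0 : ℝ) < k := by exact_mod_cast hk0
  obtain ⟨F, hF⟩ := exists_frac hsol (le_refl (k : ℝ))
  rcases (E k n k).eq_empty_or_nonempty with hE | ⟨x0, hx0⟩
  · refine ⟨0, ∅, empty_subset _, fun x hx => absurd hx (notMem_empty x), ?_⟩
    rw [hE, empty_sdiff, sum_empty]
    positivity
  set R := (E k n k).image F with hRdef
  obtain ⟨f0, hf0, hmin⟩ := exists_min_image R (fun f => f.den) ⟨F x0, mem_image_of_mem F hx0⟩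
  -- the mass of one element
  have hmem : ∀ x ∈ E k n k, n + 1 ≤ x ∧ x ≤ n + k := by
    intro x hx
    exact mem_Icc.1 (mem_filter.1 hx).1
  have hlogn : 0 < Real.log n := Real.log_pos (by linarith)
  have hms : ∀ x ∈ E k n k, ms k x ≤ 2 * Real.log n := by
    intro x hx
    obtain ⟨h1, h2⟩ := hmem x hx
    refine (ms_le_log (by omega)).trans ?_
    have h3 : (x : ℝ) ≤ (n : ℝ) ^ 2 := by
      have : x ≤ n ^ 2 := by nlinarith
      exact_mod_cast this
    have h4 := Real.log_le_log (by exact_mod_cast (by omega : 0 < x)) h3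
    rw [Real.log_pow] at h4
    exact_mod_cast h4
  refine ⟨f0, (E k n k).filter (fun x => F x = f0), filter_subset _ _, ?_, ?_⟩
  · intro x hx
    rw [mem_filter] at hx
    obtain ⟨y, hy, p, hp, hkp, hpx, hpy, hFx, hden⟩ := hF x hx.1
    refine ⟨y, hy, ?_⟩
    have hx0 : (x : ℚ) ≠ 0 := by
      have := hmem x hx.1
      exact_mod_cast (by omega : x ≠ 0)
    rw [← hx.2, hFx]
    field_simp
  -- constants
  set Z' : ℕ := 2 * n / k with hZ'
  set Z : ℝ := 2 * n / k with hZ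
  set l : ℝ := 257 * (k : ℝ) / n with hl
  have hZl : Z * l = 514 := by
    rw [hZ, hl]
    field_simp
    norm_num
  have hl0 : 0 ≤ l := by positivity
  have hZ0 : 0 ≤ Z := by positivity
  have hZZ : (Z' : ℝ) ≤ Z := by
    rw [hZ', hZ]
    have := Nat.cast_div_le (α := ℝ) (m := 2 * n) (n := k)
    push_cast at this
    exact this
  have hint : ∀ f ∈ R, ((m : ℝ) + 1) / ((n : ℝ) + k) ≤ (f : ℝ) ∧
      (f : ℝ) ≤ ((m : ℝ) + 1) / ((n : ℝ) + k) + l := by
    intro f hf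
    obtain ⟨x, hx, rfl⟩ := mem_image.1 hf
    obtain ⟨y, hy, p, hp, hkp, hpx, hpy, hFx, hden⟩ := hF x hx
    rw [hFx]
    push_cast
    exact frac_interval (by omega) hsol (mem_filter.1 hx).1 hy
  -- the covering
  have hcover : E k n k \ (E k n k).filter (fun x => F x = f0) ⊆
      (Icc 1 Z').biUnion fun c => ((R.erase f0).filter (fun f => ((f.den * c : ℕ) : ℝ) ≤ Z)).biUnion fun f =>
        (nonmainP n k (f.den * c)).image (fun p => f.den * c * p) := by
    intro x hx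
    rw [mem_sdiff, mem_filter, not_and] at hx
    obtain ⟨hxE, hxf⟩ := hx
    have hxf' := hxf hxE
    obtain ⟨y, hy, p, hp, hkp, hpx, hpy, hFx, hden⟩ := hF x hxE
    obtain ⟨c, hc⟩ := hden
    obtain ⟨h1, h2⟩ := hmem x hxE
    have hkp' : k < p := by exact_mod_cast hkp
    have hc0 : 0 < c := by
      rcases Nat.eq_zero_or_pos c with h | h
      · rw [h, mul_zero] at hc; omega
      · exact h
    have hd0 : 0 < (F x).den := (F x).den_pos
    have hxw : x = (F x).den * c * p := by rw [mul_right_comm]; exact hc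
    have hwZ : (F x).den * c ≤ Z' := by
      rw [hZ', Nat.le_div_iff_mul_le hk0]
      calc (F x).den * c * k ≤ (F x).den * c * p := Nat.mul_le_mul_left _ hkp'.le
        _ = x := hxw.symm
        _ ≤ 2 * n := by omega
    have hcZ : c ≤ Z' := le_trans (Nat.le_mul_of_pos_left c hd0) hwZ
    rw [mem_biUnion]
    refine ⟨c, mem_Icc.2 ⟨hc0, hcZ⟩, ?_⟩
    rw [mem_biUnion]
    refine ⟨F x, mem_filter.2 ⟨mem_erase.2 ⟨hxf', mem_image_of_mem F hxE⟩, ?_⟩, ?_⟩
    · exact le_trans (by exact_mod_cast hwZ) hZZ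
    · rw [mem_image]
      refine ⟨p, nonmain_mem (Nat.mul_pos hd0 hc0) hp ?_ ?_, hxw.symm⟩
      · rw [← hxw]; omega
      · rw [← hxw]; exact h2
  -- the logarithm
  have hL : 0 < ε * Real.log n := by positivity
  have hkw : ∀ w : ℕ, 0 < w → (w : ℝ) ≤ Z → ε * Real.log n ≤ Real.log ((k : ℝ) / w) := by
    intro w hw hwZ
    have hwR : (0 : ℝ) < w := by exact_mod_cast hw
    have h1 : (n : ℝ) ^ ε ≤ (k : ℝ) / w := by
      have h2 : (k : ℝ) / Z ≤ (k : ℝ) / w := by gcongr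
      refine le_trans ?_ h2
      rw [hZ]
      have h3 : (k : ℝ) / (2 * n / k) = (k : ℝ) ^ 2 / (2 * n) := by
        field_simp
      rw [h3, le_div_iff₀ (by positivity)]
      have h4 : ((n : ℝ) ^ (1 / 2 + ε)) ^ 2 ≤ (k : ℝ) ^ 2 := by
        have : (0 : ℝ) ≤ (n : ℝ) ^ (1 / 2 + ε) := by positivity
        gcongr
      refine le_trans ?_ h4
      have h5 : ((n : ℝ) ^ (1 / 2 + ε)) ^ 2 = n * ((n : ℝ) ^ ε * (n : ℝ) ^ ε) := by
        rw [Real.rpow_add hn0R, mul_pow, ← Real.sqrt_eq_rpow, Real.sq_sqrt hn0R.le]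
        ring
      rw [h5]
      have h6 : (0 : ℝ) ≤ (n : ℝ) ^ ε := by positivity
      nlinarith [mul_nonneg h6 hn0R.le]
    have h7 := Real.log_le_log (by positivity) h1
    rwa [Real.log_rpow hn0R] at h7
  -- the number of elements
  have hcard : ((E k n k \ (E k n k).filter (fun x => F x = f0)).card : ℝ) ≤
      2 * C * k / (ε * Real.log n) * 2056 := by
    have h1 : (E k n k \ (E k n k).filter (fun x => F x = f0)).card ≤
        ∑ c ∈ Icc 1 Z', ∑ f ∈ (R.erase f0).filter (fun f => ((f.den * c : ℕ) : ℝ) ≤ Z),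
          (nonmainP n k (f.den * c)).card := by
      refine (card_le_card hcover).trans (card_biUnion_le.trans (sum_le_sum fun c _ => ?_))
      exact card_biUnion_le.trans (sum_le_sum fun f _ => card_image_le)
    have h2 : ((∑ c ∈ Icc 1 Z', ∑ f ∈ (R.erase f0).filter (fun f => ((f.den * c : ℕ) : ℝ) ≤ Z),
          (nonmainP n k (f.den * c)).card : ℕ) : ℝ) ≤
        ∑ c ∈ Icc 1 Z', ∑ f ∈ (R.erase f0).filter (fun f => ((f.den * c : ℕ) : ℝ) ≤ Z),
          2 * C * k / (ε * Real.log n) * (1 / ((f.den * c : ℕ) : ℝ)) := by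
      push_cast
      refine sum_le_sum fun c hc => sum_le_sum fun f hf => ?_
      have hc0 : 0 < c := (mem_Icc.1 hc).1
      have h3 := nonmain_card hC hBT (n := n) (k := k) (w := f.den * c) hL (Nat.mul_pos f.den_pos hc0)
        (hkw _ (Nat.mul_pos f.den_pos hc0) (by exact_mod_cast (mem_filter.1 hf).2))
      push_cast at h3
      exact h3
    have h4 : ∀ c ∈ Icc 1 Z', ∑ f ∈ (R.erase f0).filter (fun f => ((f.den * c : ℕ) : ℝ) ≤ Z),
          2 * C * k / (ε * Real.log n) * (1 / ((f.den * c : ℕ) : ℝ)) ≤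
        2 * C * k / (ε * Real.log n) * (1028 * (1 / (c : ℝ) ^ 2)) := by
      intro c hc
      have hc0 : 0 < c := (mem_Icc.1 hc).1
      have hcR : (0 : ℝ) < c := by exact_mod_cast hc0
      rw [← mul_sum]
      refine mul_le_mul_of_nonneg_left ?_ (by positivity)
      have h5 := nonmain_inner hf0 hmin hl0 hZ0 hint c hc0
      have h6 : ∑ f ∈ (R.erase f0).filter (fun f => ((f.den * c : ℕ) : ℝ) ≤ Z), 1 / ((f.den * c : ℕ) : ℝ) =
          (1 / (c : ℝ)) * ∑ f ∈ (R.erase f0).filter (fun f => ((f.den * c : ℕ) : ℝ) ≤ Z), 1 / (f.den : ℝ) := by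
        rw [mul_sum]
        refine sum_congr rfl fun f _ => ?_
        push_cast
        rw [one_div_mul_one_div, mul_comm]
      rw [h6]
      calc (1 / (c : ℝ)) * ∑ f ∈ (R.erase f0).filter (fun f => ((f.den * c : ℕ) : ℝ) ≤ Z), 1 / (f.den : ℝ)
          ≤ (1 / (c : ℝ)) * (2 * (Z / c) * l) := mul_le_mul_of_nonneg_left h5 (by positivity)
        _ = 2 * (Z * l) * (1 / (c : ℝ) ^ 2) := by field_simp
        _ = 1028 * (1 / (c : ℝ) ^ 2) := by rw [hZl]; norm_num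
    have h7 : ∑ c ∈ Icc 1 Z', 2 * C * k / (ε * Real.log n) * (1028 * (1 / (c : ℝ) ^ 2)) ≤
        2 * C * k / (ε * Real.log n) * 2056 := by
      rw [← mul_sum, ← mul_sum]
      refine mul_le_mul_of_nonneg_left ?_ (by positivity)
      have := nonmain_sum_sq_le Z'
      linarith
    calc ((E k n k \ (E k n k).filter (fun x => F x = f0)).card : ℝ) ≤ _ := by exact_mod_cast h1
      _ ≤ _ := h2
      _ ≤ _ := sum_le_sum h4
      _ ≤ _ := h7
  calc ∑ x ∈ E k n k \ (E k n k).filter (fun x => F x = f0), ms k x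
      ≤ ∑ x ∈ E k n k \ (E k n k).filter (fun x => F x = f0), 2 * Real.log n :=
        sum_le_sum fun x hx => hms x (mem_sdiff.1 hx).1
    _ = ((E k n k \ (E k n k).filter (fun x => F x = f0)).card : ℝ) * (2 * Real.log n) := by
        rw [sum_const, nsmul_eq_mul]
    _ ≤ 2 * C * k / (ε * Real.log n) * 2056 * (2 * Real.log n) :=
        mul_le_mul_of_nonneg_right hcard (by positivity)
    _ = 8224 * C / ε * k := by
        field_simp
        norm_num

end Pool.Agent.H3.LC
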