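import Pool.Agent.H3.LC.MassLow
import Pool.Agent.H3.LC.MassUp
import Pool.Agent.H3.LC.NonMain
import Pool.Agent.H3.LC.Cases

/-!
# LC RangeB: `n^(1/2+ε) ≤ k ≤ n/B`, all large `n`

Let `C1, C2, C3` be the constants of `mass_lower`, `mass_upper`, `non_main`, `L = log n - log k ≥ log B`.  Let `r, S` be as in `non_main`.  Since `ms k x = 0` off `E`,
mass of `S` `≥ k L - (C1 + C3) k`.  `ratio_cases`:
* `q ∣ x` for all `x ∈ S`: mass of `S` `≤ (k/q) L + C2 k ≤ (k/2) L + C2 k`, so `L ≤ 2 (C1+C2+C3)`: impossible for `B` large.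
* otherwise put `q = k/4` (integer part, `q ≥ k/5` as `k` is large).  `mass_lower` for `(n, n+q]` and for `(n+k-q, n+k]`: the mass of both is
  `≥ q L - C1 k > C3 k` if `L > 5 (C1 + C3)`; so both contain elements of `S`: `x ≤ n + q`, `x' > n + k - q`, and `2x' + 1 ≤ 2x + k` is impossible.
-/

set_option autoImplicit false

open Finset

namespace Pool.Agent.H3.LC

/-- the mass of a block is carried by `E` -/
theorem rangeB_sum_E (T : ℝ) (n k : ℕ) :
    ∑ x ∈ Icc (n + 1) (n + k), ms T x = ∑ x ∈ E T n k, ms T x := by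
  unfold E
  rw [sum_filter]
  refine sum_congr rfl fun x _ => ?_
  split_ifs with h
  · rfl
  · exact ms_eq_zero h

theorem rangeB (ε : ℝ) (hε : 0 < ε) : ∃ B n0 : ℕ, ∀ n : ℕ, n0 ≤ n → ∀ k m : ℕ,
    (n : ℝ) ^ (1 / 2 + ε) ≤ k → B * k ≤ n → ¬ Sol n k m := by
  obtain ⟨C1, hC1, n1, h1⟩ := mass_lower ε hε
  obtain ⟨C2, hC2, n2, h2⟩ := mass_upper ε hε
  obtain ⟨C3, hC3, n3, h3⟩ := non_main ε hε
  obtain ⟨B, hB⟩ := exists_nat_gt (Real.exp (5 * (C1 + C2 + C3) + 1))
  refine ⟨B, max (max n1 n2) (max n3 (1000 ^ 2)), fun n hn k m hk hBk hsol => ?_⟩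
  have hn1 : n1 ≤ n := le_trans (le_trans (le_max_left _ _) (le_max_left _ _)) hn
  have hn2 : n2 ≤ n := le_trans (le_trans (le_max_right _ _) (le_max_left _ _)) hn
  have hn3 : n3 ≤ n := le_trans (le_trans (le_max_left _ _) (le_max_right _ _)) hn
  have hn4 : 1000 ^ 2 ≤ n := le_trans (le_trans (le_max_right _ _) (le_max_right _ _)) hn
  have hBpos : (0 : ℝ) < B := lt_trans (Real.exp_pos _) hB
  have hB1 : 1 ≤ B := by
    have : 0 < B := by exact_mod_cast hBpos
    omega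
  have hkn : k ≤ n := le_trans (Nat.le_mul_of_pos_left k (by omega)) hBk
  have hk0 : 0 < k := hsol.1
  have hkR : (0 : ℝ) < k := by exact_mod_cast hk0
  have hn0 : (1 : ℝ) ≤ n := by
    have : 1 ≤ n := le_trans (by norm_num) hn4
    exact_mod_cast this
  have hnR : (0 : ℝ) < n := by linarith
  -- `k` is large
  have hk1000 : (1000 : ℝ) ≤ k := by
    have e1 : ((1000 : ℝ) ^ 2) ^ (1 / 2 : ℝ) ≤ (n : ℝ) ^ (1 / 2 : ℝ) := by
      refine Real.rpow_le_rpow (by norm_num) (by exact_mod_cast hn4) (by norm_num)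
    have e2 : ((1000 : ℝ) ^ 2) ^ (1 / 2 : ℝ) = 1000 := by
      rw [← Real.sqrt_eq_rpow]
      exact Real.sqrt_sq (by norm_num)
    have e3 : (n : ℝ) ^ (1 / 2 : ℝ) ≤ (n : ℝ) ^ (1 / 2 + ε) :=
      Real.rpow_le_rpow_of_exponent_le hn0 (by linarith)
    rw [e2] at e1
    linarith
  have hk1000' : 1000 ≤ k := by exact_mod_cast hk1000
  set L : ℝ := Real.log n - Real.log k with hL
  have hLB : 5 * (C1 + C2 + C3) + 1 < L := by
    have e1 : 5 * (C1 + C2 + C3) + 1 < Real.log B := (Real.lt_log_iff_exp_lt hBpos).2 hB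
    have e2 : Real.log B + Real.log k ≤ Real.log n := by
      rw [← Real.log_mul hBpos.ne' hkR.ne']
      refine Real.log_le_log (by positivity) ?_
      exact_mod_cast hBk
    linarith
  have hLpos : 0 < L := by linarith [hC1, hC2, hC3]
  obtain ⟨r, S, hSE, hSr, hSm⟩ := h3 n hn3 k m hk hkn hsol
  have hSI : S ⊆ Icc (n + 1) (n + k) := hSE.trans (filter_subset _ _)
  -- total mass
  have htot : (k : ℝ) * L - C1 * k ≤ ∑ x ∈ Icc (n + 1) (n + k), ms k x :=
    h1 n hn1 k n k hk hkn le_rfl le_rfl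
  have hSlow : (k : ℝ) * L - (C1 + C3) * k ≤ ∑ x ∈ S, ms k x := by
    rw [rangeB_sum_E, ← sum_sdiff hSE] at htot
    linarith
  rcases ratio_cases hsol.2.1 hSI hSr with ⟨q, hq, hqS⟩ | hwin
  · have hup := h2 n hn2 k q hq hk hkn
    have hSq : ∑ x ∈ S, ms k x ≤ ∑ x ∈ (Icc (n + 1) (n + k)).filter (fun x => q ∣ x), ms k x := by
      refine sum_le_sum_of_subset_of_nonneg ?_ fun x _ _ => ms_nonneg _ _
      intro x hx
      exact mem_filter.2 ⟨hSI hx, hqS x hx⟩
    have hq2 : (k : ℝ) / q * L ≤ (k : ℝ) / 2 * L := by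
      refine mul_le_mul_of_nonneg_right ?_ hLpos.le
      refine div_le_div_of_nonneg_left hkR.le (by norm_num) ?_
      exact_mod_cast hq.two_le
    have h5 : (k : ℝ) * L - (C1 + C3) * k ≤ (k : ℝ) / 2 * L + C2 * k := by linarith
    have h6 : (k : ℝ) * (L / 2 - (C1 + C2 + C3)) ≤ 0 := by nlinarith
    have h7 : 0 < L / 2 - (C1 + C2 + C3) := by linarith [hC1, hC2, hC3]
    nlinarith [mul_pos hkR h7]
  · set q := k / 4 with hqdef
    have hq1 : 4 * q ≤ k := by omega
    have hq2 : k ≤ 5 * q := by omega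
    have hq2R : (k : ℝ) ≤ 5 * q := by exact_mod_cast hq2
    have hqpos : 0 < q := by omega
    have hfirst : (q : ℝ) * L - C1 * k ≤ ∑ x ∈ Icc (n + 1) (n + q), ms k x :=
      h1 n hn1 k n q hk hkn le_rfl (by omega)
    have hlast : (q : ℝ) * L - C1 * k ≤ ∑ x ∈ Icc ((n + k - q) + 1) ((n + k - q) + q), ms k x :=
      h1 n hn1 k (n + k - q) q hk hkn (by omega) (by omega)
    have hbig : C3 * k < (q : ℝ) * L - C1 * k := by
      have e1 : (k : ℝ) / 5 * L ≤ q * L := mul_le_mul_of_nonneg_right (by linarith) hLpos.le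
      have e2 : (k : ℝ) * (C1 + C3) < (k : ℝ) / 5 * L := by
        have : (k : ℝ) / 5 * L = k * (L / 5) := by ring
        rw [this]
        exact mul_lt_mul_of_pos_left (by linarith [hC1, hC2, hC3]) hkR
      linarith
    -- a sub-block whose mass exceeds `C3 k` contains an element of `S`
    have hsub : ∀ a b : ℕ, Icc a b ⊆ Icc (n + 1) (n + k) → C3 * k < ∑ x ∈ Icc a b, ms k x →
        ∃ x ∈ S, x ∈ Icc a b := by
      intro a b hab hmass
      by_contra hcon
      push Not at hcon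
      have e1 : ∑ x ∈ Icc a b, ms k x ≤ ∑ x ∈ E k n k \ S, ms k x := by
        have e2 : ∑ x ∈ Icc a b, ms k x = ∑ x ∈ (Icc a b).filter (fun x => (big k x).Nonempty), ms k x := by
          rw [sum_filter]
          refine sum_congr rfl fun x _ => ?_
          split_ifs with h
          · rfl
          · exact ms_eq_zero h
        rw [e2]
        refine sum_le_sum_of_subset_of_nonneg ?_ fun x _ _ => ms_nonneg _ _
        intro x hx
        rw [mem_filter] at hx
        rw [mem_sdiff]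
        exact ⟨mem_filter.2 ⟨hab hx.1, hx.2⟩, fun hxS => hcon x hxS hx.1⟩
      linarith
    obtain ⟨x, hxS, hx⟩ := hsub (n + 1) (n + q) (Icc_subset_Icc le_rfl (by omega)) (by linarith)
    obtain ⟨x', hx'S, hx'⟩ := hsub ((n + k - q) + 1) ((n + k - q) + q)
      (Icc_subset_Icc (by omega) (by omega)) (by linarith)
    have hw := hwin x hxS x' hx'S
    rw [mem_Icc] at hx hx'
    omega

end Pool.Agent.H3.LC
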