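import Pool.Agent.H3.LC.KerId
import Pool.Agent.H3.LC.KerLim
import Pool.Agent.H3.LC.KerFar

/-!
# LC PrimeGap: there is a prime in `(x, (1+d) x]` for all large `x`

Let `0 < d ≤ 1`, `δ = log(1+d)/3` (so `δ ≤ 1`), `C` from `ker_far`, `L = max 1 (8 C/δ²)`.  `G` from `exists_GG`, `σ0, y0` from `ker_lim` with `ε = 1/8`.
Suppose there is no prime in `(x, (1+d)x]`, `y = log x + (3/2) δ` (the middle), `y ≥ y0`, `y ≥ 1`, `y` large.  For `σ ≤ σ0` with `e^{-σ(y+1)} ≥ 3/4`, `lambda_formula` gives
`A = B + H`, `A = ∑ Λ(n) n^{-(1+σ)} ker L (log n - y)`, `B ≥ e^{-σ(y+1)} ∫_{-1}^{1} ker L ≥ 3/4` (`ker_int`), `H ≥ -1/8`.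
On the other hand `A ≤ C/(Lδ²) + L ∑_{n not prime, |log n - y| < δ} Λ(n)/n ≤ 1/8 + L ∑_{n not prime, n > x} Λ(n)/n`: an `n` with `|log n - y| < δ` is in `(x, (1+d)x]`,
so not prime, and the tail of the convergent series `∑_{n not prime} Λ(n)/n`
(`ArithmeticFunction.vonMangoldt.summable_residueClass_non_primes_div` with modulus 1) is `≤ 1/(8L)` for `x` large.  So `5/8 ≤ A ≤ 1/4`, contradiction.
For `d > 1` use `d = 1`.
-/

set_option autoImplicit false

open MeasureTheory ArithmeticFunction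

namespace Pool.Agent.H3.LC

theorem primegap_summable :
    Summable (fun n : ℕ => (if n.Prime then 0 else vonMangoldt n) / (n : ℝ)) := by
  have h := ArithmeticFunction.vonMangoldt.summable_residueClass_non_primes_div (q := 1) (0 : ZMod 1)
  refine h.congr fun n => ?_
  have h1 : ArithmeticFunction.vonMangoldt.residueClass (0 : ZMod 1) n = vonMangoldt n := by
    unfold ArithmeticFunction.vonMangoldt.residueClass
    rw [Set.indicator_of_mem]
    exact Subsingleton.elim _ _
  rw [h1]

theorem primegap_nonneg (n : ℕ) : 0 ≤ (if n.Prime then 0 else vonMangoldt n) / (n : ℝ) := by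
  apply div_nonneg _ n.cast_nonneg
  split_ifs
  · exact le_rfl
  · exact vonMangoldt_nonneg

/-- the tail of the series over the non-primes -/
theorem primegap_tail {ε : ℝ} (hε : 0 < ε) : ∃ N : ℕ, ∀ x : ℕ, N ≤ x →
    ∑' n : ℕ, (if x < n then (if n.Prime then 0 else vonMangoldt n) / (n : ℝ) else 0) ≤ ε := by
  set f : ℕ → ℝ := fun n => (if n.Prime then 0 else vonMangoldt n) / (n : ℝ) with hf
  have ht := tendsto_sum_nat_add f
  have hev := (ht.eventually (ge_mem_nhds hε)).exists_forall_of_atTop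
  obtain ⟨N, hN⟩ := hev
  refine ⟨N, fun x hx => ?_⟩
  have hsum : Summable (fun n : ℕ => if x < n then f n else 0) := by
    refine Summable.of_nonneg_of_le (fun n => ?_) (fun n => ?_) primegap_summable
    · by_cases h : x < n
      · rw [if_pos h]
        exact primegap_nonneg n
      · rw [if_neg h]
    · by_cases h : x < n
      · rw [if_pos h]
      · rw [if_neg h]
        exact primegap_nonneg n
  have h1 := hsum.sum_add_tsum_nat_add (x + 1)
  have h2 : ∑ i ∈ Finset.range (x + 1), (if x < i then f i else 0) = 0 := by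
    apply Finset.sum_eq_zero
    intro i hi
    rw [Finset.mem_range] at hi
    rw [if_neg (by omega)]
  have h3 : ∑' i : ℕ, (if x < i + (x + 1) then f (i + (x + 1)) else 0) = ∑' i : ℕ, f (i + (x + 1)) := by
    apply tsum_congr
    intro i
    rw [if_pos (by omega)]
  rw [h2, zero_add, h3] at h1
  show ∑' n : ℕ, (if x < n then f n else 0) ≤ ε
  rw [← h1]
  exact hN (x + 1) (by omega)

/-- lower bound of the main term -/
theorem primegap_main {L σ y : ℝ} (hL : 1 ≤ L) (hσ : 0 < σ) (hy : 1 ≤ y)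
    (hσy : σ * (y + 1) ≤ 1 / 4) :
    3 / 4 ≤ ∫ u in Set.Ioi (0 : ℝ), Real.exp (-σ * u) * ker L (u - y) := by
  have hL0 : 0 < L := by linarith
  have hcont : Continuous (fun u : ℝ => Real.exp (-σ * u) * ker L (u - y)) := by
    have := ker_continuous hL0
    exact (Real.continuous_exp.comp (continuous_const.mul continuous_id)).mul
      (this.comp (continuous_id.sub continuous_const))
  have hint : IntegrableOn (fun u : ℝ => Real.exp (-σ * u) * ker L (u - y)) (Set.Ioi 0) := by
    have h1 : IntegrableOn (fun u : ℝ => Real.exp (-σ * u) * L) (Set.Ioi 0) :=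
      (exp_neg_integrableOn_Ioi 0 hσ).mul_const L
    refine Integrable.mono' h1 hcont.aestronglyMeasurable ?_
    refine Filter.Eventually.of_forall fun u => ?_
    rw [Real.norm_of_nonneg (mul_nonneg (Real.exp_pos _).le (ker_nonneg hL0 _))]
    exact mul_le_mul_of_nonneg_left (ker_le hL0 _) (Real.exp_pos _).le
  have h1 : ∫ u in Set.Ioc (y - 1) (y + 1), Real.exp (-σ * u) * ker L (u - y) ≤
      ∫ u in Set.Ioi (0 : ℝ), Real.exp (-σ * u) * ker L (u - y) := by
    apply setIntegral_mono_set hint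
    · exact Filter.Eventually.of_forall fun u => mul_nonneg (Real.exp_pos _).le (ker_nonneg hL0 _)
    · apply Filter.Eventually.of_forall
      intro u hu
      have hu' : u ∈ Set.Ioc (y - 1) (y + 1) := hu
      show u ∈ Set.Ioi (0 : ℝ)
      rw [Set.mem_Ioi]
      have := hu'.1
      linarith
  have h2 : ∫ u in Set.Ioc (y - 1) (y + 1), Real.exp (-(1 / 4 : ℝ)) * ker L (u - y) ≤
      ∫ u in Set.Ioc (y - 1) (y + 1), Real.exp (-σ * u) * ker L (u - y) := by
    apply setIntegral_mono_on
    · have hc : Continuous (fun u : ℝ => Real.exp (-(1 / 4 : ℝ)) * ker L (u - y)) := by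
        have := ker_continuous hL0
        exact continuous_const.mul (this.comp (continuous_id.sub continuous_const))
      exact (hc.integrableOn_Icc).mono_set Set.Ioc_subset_Icc_self
    · exact (hcont.integrableOn_Icc).mono_set Set.Ioc_subset_Icc_self
    · exact measurableSet_Ioc
    · intro u hu
      apply mul_le_mul_of_nonneg_right _ (ker_nonneg hL0 _)
      apply Real.exp_le_exp.mpr
      have : σ * u ≤ σ * (y + 1) := mul_le_mul_of_nonneg_left hu.2 hσ.le
      linarith
  have h3 : ∫ u in Set.Ioc (y - 1) (y + 1), Real.exp (-(1 / 4 : ℝ)) * ker L (u - y) =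
      Real.exp (-(1 / 4 : ℝ)) * ∫ u in (-1 : ℝ)..1, ker L u := by
    rw [← intervalIntegral.integral_of_le (by linarith), intervalIntegral.integral_const_mul]
    congr 1
    rw [intervalIntegral.integral_comp_sub_right (fun u => ker L u) y]
    congr 1 <;> ring
  have h4 := ker_int hL
  have h5 : (3 / 4 : ℝ) ≤ Real.exp (-(1 / 4 : ℝ)) := by
    have := Real.add_one_le_exp (-(1 / 4 : ℝ))
    linarith
  have h6 : Real.exp (-(1 / 4 : ℝ)) * 1 ≤ Real.exp (-(1 / 4 : ℝ)) * ∫ u in (-1 : ℝ)..1, ker L u :=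
    mul_le_mul_of_nonneg_left h4 (Real.exp_pos _).le
  linarith [h1, h2, h3.symm.le, h3.le]

/-- upper bound of the left side when there is no prime near `exp y` -/
theorem primegap_upper {L σ δ y : ℝ} {x : ℕ} (hL : 0 < L) (hσ : 0 < σ)
    (hnear : ∀ n : ℕ, 0 < n → |Real.log n - y| < δ → x < n ∧ ¬ n.Prime) :
    ∑' n : ℕ, vonMangoldt n * (n : ℝ) ^ (-(1 + σ)) * ker L (Real.log n - y) ≤
      ∑' n : ℕ, (if δ ≤ |Real.log n - y| then
        vonMangoldt n * (n : ℝ) ^ (-(1 + σ)) * ker L (Real.log n - y) else 0) +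
      L * ∑' n : ℕ, (if x < n then (if n.Prime then 0 else vonMangoldt n) / (n : ℝ) else 0) := by
  have hs := summable_lambda_ker hL hσ y
  have hnn : ∀ n : ℕ, 0 ≤ vonMangoldt n * (n : ℝ) ^ (-(1 + σ)) * ker L (Real.log n - y) := fun n =>
    mul_nonneg (mul_nonneg vonMangoldt_nonneg (Real.rpow_nonneg n.cast_nonneg _)) (ker_nonneg hL _)
  have hs1 : Summable (fun n : ℕ => if δ ≤ |Real.log n - y| then
        vonMangoldt n * (n : ℝ) ^ (-(1 + σ)) * ker L (Real.log n - y) else 0) := by
    refine Summable.of_nonneg_of_le (fun n => ?_) (fun n => ?_) hs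
    · split_ifs
      · exact hnn n
      · exact le_rfl
    · split_ifs
      · exact le_rfl
      · exact hnn n
  have hs2 : Summable (fun n : ℕ => if x < n then (if n.Prime then 0 else vonMangoldt n) / (n : ℝ) else 0) := by
    refine Summable.of_nonneg_of_le (fun n => ?_) (fun n => ?_) primegap_summable
    · by_cases h : x < n
      · rw [if_pos h]
        exact primegap_nonneg n
      · rw [if_neg h]
    · by_cases h : x < n
      · rw [if_pos h]
      · rw [if_neg h]
        exact primegap_nonneg n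
  rw [← tsum_mul_left, ← hs1.tsum_add (hs2.mul_left L)]
  refine hs.tsum_le_tsum (fun n => ?_) (hs1.add (hs2.mul_left L))
  by_cases hfar : δ ≤ |Real.log n - y|
  · rw [if_pos hfar]
    have : 0 ≤ L * (if x < n then (if n.Prime then 0 else vonMangoldt n) / (n : ℝ) else 0) := by
      apply mul_nonneg hL.le
      by_cases h : x < n
      · rw [if_pos h]
        exact primegap_nonneg n
      · rw [if_neg h]
    linarith
  · rw [if_neg hfar, zero_add]
    rcases Nat.eq_zero_or_pos n with rfl | hn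
    · simp
    · obtain ⟨hxn, hnp⟩ := hnear n hn (not_le.mp hfar)
      rw [if_pos hxn, if_neg hnp]
      have hn1 : (1 : ℝ) ≤ n := by exact_mod_cast hn
      have h1 : (n : ℝ) ^ (-(1 + σ)) ≤ 1 / n := by
        have h2 : (n : ℝ) ^ (-(1 + σ)) ≤ (n : ℝ) ^ (-1 : ℝ) :=
          Real.rpow_le_rpow_of_exponent_le hn1 (by linarith)
        rwa [Real.rpow_neg_one, ← one_div] at h2
      have h3 : vonMangoldt n * (n : ℝ) ^ (-(1 + σ)) ≤ vonMangoldt n / n := by
        have := mul_le_mul_of_nonneg_left h1 (vonMangoldt_nonneg (n := n))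
        calc vonMangoldt n * (n : ℝ) ^ (-(1 + σ)) ≤ vonMangoldt n * (1 / n) := this
          _ = vonMangoldt n / n := by ring
      calc vonMangoldt n * (n : ℝ) ^ (-(1 + σ)) * ker L (Real.log n - y)
          ≤ (vonMangoldt n / n) * L := by
            apply mul_le_mul h3 (ker_le hL _) (ker_nonneg hL _)
            exact div_nonneg vonMangoldt_nonneg n.cast_nonneg
        _ = L * (vonMangoldt n / n) := by ring

theorem primegap_aux (d : ℝ) (hd : 0 < d) (hd1 : d ≤ 1) : ∃ x0 : ℕ, ∀ x : ℕ, x0 ≤ x →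
    ∃ p : ℕ, p.Prime ∧ x < p ∧ (p : ℝ) ≤ (1 + d) * x := by
  obtain ⟨C, hC, hfar⟩ := ker_far
  set δ : ℝ := Real.log (1 + d) / 3 with hδdef
  have hlogpos : 0 < Real.log (1 + d) := Real.log_pos (by linarith)
  have hδ : 0 < δ := by positivity
  have hδ1 : δ ≤ 1 := by
    have h1 : Real.log (1 + d) ≤ (1 + d) - 1 := Real.log_le_sub_one_of_pos (by linarith)
    rw [hδdef]
    linarith
  set L : ℝ := max 1 (8 * C / δ ^ 2) with hLdef
  have hL1 : 1 ≤ L := le_max_left _ _
  have hL0 : 0 < L := by linarith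
  have hL2 : C / (L * δ ^ 2) ≤ 1 / 8 := by
    have h1 : 8 * C / δ ^ 2 ≤ L := le_max_right _ _
    have h2 : 8 * C ≤ L * δ ^ 2 := by
      rwa [div_le_iff₀ (by positivity)] at h1
    rw [div_le_iff₀ (by positivity)]
    linarith
  obtain ⟨G, hG, hG1⟩ := exists_GG
  obtain ⟨σ0, hσ0, y0, hlim⟩ := ker_lim hG hL0 (ε := 1 / 8) (by norm_num)
  obtain ⟨N, hN⟩ := primegap_tail (ε := 1 / (8 * L)) (by positivity)
  -- choose x0
  set Y : ℝ := max 1 y0 with hY
  refine ⟨max (max N 1) (⌈Real.exp Y⌉₊), fun x hx => ?_⟩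
  have hxN : N ≤ x := le_trans (le_trans (le_max_left _ _) (le_max_left _ _)) hx
  have hx1 : 1 ≤ x := le_trans (le_trans (le_max_right _ _) (le_max_left _ _)) hx
  have hxY : Real.exp Y ≤ x := by
    have h1 : Real.exp Y ≤ (⌈Real.exp Y⌉₊ : ℝ) := Nat.le_ceil _
    have h2 : (⌈Real.exp Y⌉₊ : ℝ) ≤ x := by exact_mod_cast le_trans (le_max_right _ _) hx
    linarith
  have hxpos : (0 : ℝ) < x := by exact_mod_cast hx1
  have hlogx : Y ≤ Real.log x := by
    rw [Real.le_log_iff_exp_le hxpos]
    exact hxY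
  by_contra hcon
  push Not at hcon
  set y : ℝ := Real.log x + 3 / 2 * δ with hydef
  have hyY : Y ≤ y := by
    rw [hydef]
    linarith
  have hy1 : 1 ≤ y := le_trans (le_max_left _ _) hyY
  have hy0 : y0 ≤ y := le_trans (le_max_right _ _) hyY
  set σ : ℝ := min σ0 (1 / (4 * (y + 1))) with hσdef
  have hσ : 0 < σ := lt_min hσ0 (by positivity)
  have hσσ0 : σ ≤ σ0 := min_le_left _ _
  have hσy : σ * (y + 1) ≤ 1 / 4 := by
    have h1 : σ ≤ 1 / (4 * (y + 1)) := min_le_right _ _
    have h2 : σ * (y + 1) ≤ 1 / (4 * (y + 1)) * (y + 1) :=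
      mul_le_mul_of_nonneg_right h1 (by linarith)
    have h3 : 1 / (4 * (y + 1)) * (y + 1) = 1 / 4 := by
      have : y + 1 ≠ 0 := by linarith
      field_simp
    linarith
  have hform := lambda_formula hG hG1 (L := L) (σ := σ) (y := y) hL0 hσ
  have hmain := primegap_main hL1 hσ hy1 hσy
  have hosc := hlim σ hσ hσσ0 y hy0
  have hnear : ∀ n : ℕ, 0 < n → |Real.log n - y| < δ → x < n ∧ ¬ n.Prime := by
    intro n hn hlt
    rw [abs_lt] at hlt
    have hnpos : (0 : ℝ) < n := by exact_mod_cast hn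
    have h1 : Real.log x < Real.log n := by
      have := hlt.1
      rw [hydef] at this
      linarith
    have h2 : (x : ℝ) < n := (Real.log_lt_log_iff hxpos hnpos).mp h1
    have h3 : x < n := by exact_mod_cast h2
    refine ⟨h3, fun hp => ?_⟩
    have h4 := hcon n hp h3
    have h5 : Real.log ((1 + d) * x) < Real.log n :=
      Real.log_lt_log (by positivity) h4
    rw [Real.log_mul (by positivity) (by positivity)] at h5
    have h6 := hlt.2
    rw [hydef] at h6
    have h7 : Real.log (1 + d) = 3 * δ := by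
      rw [hδdef]
      ring
    rw [h7] at h5
    linarith
  have hup := primegap_upper (L := L) (σ := σ) (δ := δ) (y := y) (x := x) hL0 hσ hnear
  have hf := hfar L σ δ y hL0 hσ hδ hδ1
  have ht := hN x hxN
  have ht2 : L * ∑' n : ℕ, (if x < n then (if n.Prime then 0 else vonMangoldt n) / (n : ℝ) else 0) ≤
      1 / 8 := by
    have h1 := mul_le_mul_of_nonneg_left ht hL0.le
    have h2 : L * (1 / (8 * L)) = 1 / 8 := by
      field_simp
    linarith
  have hosc2 := (abs_le.mp hosc).1
  rw [hform] at hup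
  linarith

theorem exists_prime_near (d : ℝ) (hd : 0 < d) : ∃ x0 : ℕ, ∀ x : ℕ, x0 ≤ x →
    ∃ p : ℕ, p.Prime ∧ x < p ∧ (p : ℝ) ≤ (1 + d) * x := by
  obtain ⟨x0, hx0⟩ := primegap_aux (min d 1) (lt_min hd one_pos) (min_le_right _ _)
  refine ⟨x0, fun x hx => ?_⟩
  obtain ⟨p, hp, hxp, hpx⟩ := hx0 x hx
  refine ⟨p, hp, hxp, hpx.trans ?_⟩
  apply mul_le_mul_of_nonneg_right _ x.cast_nonneg
  have := min_le_left d 1
  linarith

end Pool.Agent.H3.LC
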