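import Pool.Agent.H3.LC.Arith
import Pool.Agent.H3.LC.PrimeGap

/-!
# LC RangeC: `k ≥ n/B`, all large `n`

`m + k ≤ 256 (n + k) ≤ 256 (B+1) k` (`sol_ratio`), so with `d = 1/(256 (B+1))` there is (for `m ≥ n ≥ n0`) a prime `p` with `m < p ≤ m + d m ≤ m + k`
(`exists_prime_near`).  `p ∣ M m k = M n k` (`prime_dvd_M`), so `p ∣ x` for some `1 ≤ x ≤ n + k ≤ m < p`: contradiction.
-/

set_option autoImplicit false

open Finset

namespace Pool.Agent.H3.LC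

theorem rangeC (B : ℕ) : ∃ n0 : ℕ, ∀ n : ℕ, n0 ≤ n → ∀ k m : ℕ, n ≤ B * k → ¬ Sol n k m := by
  have hd : (0 : ℝ) < 1 / (256 * (B + 1)) := by positivity
  obtain ⟨x0, hx0⟩ := exists_prime_near (1 / (256 * (B + 1))) hd
  refine ⟨x0, fun n hn k m hBk hsol => ?_⟩
  have hnm : n + k ≤ m := hsol.2.1
  obtain ⟨p, hp, hmp, hpm⟩ := hx0 m (by omega)
  have hrat := sol_ratio hsol
  have h1 : m ≤ 256 * (B + 1) * k := by
    have : 256 * (n + k) ≤ 256 * (B + 1) * k := by nlinarith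
    omega
  have h1R : (m : ℝ) ≤ 256 * (B + 1) * k := by exact_mod_cast h1
  have h2 : 1 / (256 * ((B : ℝ) + 1)) * m ≤ k := by
    rw [one_div, inv_mul_le_iff₀ (by positivity)]
    exact h1R
  have h3 : (p : ℝ) ≤ ((m + k : ℕ) : ℝ) := by
    push_cast
    linarith
  have h4 : p ≤ m + k := by exact_mod_cast h3
  have h5 : p ∣ M m k := (prime_dvd_M hp).2 ⟨p, mem_Icc.2 ⟨by omega, h4⟩, dvd_rfl⟩
  rw [hsol.2.2] at h5
  obtain ⟨x, hx, hpx⟩ := (prime_dvd_M hp).1 h5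
  rw [mem_Icc] at hx
  have := Nat.le_of_dvd (by omega) hpx
  omega

end Pool.Agent.H3.LC
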