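import Pool.Agent.H3.LC.Arith

/-!
# LC SmallK: for fixed `k` the `n` with a solution have density zero

Let `P n = ∏_{x ∈ (n,n+k]} x`.  `P n = d M n k` with `d ∣ (k-1)!`; it is enough to know that `d ≤ D(k)`: every prime power dividing `P n / M n k` divides
`k!`-like products; simplest: `P n = k! C(n+k,k)` and `C(n+k,k) ∣ M n k` (`choose_dvd_M`), so `P n ∣ k! M n k`, `d ∣ k!`.
So `Sol n k m` gives `d, d' ∣ k!` with `P m = d M`, `P n = d' M`, i.e. `d' P m = d P n`, and `d > d'` because `P m > P n`.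
Fix `(d, d')` (finitely many pairs) and put `α = (d/d')^(1/k) > 1`, `X = 2m+k+1`, `Y = 2n+k+1`, `Q X = ∏_{j=1}^k (X - (k+1) + 2j) = 2^k P m`.  Pairing `j` and `k+1-j`:
`(X² - (k-1)²)^k ≤ (Q X)² ≤ X^(2k)` and the same for `Y`, and `d' Q X = d Q Y`, so `|X² - α² Y²| ≤ α² (k-1)² =: c`, `|X - α Y| ≤ c / Y`.
* `α` irrational: if `n < n + h` are two such numbers (`Y' = Y + 2h`) then `|(X' - X) - 2hα| ≤ 2c/Y`.  For `1 ≤ h ≤ H` the distances of `2hα` to the integers are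
  positive, so for `Y ≥ Y0(H)` two such `n` have distance `> H`; their number up to `N` is at most `Y0 + N/H + 1`.
* `α = u/v` rational: for `Y > c v` we get `v X = u Y`, `X = α Y`, so `Q(αY) = α^k Q(Y)`.  But (`k ≥ 2`; for `k = 1` `d = d' = 1`, impossible)
  `Q(X)/X^k = ∏ (1 - t²/X²)` over the pairs is strictly increasing in `X > k - 1`: contradiction.
Any other proof of density zero is welcome.
-/

set_option autoImplicit false

open Finset

namespace Pool.Agent.H3.LC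

/-- the product of the block -/
private def smallk_P (n k : ℕ) : ℕ := (n + 1).ascFactorial k

private theorem smallk_P_pos (n k : ℕ) : 0 < smallk_P n k :=
  Nat.ascFactorial_pos _ _

private theorem smallk_P_eq (n k : ℕ) : (smallk_P n k : ℝ) = ∏ i ∈ range k, ((n : ℝ) + 1 + i) := by
  unfold smallk_P
  rw [Nat.ascFactorial_eq_prod_range]
  push_cast
  rfl

private theorem smallk_M_dvd_P (n k : ℕ) : M n k ∣ smallk_P n k := by
  unfold M smallk_P
  rw [Nat.ascFactorial_eq_prod_range]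
  apply Finset.lcm_dvd
  intro x hx
  rw [mem_Icc] at hx
  have h1 : x - (n + 1) ∈ range k := mem_range.2 (by omega)
  have h2 := Finset.dvd_prod_of_mem (fun i => n + 1 + i) h1
  have h3 : n + 1 + (x - (n + 1)) = x := by omega
  simp only [h3] at h2
  exact h2

private theorem smallk_P_dvd (n k : ℕ) : smallk_P n k ∣ k.factorial * M n k := by
  unfold smallk_P
  rw [Nat.ascFactorial_eq_factorial_mul_choose]
  exact mul_dvd_mul_left _ (choose_dvd_M n k)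

private theorem smallk_M_pos (n k : ℕ) : 0 < M n k :=
  Nat.pos_of_dvd_of_pos (smallk_M_dvd_P n k) (smallk_P_pos n k)

private theorem smallk_quot (n k : ℕ) : ∃ d : ℕ, d ∣ k.factorial ∧ smallk_P n k = d * M n k := by
  obtain ⟨d, hd⟩ := smallk_M_dvd_P n k
  refine ⟨d, ?_, by rw [hd, mul_comm]⟩
  have h := smallk_P_dvd n k
  rw [hd, mul_comm (M n k) d] at h
  exact Nat.dvd_of_mul_dvd_mul_right (smallk_M_pos n k) h

private theorem smallk_P_lt {n m k : ℕ} (hk : 0 < k) (h : n < m) : smallk_P n k < smallk_P m k := by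
  unfold smallk_P
  rw [Nat.ascFactorial_eq_prod_range, Nat.ascFactorial_eq_prod_range]
  apply prod_lt_prod_of_nonempty
  · intro i _; omega
  · intro i _; omega
  · exact nonempty_range_iff.2 hk.ne'

private theorem smallk_pair {n k m : ℕ} (h : Sol n k m) :
    ∃ d d' : ℕ, d ∣ k.factorial ∧ d' ∣ k.factorial ∧ 0 < d' ∧ d' < d ∧
      d' * smallk_P m k = d * smallk_P n k := by
  obtain ⟨hk, hnm, hM⟩ := h
  obtain ⟨d, hd, hdP⟩ := smallk_quot m k
  obtain ⟨d', hd', hdP'⟩ := smallk_quot n k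
  have hd'0 : 0 < d' := Nat.pos_of_dvd_of_pos hd' (Nat.factorial_pos k)
  have hlt := smallk_P_lt (n := n) (m := m) hk (by omega)
  refine ⟨d, d', hd, hd', hd'0, ?_, ?_⟩
  · rw [hdP, hdP', hM] at hlt
    exact lt_of_mul_lt_mul_right hlt (Nat.zero_le _)
  · rw [hdP, hdP', hM]; ring

private theorem smallk_sq (n k : ℕ) :
    ∏ i ∈ range k, ((2 * (n : ℝ) + k + 1) ^ 2 - ((k : ℝ) - 1 - 2 * i) ^ 2)
      = 4 ^ k * (smallk_P n k : ℝ) ^ 2 := by
  have h1 : ∀ i ∈ range k, ((2 * (n : ℝ) + k + 1) ^ 2 - ((k : ℝ) - 1 - 2 * i) ^ 2)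
      = 4 * (((n : ℝ) + 1 + i) * ((n : ℝ) + 1 + ((k - 1 - i : ℕ) : ℝ))) := by
    intro i hi
    have hi' := mem_range.1 hi
    have h2 : ((k - 1 - i : ℕ) : ℝ) = (k : ℝ) - 1 - i := by
      rw [Nat.cast_sub (by omega), Nat.cast_sub (by omega)]
      simp
    rw [h2]
    ring
  rw [prod_congr rfl h1, prod_mul_distrib, prod_const, card_range, prod_mul_distrib,
    prod_range_reflect (fun i => (n : ℝ) + 1 + i) k, ← smallk_P_eq]
  ring

/-- the basic data for a pair -/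
private theorem smallk_est {n m k d d' : ℕ} (hk : 2 ≤ k) (hd' : 0 < d')
    (h : d' * smallk_P m k = d * smallk_P n k) {α : ℝ} (hα : 0 < α)
    (hαk : α ^ k = (d : ℝ) / d') :
    (∏ i ∈ range k, ((2 * (m : ℝ) + k + 1) ^ 2 - ((k : ℝ) - 1 - 2 * i) ^ 2)
      = (α ^ 2) ^ k *
        ∏ i ∈ range k, ((2 * (n : ℝ) + k + 1) ^ 2 - ((k : ℝ) - 1 - 2 * i) ^ 2)) := by
  rw [smallk_sq, smallk_sq]
  have h1 : (d' : ℝ) * smallk_P m k = d * smallk_P n k := by exact_mod_cast h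
  have hd'r : (0 : ℝ) < d' := by exact_mod_cast hd'
  have h2 : (smallk_P m k : ℝ) = α ^ k * smallk_P n k := by
    rw [hαk]
    field_simp
    linarith
  rw [h2]
  ring

private theorem smallk_t_sq {k i : ℕ} (hi : i < k) : ((k : ℝ) - 1 - 2 * i) ^ 2 ≤ ((k : ℝ) - 1) ^ 2 := by
  have h1 : (i : ℝ) ≤ (k : ℝ) - 1 := by
    have : ((i + 1 : ℕ) : ℝ) ≤ (k : ℝ) := by exact_mod_cast hi
    push_cast at this
    linarith
  have h0 : (0 : ℝ) ≤ i := Nat.cast_nonneg i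
  nlinarith

private theorem smallk_close {n m k : ℕ} (hk : 2 ≤ k) {α : ℝ} (hα : 1 < α)
    (h : ∏ i ∈ range k, ((2 * (m : ℝ) + k + 1) ^ 2 - ((k : ℝ) - 1 - 2 * i) ^ 2)
      = (α ^ 2) ^ k *
        ∏ i ∈ range k, ((2 * (n : ℝ) + k + 1) ^ 2 - ((k : ℝ) - 1 - 2 * i) ^ 2)) :
    |(2 * (m : ℝ) + k + 1) - α * (2 * (n : ℝ) + k + 1)|
      ≤ α ^ 2 * ((k : ℝ) - 1) ^ 2 / (2 * (n : ℝ) + k + 1) := by
  set X : ℝ := 2 * (m : ℝ) + k + 1 with hX
  set Y : ℝ := 2 * (n : ℝ) + k + 1 with hY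
  have hk2 : (2 : ℝ) ≤ k := by exact_mod_cast hk
  have hm0 : (0 : ℝ) ≤ m := Nat.cast_nonneg m
  have hn0 : (0 : ℝ) ≤ n := Nat.cast_nonneg n
  have hXk : (k : ℝ) + 1 ≤ X := by rw [hX]; linarith
  have hYk : (k : ℝ) + 1 ≤ Y := by rw [hY]; linarith
  have hXsq : 0 ≤ X ^ 2 - ((k : ℝ) - 1) ^ 2 := by nlinarith
  have hYsq : 0 ≤ Y ^ 2 - ((k : ℝ) - 1) ^ 2 := by nlinarith
  have hk0 : k ≠ 0 := by omega
  -- lower and upper bounds for the product
  have lowX : (X ^ 2 - ((k : ℝ) - 1) ^ 2) ^ k ≤ ∏ i ∈ range k, (X ^ 2 - ((k : ℝ) - 1 - 2 * i) ^ 2) := by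
    calc (X ^ 2 - ((k : ℝ) - 1) ^ 2) ^ k = ∏ _i ∈ range k, (X ^ 2 - ((k : ℝ) - 1) ^ 2) := by
          rw [prod_const, card_range]
      _ ≤ _ := prod_le_prod (fun i _ => hXsq) (fun i hi => by
          have := smallk_t_sq (mem_range.1 hi); linarith)
  have lowY : (Y ^ 2 - ((k : ℝ) - 1) ^ 2) ^ k ≤ ∏ i ∈ range k, (Y ^ 2 - ((k : ℝ) - 1 - 2 * i) ^ 2) := by
    calc (Y ^ 2 - ((k : ℝ) - 1) ^ 2) ^ k = ∏ _i ∈ range k, (Y ^ 2 - ((k : ℝ) - 1) ^ 2) := by
          rw [prod_const, card_range]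
      _ ≤ _ := prod_le_prod (fun i _ => hYsq) (fun i hi => by
          have := smallk_t_sq (mem_range.1 hi); linarith)
  have upX : ∏ i ∈ range k, (X ^ 2 - ((k : ℝ) - 1 - 2 * i) ^ 2) ≤ (X ^ 2) ^ k := by
    calc _ ≤ ∏ _i ∈ range k, (X ^ 2) := prod_le_prod (fun i hi => by
          have := smallk_t_sq (mem_range.1 hi); linarith) (fun i _ => by
          have := sq_nonneg ((k : ℝ) - 1 - 2 * i); linarith)
      _ = _ := by rw [prod_const, card_range]
  have upY : ∏ i ∈ range k, (Y ^ 2 - ((k : ℝ) - 1 - 2 * i) ^ 2) ≤ (Y ^ 2) ^ k := by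
    calc _ ≤ ∏ _i ∈ range k, (Y ^ 2) := prod_le_prod (fun i hi => by
          have := smallk_t_sq (mem_range.1 hi); linarith) (fun i _ => by
          have := sq_nonneg ((k : ℝ) - 1 - 2 * i); linarith)
      _ = _ := by rw [prod_const, card_range]
  have hα2 : 0 < α ^ 2 := by positivity
  have h1 : X ^ 2 - ((k : ℝ) - 1) ^ 2 ≤ α ^ 2 * Y ^ 2 := by
    have : (X ^ 2 - ((k : ℝ) - 1) ^ 2) ^ k ≤ (α ^ 2 * Y ^ 2) ^ k := by
      rw [mul_pow]
      refine lowX.trans ?_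
      rw [h]
      exact mul_le_mul_of_nonneg_left upY (by positivity)
    exact (pow_le_pow_iff_left₀ hXsq (by positivity) hk0).1 this
  have h2 : α ^ 2 * (Y ^ 2 - ((k : ℝ) - 1) ^ 2) ≤ X ^ 2 := by
    have : (α ^ 2 * (Y ^ 2 - ((k : ℝ) - 1) ^ 2)) ^ k ≤ (X ^ 2) ^ k := by
      rw [mul_pow]
      refine le_trans ?_ upX
      rw [h]
      exact mul_le_mul_of_nonneg_left lowY (by positivity)
    exact (pow_le_pow_iff_left₀ (by positivity) (by positivity) hk0).1 this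
  have hα1 : 1 ≤ α ^ 2 := by nlinarith
  have h3 : |X ^ 2 - α ^ 2 * Y ^ 2| ≤ α ^ 2 * ((k : ℝ) - 1) ^ 2 := by
    rw [abs_le]
    constructor
    · nlinarith
    · nlinarith [sq_nonneg ((k : ℝ) - 1)]
  have hYpos : 0 < Y := by linarith
  have hsum : Y ≤ X + α * Y := by nlinarith
  rw [le_div_iff₀ hYpos]
  have h4 : |X ^ 2 - α ^ 2 * Y ^ 2| = |X - α * Y| * (X + α * Y) := by
    have : X ^ 2 - α ^ 2 * Y ^ 2 = (X - α * Y) * (X + α * Y) := by ring
    rw [this, abs_mul, abs_of_pos (lt_of_lt_of_le hYpos hsum)]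
  calc |X - α * Y| * Y ≤ |X - α * Y| * (X + α * Y) :=
        mul_le_mul_of_nonneg_left hsum (abs_nonneg _)
    _ = |X ^ 2 - α ^ 2 * Y ^ 2| := h4.symm
    _ ≤ _ := h3

private theorem smallk_ne {n m k : ℕ} (hk : 2 ≤ k) {α : ℝ} (hα : 1 < α)
    (h : ∏ i ∈ range k, ((2 * (m : ℝ) + k + 1) ^ 2 - ((k : ℝ) - 1 - 2 * i) ^ 2)
      = (α ^ 2) ^ k *
        ∏ i ∈ range k, ((2 * (n : ℝ) + k + 1) ^ 2 - ((k : ℝ) - 1 - 2 * i) ^ 2)) :
    (2 * (m : ℝ) + k + 1) ≠ α * (2 * (n : ℝ) + k + 1) := by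
  intro hXY
  set Y : ℝ := 2 * (n : ℝ) + k + 1 with hY
  rw [hXY] at h
  have hk2 : (2 : ℝ) ≤ k := by exact_mod_cast hk
  have hn0 : (0 : ℝ) ≤ n := Nat.cast_nonneg n
  have hYk : (k : ℝ) + 1 ≤ Y := by rw [hY]; linarith
  have hα1 : 1 < α ^ 2 := by nlinarith
  have h1 : (α ^ 2) ^ k * ∏ i ∈ range k, (Y ^ 2 - ((k : ℝ) - 1 - 2 * i) ^ 2)
      = ∏ i ∈ range k, (α ^ 2 * (Y ^ 2 - ((k : ℝ) - 1 - 2 * i) ^ 2)) := by
    rw [prod_mul_distrib, prod_const, card_range]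
  rw [h1] at h
  have h2 : ∏ i ∈ range k, (α ^ 2 * (Y ^ 2 - ((k : ℝ) - 1 - 2 * i) ^ 2))
      < ∏ i ∈ range k, ((α * Y) ^ 2 - ((k : ℝ) - 1 - 2 * i) ^ 2) := by
    apply prod_lt_prod
    · intro i hi
      have h3 := smallk_t_sq (mem_range.1 hi)
      have h4 : 0 < Y ^ 2 - ((k : ℝ) - 1 - 2 * i) ^ 2 := by nlinarith
      positivity
    · intro i _
      nlinarith [sq_nonneg ((k : ℝ) - 1 - 2 * i)]
    · refine ⟨0, mem_range.2 (by omega), ?_⟩
      have h5 : (0 : ℝ) < ((k : ℝ) - 1 - 2 * ((0 : ℕ) : ℝ)) ^ 2 := by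
        have : (0 : ℝ) < (k : ℝ) - 1 - 2 * ((0 : ℕ) : ℝ) := by
          rw [Nat.cast_zero]; linarith
        positivity
      nlinarith
  exact absurd h h2.ne'

/-- sparse sets -/
private theorem smallk_sparse (S : ℕ → Prop) (n0 H : ℕ) (hH : 0 < H)
    (h : ∀ n n', n0 ≤ n → n < n' → n' ≤ n + H → S n → ¬ S n') (N : ℕ) :
    cnt N S ≤ n0 + (N / H + 1) := by
  classical
  have h1 : cnt N S ≤ cnt N (fun n => n < n0) + cnt N (fun n => S n ∧ n0 ≤ n) := by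
    refine le_trans (cnt_mono (Q' := fun n => n < n0 ∨ (S n ∧ n0 ≤ n)) ?_) (cnt_or_le N _ _)
    intro n _ hn
    rcases lt_or_ge n n0 with h' | h'
    · exact Or.inl h'
    · exact Or.inr ⟨hn, h'⟩
  refine h1.trans (Nat.add_le_add (cnt_lt_le N n0) ?_)
  unfold cnt
  rw [← card_range (N / H + 1)]
  apply card_le_card_of_injOn (fun n => n / H)
  · intro n hn
    simp only [coe_filter, mem_range, Set.mem_ofPred_eq] at hn
    simp only [coe_range, Set.mem_Iio]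
    exact Nat.lt_succ_of_le (Nat.div_le_div_right hn.1.le)
  · intro n hn n' hn' heq
    simp only [coe_filter, mem_range, Set.mem_ofPred_eq] at hn hn'
    simp only at heq
    have e1 := Nat.div_add_mod n H
    have e2 := Nat.div_add_mod n' H
    have l1 := Nat.mod_lt n hH
    have l2 := Nat.mod_lt n' hH
    rw [heq] at e1
    rcases lt_trichotomy n n' with hlt | heq' | hgt
    · exact absurd hn'.2.1 (h n n' hn.2.2 hlt (by omega) hn.2.1)
    · exact heq'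
    · exact absurd hn.2.1 (h n' n hn'.2.2 hgt (by omega) hn'.2.1)

private theorem smallk_sparse' (S : ℕ → Prop)
    (h : ∀ H : ℕ, 0 < H → ∃ n0, ∀ n n', n0 ≤ n → n < n' → n' ≤ n + H → S n → ¬ S n')
    (η : ℝ) (hη : 0 < η) : ∃ N0 : ℕ, ∀ N : ℕ, N0 ≤ N → (cnt N S : ℝ) ≤ η * N := by
  obtain ⟨H, hH⟩ := exists_nat_gt (2 / η)
  have hHr : (0 : ℝ) < H := lt_trans (by positivity) hH
  have hH0 : 0 < H := by exact_mod_cast hHr
  obtain ⟨n0, hn0⟩ := h H hH0
  obtain ⟨N0, hN0⟩ := exists_nat_gt (2 * ((n0 : ℝ) + 1) / η)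
  refine ⟨N0, fun N hN => ?_⟩
  have h1 := smallk_sparse S n0 H hH0 hn0 N
  have h2 : (cnt N S : ℝ) ≤ n0 + ((N / H : ℕ) + 1) := by exact_mod_cast h1
  have h3 : ((N / H : ℕ) : ℝ) ≤ (N : ℝ) / H := Nat.cast_div_le
  have h4 : (N : ℝ) / H ≤ η / 2 * N := by
    rw [div_le_iff₀ hHr]
    have h5 : 2 < H * η := by rwa [div_lt_iff₀ hη] at hH
    have h6 : (0 : ℝ) ≤ N := Nat.cast_nonneg N
    nlinarith
  have h7 : (n0 : ℝ) + 1 ≤ η / 2 * N := by
    have h8 : (N0 : ℝ) ≤ N := by exact_mod_cast hN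
    rw [div_lt_iff₀ hη] at hN0
    nlinarith
  linarith

private theorem smallk_pairset (k d d' : ℕ) (hk : 2 ≤ k) (hd' : 0 < d') (hdd : d' < d)
    (η : ℝ) (hη : 0 < η) : ∃ N0 : ℕ, ∀ N : ℕ, N0 ≤ N →
    (cnt N (fun n => ∃ m : ℕ, d' * smallk_P m k = d * smallk_P n k) : ℝ) ≤ η * N := by
  apply smallk_sparse' _ _ η hη
  intro H hH
  have hd'r : (0 : ℝ) < d' := by exact_mod_cast hd'
  have hratio : (1 : ℝ) < (d : ℝ) / d' := by
    rw [one_lt_div hd'r]
    exact_mod_cast hdd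
  have hk0 : k ≠ 0 := by omega
  obtain ⟨α, hα0, hαk⟩ : ∃ α : ℝ, 0 ≤ α ∧ α ^ k = (d : ℝ) / d' :=
    ⟨((d : ℝ) / d') ^ ((k : ℝ)⁻¹), by positivity, Real.rpow_inv_natCast_pow (by positivity) hk0⟩
  have hα : 1 < α := by
    by_contra hcon
    have : α ^ k ≤ 1 := pow_le_one₀ hα0 (not_lt.1 hcon)
    linarith
  have hαpos : 0 < α := by linarith
  set c : ℝ := α ^ 2 * ((k : ℝ) - 1) ^ 2 with hc
  have hc0 : 0 ≤ c := by positivity
  by_cases hirr : Irrational α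
  · -- irrational case
    have hdist : ∀ h ∈ Icc 1 H, 0 < |2 * (h : ℝ) * α - round (2 * (h : ℝ) * α)| := by
      intro h hh
      rw [mem_Icc] at hh
      have h1 : Irrational (2 * (h : ℝ) * α) := by
        have : ((2 * h : ℕ) : ℝ) * α = 2 * (h : ℝ) * α := by push_cast; ring
        rw [← this]
        exact hirr.natCast_mul (by omega)
      rw [abs_pos, sub_ne_zero]
      exact h1.ne_int _
    obtain ⟨δ, hδ0, hδ⟩ : ∃ δ : ℝ, 0 < δ ∧ ∀ h ∈ Icc 1 H,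
        δ ≤ |2 * (h : ℝ) * α - round (2 * (h : ℝ) * α)| := by
      refine ⟨(Icc 1 H).inf' ⟨1, mem_Icc.2 ⟨le_rfl, hH⟩⟩
        (fun h : ℕ => |2 * (h : ℝ) * α - round (2 * (h : ℝ) * α)|), ?_, ?_⟩
      · rw [lt_inf'_iff]
        exact hdist
      · intro h hh
        exact inf'_le _ hh
    obtain ⟨n0, hn0⟩ := exists_nat_gt (2 * c / δ)
    refine ⟨n0, ?_⟩
    rintro n n' hn hlt hle ⟨m, hm⟩ ⟨m', hm'⟩
    have e1 := smallk_close hk hα (smallk_est hk hd' hm hαpos hαk)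
    have e2 := smallk_close hk hα (smallk_est hk hd' hm' hαpos hαk)
    rw [← hc] at e1 e2
    have hh : n' - n ∈ Icc 1 H := mem_Icc.2 ⟨by omega, by omega⟩
    have hd := hδ _ hh
    have hcast : ((n' - n : ℕ) : ℝ) = (n' : ℝ) - n := by rw [Nat.cast_sub hlt.le]
    have hround := round_le (2 * ((n' - n : ℕ) : ℝ) * α) (2 * (m' : ℤ) - 2 * (m : ℤ))
    have hnn : (n0 : ℝ) ≤ n := by exact_mod_cast hn
    have hnn' : (n : ℝ) ≤ n' := by exact_mod_cast hlt.le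
    have hn0' : (0 : ℝ) ≤ n0 := Nat.cast_nonneg n0
    have hkr : (2 : ℝ) ≤ k := by exact_mod_cast hk
    have hY : (n0 : ℝ) < 2 * (n : ℝ) + k + 1 := by linarith
    have hY' : (n0 : ℝ) < 2 * (n' : ℝ) + k + 1 := by linarith
    have hn0pos : 0 ≤ 2 * c / δ := by positivity
    have b1 : c / (2 * (n : ℝ) + k + 1) < δ / 2 := by
      rw [div_lt_iff₀ (by linarith)]
      rw [div_lt_iff₀ hδ0] at hn0
      nlinarith
    have b2 : c / (2 * (n' : ℝ) + k + 1) < δ / 2 := by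
      rw [div_lt_iff₀ (by linarith)]
      rw [div_lt_iff₀ hδ0] at hn0
      nlinarith
    have tri : |2 * ((n' - n : ℕ) : ℝ) * α - ((2 * (m' : ℤ) - 2 * (m : ℤ) : ℤ) : ℝ)| < δ := by
      rw [hcast]
      push_cast
      rw [abs_lt]
      rw [abs_le] at e1 e2
      constructor <;> nlinarith [e1.1, e1.2, e2.1, e2.2]
    exact absurd (lt_of_le_of_lt (hd.trans hround) tri) (lt_irrefl _)
  · -- rational case
    rw [Irrational, not_not] at hirr
    obtain ⟨r, hr⟩ := hirr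
    obtain ⟨n0, hn0⟩ := exists_nat_gt (c * r.den)
    refine ⟨n0, ?_⟩
    rintro n n' hn _ _ ⟨m, hm⟩
    exfalso
    have e0 := smallk_est hk hd' hm hαpos hαk
    have e1 := smallk_close hk hα e0
    have e2 := smallk_ne hk hα e0
    rw [← hc] at e1
    have hnn : (n0 : ℝ) ≤ n := by exact_mod_cast hn
    have hn0' : (0 : ℝ) ≤ n0 := Nat.cast_nonneg n0
    have hkr : (2 : ℝ) ≤ k := by exact_mod_cast hk
    have hY : (n0 : ℝ) < 2 * (n : ℝ) + k + 1 := by linarith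
    have hden : (0 : ℝ) < r.den := by exact_mod_cast r.den_pos
    have hαr : α * r.den = r.num := by
      rw [← hr]
      exact_mod_cast Rat.mul_den_eq_num r
    -- the integer den * X - num * Y
    set z : ℤ := (r.den : ℤ) * (2 * (m : ℤ) + k + 1) - r.num * (2 * (n : ℤ) + k + 1) with hz
    have hzr : (z : ℝ) = r.den * ((2 * (m : ℝ) + k + 1) - α * (2 * (n : ℝ) + k + 1)) := by
      rw [hz]
      push_cast
      rw [← hαr]
      ring
    have hzabs : |(z : ℝ)| < 1 := by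
      rw [hzr, abs_mul, abs_of_pos hden]
      calc (r.den : ℝ) * |(2 * (m : ℝ) + k + 1) - α * (2 * (n : ℝ) + k + 1)|
          ≤ r.den * (c / (2 * (n : ℝ) + k + 1)) := mul_le_mul_of_nonneg_left e1 hden.le
        _ = c * r.den / (2 * (n : ℝ) + k + 1) := by ring
        _ < 1 := by
          rw [div_lt_one (by linarith)]
          linarith
    have hz0 : z = 0 := by
      have h1 : |z| < 1 := by exact_mod_cast hzabs
      exact Int.abs_lt_one_iff.1 h1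
    rw [hz0] at hzr
    push_cast at hzr
    have := (mul_eq_zero.1 hzr.symm).resolve_left hden.ne'
    exact e2 (by linarith)

private theorem smallk_union (s : Finset (ℕ × ℕ)) (Q : ℕ × ℕ → ℕ → Prop)
    (h : ∀ p ∈ s, ∀ η : ℝ, 0 < η → ∃ N0 : ℕ, ∀ N : ℕ, N0 ≤ N → (cnt N (Q p) : ℝ) ≤ η * N) :
    ∀ η : ℝ, 0 < η → ∃ N0 : ℕ, ∀ N : ℕ, N0 ≤ N →
      (cnt N (fun n => ∃ p ∈ s, Q p n) : ℝ) ≤ η * N := by
  classical
  induction s using Finset.induction_on with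
  | empty =>
    intro η hη
    refine ⟨0, fun N _ => ?_⟩
    rw [cnt_eq_zero (by simp)]
    simp only [Nat.cast_zero]
    positivity
  | insert a s ha ih =>
    intro η hη
    obtain ⟨N1, hN1⟩ := h a (mem_insert_self a s) (η / 2) (by linarith)
    obtain ⟨N2, hN2⟩ := ih (fun p hp => h p (mem_insert_of_mem hp)) (η / 2) (by linarith)
    refine ⟨max N1 N2, fun N hN => ?_⟩
    have h1 := hN1 N (le_trans (le_max_left _ _) hN)
    have h2 := hN2 N (le_trans (le_max_right _ _) hN)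
    have h3 : cnt N (fun n => ∃ p ∈ insert a s, Q p n) ≤
        cnt N (Q a) + cnt N (fun n => ∃ p ∈ s, Q p n) := by
      refine le_trans (cnt_mono (Q' := fun n => Q a n ∨ ∃ p ∈ s, Q p n) ?_) (cnt_or_le N _ _)
      rintro n _ ⟨p, hp, hpn⟩
      rcases mem_insert.1 hp with rfl | hp
      · exact Or.inl hpn
      · exact Or.inr ⟨p, hp, hpn⟩
    have h4 : (cnt N (fun n => ∃ p ∈ insert a s, Q p n) : ℝ) ≤
        cnt N (Q a) + cnt N (fun n => ∃ p ∈ s, Q p n) := by exact_mod_cast h3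
    linarith

theorem small_k (k : ℕ) (hk : 0 < k) (η : ℝ) (hη : 0 < η) : ∃ N0 : ℕ, ∀ N : ℕ, N0 ≤ N →
    (cnt N (fun n => ∃ m : ℕ, Sol n k m) : ℝ) ≤ η * N := by
  classical
  rcases Nat.lt_or_ge k 2 with hk1 | hk2
  · refine ⟨0, fun N _ => ?_⟩
    rw [cnt_eq_zero]
    · simp only [Nat.cast_zero]
      positivity
    · rintro n _ ⟨m, hm⟩
      obtain ⟨d, d', hd, hd', hd'0, hlt, _⟩ := smallk_pair hm
      have hk' : k = 1 := by omega
      rw [hk', Nat.factorial_one, Nat.dvd_one] at hd hd'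
      omega
  · obtain ⟨N0, hN0⟩ := smallk_union
      (((k.factorial.divisors) ×ˢ (k.factorial.divisors)).filter (fun p => 0 < p.2 ∧ p.2 < p.1))
      (fun p n => ∃ m : ℕ, p.2 * smallk_P m k = p.1 * smallk_P n k)
      (fun p hp η' hη' => by
        rw [mem_filter] at hp
        exact smallk_pairset k p.1 p.2 hk2 hp.2.1 hp.2.2 η' hη') η hη
    refine ⟨N0, fun N hN => le_trans ?_ (hN0 N hN)⟩
    have : cnt N (fun n => ∃ m : ℕ, Sol n k m) ≤ cnt N (fun n => ∃ p ∈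
        (((k.factorial.divisors) ×ˢ (k.factorial.divisors)).filter (fun p => 0 < p.2 ∧ p.2 < p.1)),
        ∃ m : ℕ, p.2 * smallk_P m k = p.1 * smallk_P n k) := by
      apply cnt_mono
      rintro n _ ⟨m, hm⟩
      obtain ⟨d, d', hd, hd', hd'0, hlt, heq⟩ := smallk_pair hm
      refine ⟨(d, d'), mem_filter.2 ⟨mem_product.2 ⟨?_, ?_⟩, hd'0, hlt⟩, m, heq⟩
      · exact Nat.mem_divisors.2 ⟨hd, (Nat.factorial_pos k).ne'⟩
      · exact Nat.mem_divisors.2 ⟨hd', (Nat.factorial_pos k).ne'⟩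
    exact_mod_cast this

end Pool.Agent.H3.LC
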