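import Pool.Agent.H3.LC.RangeA
import Pool.Agent.H3.LC.RangeB
import Pool.Agent.H3.LC.RangeC
import Pool.Agent.H3.LC.SmallK

/-!
# LC Main
-/

set_option autoImplicit false

open Finset Filter Topology

namespace Pool.Agent.H3.LC

theorem long_blocks (ε : ℝ) (hε : 0 < ε) : ∃ n0 : ℕ, ∀ n : ℕ, n0 ≤ n → ∀ k m : ℕ,
    (n : ℝ) ^ (1 / 2 + ε) ≤ k → ¬ Sol n k m := by
  obtain ⟨B, n1, h1⟩ := rangeB ε hε
  obtain ⟨n2, h2⟩ := rangeC B
  refine ⟨max n1 n2, fun n hn k m hk => ?_⟩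
  rcases le_or_gt (B * k) n with h | h
  · exact h1 n (le_trans (le_max_left _ _) hn) k m hk h
  · exact h2 n (le_trans (le_max_right _ _) hn) k m h.le

theorem small_ks (K : ℕ) (η : ℝ) (hη : 0 < η) : ∃ N0 : ℕ, ∀ N : ℕ, N0 ≤ N →
    (cnt N (fun n => ∃ k m : ℕ, k < K ∧ Sol n k m) : ℝ) ≤ η * N := by
  induction K generalizing η with
  | zero =>
    refine ⟨0, fun N _ => ?_⟩
    have : cnt N (fun n => ∃ k m : ℕ, k < 0 ∧ Sol n k m) = 0 :=
      cnt_eq_zero (by rintro n _ ⟨k, m, h, _⟩; exact absurd h (Nat.not_lt_zero _))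
    rw [this]
    push_cast
    positivity
  | succ K ih =>
    obtain ⟨N1, h1⟩ := ih (η / 2) (by positivity)
    have hK : ∃ N2 : ℕ, ∀ N : ℕ, N2 ≤ N → (cnt N (fun n => ∃ m : ℕ, Sol n K m) : ℝ) ≤ η / 2 * N := by
      rcases Nat.eq_zero_or_pos K with rfl | hK
      · refine ⟨0, fun N _ => ?_⟩
        have : cnt N (fun n => ∃ m : ℕ, Sol n 0 m) = 0 :=
          cnt_eq_zero (by rintro n _ ⟨m, h⟩; exact absurd h.1 (lt_irrefl _))
        rw [this]
        push_cast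
        positivity
      · exact small_k K hK (η / 2) (by positivity)
    obtain ⟨N2, h2⟩ := hK
    refine ⟨max N1 N2, fun N hN => ?_⟩
    have e1 := h1 N (le_trans (le_max_left _ _) hN)
    have e2 := h2 N (le_trans (le_max_right _ _) hN)
    have e3 : cnt N (fun n => ∃ k m : ℕ, k < K + 1 ∧ Sol n k m) ≤
        cnt N (fun n => ∃ k m : ℕ, k < K ∧ Sol n k m) + cnt N (fun n => ∃ m : ℕ, Sol n K m) := by
      refine le_trans (cnt_mono ?_) (cnt_or_le N _ _)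
      rintro n _ ⟨k, m, hk, hs⟩
      rcases Nat.lt_succ_iff_lt_or_eq.1 hk with h | rfl
      · exact Or.inl ⟨k, m, h, hs⟩
      · exact Or.inr ⟨m, hs⟩
    have e4 : (cnt N (fun n => ∃ k m : ℕ, k < K + 1 ∧ Sol n k m) : ℝ) ≤
        cnt N (fun n => ∃ k m : ℕ, k < K ∧ Sol n k m) + cnt N (fun n => ∃ m : ℕ, Sol n K m) := by
      exact_mod_cast e3
    linarith

theorem density_zero (η : ℝ) (hη : 0 < η) : ∃ N0 : ℕ, ∀ N : ℕ, N0 ≤ N →
    (cnt N (fun n => ∃ k m : ℕ, Sol n k m) : ℝ) ≤ η * N := by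
  obtain ⟨ε, hε, hε1, K1, N1, hA⟩ := rangeA (η / 4) (by positivity)
  obtain ⟨n0, hB⟩ := long_blocks (ε / 2) (by positivity)
  obtain ⟨N2, hS⟩ := small_ks K1 (η / 4) (by positivity)
  obtain ⟨N3, hN3⟩ := exists_nat_ge (4 * (n0 : ℝ) / η)
  refine ⟨max (max N1 N2) N3, fun N hN => ?_⟩
  have a1 := hA N (le_trans (le_trans (le_max_left _ _) (le_max_left _ _)) hN)
  have a2 := hS N (le_trans (le_trans (le_max_right _ _) (le_max_left _ _)) hN)
  have a3 : (n0 : ℝ) ≤ η / 4 * N := by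
    have h1 : 4 * (n0 : ℝ) / η ≤ N := hN3.trans (by exact_mod_cast le_trans (le_max_right _ _) hN)
    rw [div_le_iff₀ hη] at h1
    linarith
  have e3 : cnt N (fun n => ∃ k m : ℕ, Sol n k m) ≤
      cnt N (fun n => ∃ k m : ℕ, K1 ≤ k ∧ (k : ℝ) ≤ (N : ℝ) ^ (1 / 2 + ε / 2) ∧ Sol n k m) +
        (cnt N (fun n => ∃ k m : ℕ, k < K1 ∧ Sol n k m) + cnt N (fun n => n < n0)) := by
    refine le_trans (cnt_mono ?_) (le_trans (cnt_or_le N _ _) (Nat.add_le_add_left (cnt_or_le N _ _) _))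
    rintro n hn ⟨k, m, hs⟩
    rcases lt_or_ge n n0 with h | h
    · exact Or.inr (Or.inr h)
    rcases lt_or_ge k K1 with h' | h'
    · exact Or.inr (Or.inl ⟨k, m, h', hs⟩)
    · refine Or.inl ⟨k, m, h', ?_, hs⟩
      by_contra hcon
      rw [not_le] at hcon
      refine hB n h k m ?_ hs
      refine le_trans ?_ hcon.le
      exact Real.rpow_le_rpow (Nat.cast_nonneg _) (by exact_mod_cast hn.le) (by positivity)
  have a4 : (cnt N (fun n => n < n0) : ℝ) ≤ n0 := by exact_mod_cast cnt_lt_le N n0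
  have e4 : (cnt N (fun n => ∃ k m : ℕ, Sol n k m) : ℝ) ≤
      cnt N (fun n => ∃ k m : ℕ, K1 ≤ k ∧ (k : ℝ) ≤ (N : ℝ) ^ (1 / 2 + ε / 2) ∧ Sol n k m) +
        (cnt N (fun n => ∃ k m : ℕ, k < K1 ∧ Sol n k m) + cnt N (fun n => n < n0)) := by
    exact_mod_cast e3
  have hN0 : (0 : ℝ) ≤ N := Nat.cast_nonneg _
  nlinarith

end Pool.Agent.H3.LC
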