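import Pool.Agent.H3.LC.Mertens
import Pool.Agent.H3.LC.Arith

/-!
# LC MassLow: lower bound for the mass of the primes above `k`, all `n` (no exceptions)

Let `(n', n'+k'] ⊆ (n, n+k]`, `k ≥ n^(1/2+ε)`, `n ≥ n0(ε)`.  For `x` in it, `x ≤ 2n < k²`, so no square of a prime `p > k` divides `x` and
`log x = ms k x + ∑_{p ≤ k} v_p(x) log p` (`v_p(x) log p = ∑_{a ≥ 1, p^a ∣ x} log p`).  Sum over the block:
`k' log n ≤ ∑ log x = ∑ ms k x + ∑_{p ≤ k} ∑_{a ≥ 1, p^a ≤ 2n} log p #{x : p^a ∣ x}` and `#{x : p^a ∣ x} ≤ k'/p^a + 1`.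
`∑_{p ≤ k} ∑_a log p k'/p^a ≤ k' ∑_{p ≤ k} log p/p + k' ∑_p 2 log p/p² ≤ k' (log k + C)`, and the `+1` contribute
`∑_{p ≤ k} log(2n) = π(k) log(2n) ≤ C (k / log k) log(2n) ≤ C' k` (`cheb_pi`, `log(2n) ≤ 4 log k`).  Note `k' ≤ k`.
-/

set_option autoImplicit false

open Finset

namespace Pool.Agent.H3.LC

theorem massLow_fact_le {p x N : ℕ} (hp : p.Prime) (hx0 : x ≠ 0) (hx : x ≤ N) :
    x.factorization p ≤ ((Icc 1 (Nat.log p N)).filter (fun i => p ^ i ∣ x)).card := by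
  rw [Nat.factorization_eq_card_pow_dvd x hp]
  refine card_le_card fun i hi => ?_
  rw [mem_filter, mem_Ico] at hi
  rw [mem_filter, mem_Icc]
  refine ⟨⟨hi.1.1, ?_⟩, hi.2⟩
  refine Nat.le_log_of_pow_le hp.one_lt ?_
  exact (Nat.le_of_dvd (Nat.pos_of_ne_zero hx0) hi.2).trans hx

theorem massLow_geom {p L : ℕ} (hp : 2 ≤ p) :
    ∑ i ∈ Icc 1 L, (1 : ℝ) / (p : ℝ) ^ i ≤ 1 / ((p : ℝ) - 1) := by
  have hp' : (2 : ℝ) ≤ (p : ℝ) := by exact_mod_cast hp
  have key : ∀ L : ℕ, ∑ i ∈ Icc 1 L, (1 : ℝ) / (p : ℝ) ^ i = (1 - 1 / (p : ℝ) ^ L) / ((p : ℝ) - 1) := by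
    intro L
    induction L with
    | zero => simp
    | succ L ih =>
      rw [Finset.sum_Icc_succ_top (by omega), ih]
      have h1 : (p : ℝ) - 1 ≠ 0 := by linarith
      have h2 : (p : ℝ) ≠ 0 := by linarith
      field_simp
      ring
  rw [key]
  refine div_le_div_of_nonneg_right ?_ (by linarith)
  have : (0 : ℝ) ≤ 1 / (p : ℝ) ^ L := by positivity
  linarith

/-- total valuation of a block -/
theorem massLow_sum_fact {p n' k' N : ℕ} (hp : p.Prime) (hN : n' + k' ≤ N) (hN0 : N ≠ 0) :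
    (∑ x ∈ Icc (n' + 1) (n' + k'), (x.factorization p : ℝ)) * Real.log p ≤
      (k' : ℝ) * (Real.log p / ((p : ℝ) - 1)) + Real.log N := by
  have h1 : ∑ x ∈ Icc (n' + 1) (n' + k'), x.factorization p ≤
      ∑ i ∈ Icc 1 (Nat.log p N), (k' / p ^ i + 1) := by
    calc ∑ x ∈ Icc (n' + 1) (n' + k'), x.factorization p
        ≤ ∑ x ∈ Icc (n' + 1) (n' + k'), ((Icc 1 (Nat.log p N)).filter (fun i => p ^ i ∣ x)).card :=
          sum_le_sum fun x hx => massLow_fact_le hp (by rw [mem_Icc] at hx; omega)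
            (by rw [mem_Icc] at hx; omega)
      _ = ∑ i ∈ Icc 1 (Nat.log p N), ((Icc (n' + 1) (n' + k')).filter (fun x => p ^ i ∣ x)).card := by
          simp only [card_filter]
          rw [sum_comm]
      _ ≤ _ := sum_le_sum fun i _ => card_multiples_le n' k' (pow_pos hp.pos i)
  have h2 : (∑ x ∈ Icc (n' + 1) (n' + k'), (x.factorization p : ℝ)) ≤
      (k' : ℝ) * (1 / ((p : ℝ) - 1)) + (Nat.log p N : ℝ) := by
    calc (∑ x ∈ Icc (n' + 1) (n' + k'), (x.factorization p : ℝ))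
        = ((∑ x ∈ Icc (n' + 1) (n' + k'), x.factorization p : ℕ) : ℝ) := by push_cast; rfl
      _ ≤ ((∑ i ∈ Icc 1 (Nat.log p N), (k' / p ^ i + 1) : ℕ) : ℝ) := by exact_mod_cast h1
      _ = ∑ i ∈ Icc 1 (Nat.log p N), (((k' / p ^ i : ℕ) : ℝ) + 1) := by push_cast; rfl
      _ ≤ ∑ i ∈ Icc 1 (Nat.log p N), ((k' : ℝ) * (1 / (p : ℝ) ^ i) + 1) := by
          refine sum_le_sum fun i _ => ?_
          have := @Nat.cast_div_le ℝ _ _ _ k' (p ^ i)
          push_cast at this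
          rw [mul_one_div]
          linarith
      _ = (k' : ℝ) * ∑ i ∈ Icc 1 (Nat.log p N), (1 : ℝ) / (p : ℝ) ^ i + (Nat.log p N : ℝ) := by
          rw [sum_add_distrib, ← mul_sum]
          simp
      _ ≤ _ := by
          have := massLow_geom (L := Nat.log p N) hp.two_le
          have hk : (0 : ℝ) ≤ (k' : ℝ) := Nat.cast_nonneg _
          nlinarith
  have hlog : (0 : ℝ) ≤ Real.log p := Real.log_natCast_nonneg p
  have h3 : (Nat.log p N : ℝ) * Real.log p ≤ Real.log N := by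
    have h4 : p ^ Nat.log p N ≤ N := Nat.pow_log_le_self p hN0
    have h5 : Real.log ((p : ℝ) ^ Nat.log p N) ≤ Real.log N := by
      refine Real.log_le_log (pow_pos (by exact_mod_cast hp.pos) _) ?_
      exact_mod_cast h4
    rwa [Real.log_pow] at h5
  calc (∑ x ∈ Icc (n' + 1) (n' + k'), (x.factorization p : ℝ)) * Real.log p
      ≤ ((k' : ℝ) * (1 / ((p : ℝ) - 1)) + (Nat.log p N : ℝ)) * Real.log p :=
        mul_le_mul_of_nonneg_right h2 hlog
    _ = (k' : ℝ) * (Real.log p / ((p : ℝ) - 1)) + (Nat.log p N : ℝ) * Real.log p := by ring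
    _ ≤ _ := by linarith

/-- the sum of `log p / (p - 1)` -/
theorem massLow_mertens : ∃ C : ℝ, 0 < C ∧ ∀ k : ℕ, 1 ≤ k →
    ∑ p ∈ (Icc 1 k).filter Nat.Prime, Real.log p / ((p : ℝ) - 1) ≤ Real.log k + C := by
  obtain ⟨C1, hC1, h1⟩ := mertens
  have hsum : Summable (fun m : ℕ => 4 * ((m : ℝ) ^ (3 / 2 : ℝ))⁻¹) :=
    (Real.summable_nat_rpow_inv.2 (by norm_num)).mul_left 4
  refine ⟨C1 + ∑' m : ℕ, 4 * ((m : ℝ) ^ (3 / 2 : ℝ))⁻¹, ?_, fun k hk => ?_⟩
  · have : 0 ≤ ∑' m : ℕ, 4 * ((m : ℝ) ^ (3 / 2 : ℝ))⁻¹ := tsum_nonneg fun m => by positivity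
    linarith
  · have h2 : ∀ p ∈ (Icc 1 k).filter Nat.Prime, Real.log p / ((p : ℝ) - 1) ≤
        Real.log p / p + 4 * ((p : ℝ) ^ (3 / 2 : ℝ))⁻¹ := by
      intro p hp
      have hpp : p.Prime := (mem_filter.1 hp).2
      have hp2 : (2 : ℝ) ≤ (p : ℝ) := by exact_mod_cast hpp.two_le
      have hp0 : (0 : ℝ) < (p : ℝ) := by linarith
      have h3 : Real.log p / ((p : ℝ) - 1) = Real.log p / p + Real.log p / (p * ((p : ℝ) - 1)) := by
        have : (p : ℝ) - 1 ≠ 0 := by linarith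
        field_simp
        ring
      rw [h3]
      have h4 : Real.log p ≤ 2 * (p : ℝ) ^ (1 / 2 : ℝ) := by
        have h5 := Real.log_le_rpow_div hp0.le (show (0 : ℝ) < 1 / 2 by norm_num)
        linarith
      have h6 : (p : ℝ) / 2 ≤ (p : ℝ) - 1 := by linarith
      have h7 : Real.log p / (p * ((p : ℝ) - 1)) ≤ 2 * (p : ℝ) ^ (1 / 2 : ℝ) / (p * (p / 2)) := by
        have hr : (0 : ℝ) ≤ 2 * (p : ℝ) ^ (1 / 2 : ℝ) := by positivity
        refine div_le_div₀ hr h4 (by positivity) ?_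
        exact mul_le_mul_of_nonneg_left h6 hp0.le
      have h8 : 2 * (p : ℝ) ^ (1 / 2 : ℝ) / (p * (p / 2)) = 4 * ((p : ℝ) ^ (3 / 2 : ℝ))⁻¹ := by
        have h9 : (p : ℝ) ^ (1 / 2 : ℝ) * (p : ℝ) ^ (3 / 2 : ℝ) = (p : ℝ) * p := by
          rw [← Real.rpow_add hp0]
          norm_num
          ring
        have h10 : (p : ℝ) ^ (3 / 2 : ℝ) ≠ 0 := (Real.rpow_pos_of_pos hp0 _).ne'
        field_simp
        nlinarith
      linarith
    calc ∑ p ∈ (Icc 1 k).filter Nat.Prime, Real.log p / ((p : ℝ) - 1)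
        ≤ ∑ p ∈ (Icc 1 k).filter Nat.Prime, (Real.log p / p + 4 * ((p : ℝ) ^ (3 / 2 : ℝ))⁻¹) :=
          sum_le_sum h2
      _ = ∑ p ∈ (Icc 1 k).filter Nat.Prime, Real.log p / p +
          ∑ p ∈ (Icc 1 k).filter Nat.Prime, 4 * ((p : ℝ) ^ (3 / 2 : ℝ))⁻¹ := sum_add_distrib
      _ ≤ (Real.log k + C1) + ∑' m : ℕ, 4 * ((m : ℝ) ^ (3 / 2 : ℝ))⁻¹ := by
          refine add_le_add ?_ ?_
          · have := (abs_le.1 (h1 k hk)).2
            linarith
          · exact hsum.sum_le_tsum _ fun m _ => by positivity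
      _ = _ := by ring

/-- decomposition of `log x` -/
theorem massLow_log {x k : ℕ} (hx0 : x ≠ 0) (hx : x < k ^ 2) :
    Real.log x ≤ ms k x + ∑ p ∈ (Icc 1 k).filter Nat.Prime, (x.factorization p : ℝ) * Real.log p := by
  have h1 : Real.log x = ∑ p ∈ x.primeFactors, (x.factorization p : ℝ) * Real.log p := by
    rw [Real.log_nat_eq_sum_factorization, Finsupp.sum, Nat.support_factorization]
  rw [h1, ← sum_filter_add_sum_filter_not x.primeFactors (fun p : ℕ => (k : ℝ) < (p : ℝ))]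
  refine add_le_add ?_ ?_
  · unfold ms big
    refine sum_le_sum fun p hp => ?_
    rw [mem_filter] at hp
    have hpp := Nat.prime_of_mem_primeFactors hp.1
    have hkp : k < p := by exact_mod_cast hp.2
    have h2 : x.factorization p ≤ 1 := by
      by_contra hcon
      push Not at hcon
      have h3 : p ^ 2 ∣ x := (hpp.pow_dvd_iff_le_factorization hx0).2 hcon
      have h4 := Nat.le_of_dvd (Nat.pos_of_ne_zero hx0) h3
      have h5 : k ^ 2 < p ^ 2 := Nat.pow_lt_pow_left hkp (by norm_num)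
      omega
    have h6 : (x.factorization p : ℝ) ≤ 1 := by exact_mod_cast h2
    have := Real.log_natCast_nonneg p
    nlinarith
  · refine sum_le_sum_of_subset_of_nonneg ?_ ?_
    · intro p hp
      rw [mem_filter] at hp
      have hpp := Nat.prime_of_mem_primeFactors hp.1
      rw [mem_filter, mem_Icc]
      refine ⟨⟨hpp.pos, ?_⟩, hpp⟩
      have := hp.2
      push Not at this
      exact_mod_cast this
    · intro p _ _
      have := Real.log_natCast_nonneg p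
      positivity

theorem mass_lower (ε : ℝ) (hε : 0 < ε) : ∃ C : ℝ, 0 < C ∧ ∃ n0 : ℕ, ∀ n : ℕ, n0 ≤ n → ∀ k n' k' : ℕ,
    (n : ℝ) ^ (1 / 2 + ε) ≤ k → k ≤ n → n ≤ n' → n' + k' ≤ n + k →
    (k' : ℝ) * (Real.log n - Real.log k) - C * k ≤ ∑ x ∈ Icc (n' + 1) (n' + k'), ms k x := by
  obtain ⟨C1, hC1, h1⟩ := massLow_mertens
  obtain ⟨C2, hC2, h2⟩ := cheb_pi
  -- `n ^ (2 ε) > 2` for large `n`
  have htend : Filter.Tendsto (fun n : ℕ => (n : ℝ) ^ (2 * ε)) Filter.atTop Filter.atTop :=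
    (tendsto_rpow_atTop (by linarith : 0 < 2 * ε)).comp tendsto_natCast_atTop_atTop
  obtain ⟨n1, hn1⟩ := Filter.eventually_atTop.1 (htend.eventually_gt_atTop 2)
  refine ⟨C1 + 4 * C2, by linarith, max n1 4, fun n hn k n' k' hk hkn hnn' hblock => ?_⟩
  have hnn1 : n1 ≤ n := (le_max_left _ _).trans hn
  have hn4 : 4 ≤ n := (le_max_right _ _).trans hn
  have hn4' : (4 : ℝ) ≤ (n : ℝ) := by exact_mod_cast hn4
  have hn0 : (0 : ℝ) < (n : ℝ) := by linarith
  have hk'k : k' ≤ k := by omega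
  have hk'k' : (k' : ℝ) ≤ (k : ℝ) := by exact_mod_cast hk'k
  -- `√n ≤ k`
  have hsq : (n : ℝ) ^ (1 / 2 : ℝ) ≤ (k : ℝ) := by
    refine le_trans ?_ hk
    exact Real.rpow_le_rpow_of_exponent_le (by linarith) (by linarith)
  have hk2 : (2 : ℝ) ≤ (k : ℝ) := by
    refine le_trans ?_ hsq
    have h3 : (2 : ℝ) = (4 : ℝ) ^ (1 / 2 : ℝ) := by
      rw [show (4 : ℝ) = 2 ^ (2 : ℝ) by norm_num, ← Real.rpow_mul (by norm_num)]
      norm_num
    calc (2 : ℝ) = (4 : ℝ) ^ (1 / 2 : ℝ) := h3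
      _ ≤ (n : ℝ) ^ (1 / 2 : ℝ) := Real.rpow_le_rpow (by norm_num) hn4' (by norm_num)
  have hk2' : 2 ≤ k := by exact_mod_cast hk2
  -- `2 n < k ^ 2`
  have hkk : 2 * n < k ^ 2 := by
    have h3 : (n : ℝ) ^ (1 / 2 + ε) * (n : ℝ) ^ (1 / 2 + ε) ≤ (k : ℝ) * k :=
      mul_le_mul hk hk (Real.rpow_nonneg hn0.le _) (by linarith)
    rw [← Real.rpow_add hn0] at h3
    have h4 : (n : ℝ) ^ (1 / 2 + ε + (1 / 2 + ε)) = (n : ℝ) * (n : ℝ) ^ (2 * ε) := by
      rw [show (1 / 2 + ε + (1 / 2 + ε) : ℝ) = 1 + 2 * ε by ring, Real.rpow_add hn0, Real.rpow_one]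
    rw [h4] at h3
    have h5 := hn1 n hnn1
    have h6 : (2 : ℝ) * n < (k : ℝ) ^ 2 := by nlinarith
    exact_mod_cast h6
  -- sum of the decompositions
  have hdec : ∑ x ∈ Icc (n' + 1) (n' + k'), Real.log (x : ℝ) ≤
      ∑ x ∈ Icc (n' + 1) (n' + k'), ms k x +
        ∑ p ∈ (Icc 1 k).filter Nat.Prime, ((k' : ℝ) * (Real.log p / ((p : ℝ) - 1)) + Real.log (2 * n : ℕ)) := by
    calc ∑ x ∈ Icc (n' + 1) (n' + k'), Real.log (x : ℝ)
        ≤ ∑ x ∈ Icc (n' + 1) (n' + k'), (ms k x +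
            ∑ p ∈ (Icc 1 k).filter Nat.Prime, (x.factorization p : ℝ) * Real.log p) := by
          refine sum_le_sum fun x hx => ?_
          rw [mem_Icc] at hx
          exact massLow_log (by omega) (by omega)
      _ = ∑ x ∈ Icc (n' + 1) (n' + k'), ms k x +
          ∑ p ∈ (Icc 1 k).filter Nat.Prime, (∑ x ∈ Icc (n' + 1) (n' + k'), (x.factorization p : ℝ)) * Real.log p := by
          rw [sum_add_distrib, sum_comm]
          congr 1
          refine sum_congr rfl fun p _ => ?_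
          rw [sum_mul]
      _ ≤ _ := by
          refine add_le_add le_rfl (sum_le_sum fun p hp => ?_)
          exact massLow_sum_fact (mem_filter.1 hp).2 (by omega) (by omega)
  have hlow : (k' : ℝ) * Real.log n ≤ ∑ x ∈ Icc (n' + 1) (n' + k'), Real.log (x : ℝ) := by
    calc (k' : ℝ) * Real.log n = ∑ x ∈ Icc (n' + 1) (n' + k'), Real.log (n : ℝ) := by
          rw [sum_const, Nat.card_Icc, nsmul_eq_mul]
          congr 2
          omega
      _ ≤ _ := by
          refine sum_le_sum fun x hx => ?_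
          rw [mem_Icc] at hx
          refine Real.log_le_log hn0 ?_
          have : n ≤ x := by omega
          exact_mod_cast this
  have hA : ∑ p ∈ (Icc 1 k).filter Nat.Prime, ((k' : ℝ) * (Real.log p / ((p : ℝ) - 1)) + Real.log (2 * n : ℕ)) ≤
      (k' : ℝ) * (Real.log k + C1) + 4 * C2 * k := by
    rw [sum_add_distrib, ← mul_sum, sum_const, nsmul_eq_mul]
    refine add_le_add ?_ ?_
    · exact mul_le_mul_of_nonneg_left (h1 k (by omega)) (Nat.cast_nonneg _)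
    · have h3 := h2 k hk2'
      have hlk : 0 < Real.log k := Real.log_pos (by linarith)
      have h4 : Real.log ((2 * n : ℕ) : ℝ) ≤ 4 * Real.log k := by
        have h5 : Real.log ((n : ℝ) ^ (1 / 2 : ℝ)) ≤ Real.log k :=
          Real.log_le_log (Real.rpow_pos_of_pos hn0 _) hsq
        rw [Real.log_rpow hn0] at h5
        have h6 : Real.log ((2 * n : ℕ) : ℝ) = Real.log 2 + Real.log n := by
          push_cast
          exact Real.log_mul (by norm_num) hn0.ne'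
        have h7 : Real.log 2 ≤ Real.log n := Real.log_le_log (by norm_num) (by linarith)
        linarith
      have h8 : 0 ≤ Real.log ((2 * n : ℕ) : ℝ) := Real.log_natCast_nonneg _
      calc (((Icc 1 k).filter Nat.Prime).card : ℝ) * Real.log ((2 * n : ℕ) : ℝ)
          ≤ (C2 * k / Real.log k) * (4 * Real.log k) :=
            mul_le_mul h3 h4 h8 (by positivity)
        _ = 4 * C2 * k := by
            field_simp
  have hk'0 : (0 : ℝ) ≤ (k' : ℝ) := Nat.cast_nonneg _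
  have hfin : (k' : ℝ) * C1 ≤ k * C1 := mul_le_mul_of_nonneg_right hk'k' hC1.le
  nlinarith

end Pool.Agent.H3.LC
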