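import Pool.Agent.H3.LC.Frac
import Pool.Agent.H3.LC.Spacing

/-!
# LC Ratio: if there are many elements with a large prime factor then there is only one ratio

Take `F` from `exists_frac` and let `R` be the image of `E T n k` under `F`.  (`0 < k ≤ T`.)  The denominators are
`≤ x / p ≤ Z := (n+k)/T`, the values lie in an interval of length `l := 257 k / n` (`frac_interval`).
The fibre of `f ∈ R` consists of multiples of `f.den`, so it has at most `k / f.den + 1` elements
(`card_multiples_le`).  If `R` has at least two elements then by `spacing`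
`card E ≤ ∑_{f ∈ R} (k / f.den + 1) ≤ k * (2 Z l) + 2 Z² l`, a contradiction.  So all `F x` are equal to one `r` (or `E` is empty),
and `F x = y / x` gives `y = r x`.
-/

set_option autoImplicit false

open Finset

namespace Pool.Agent.H3.LC

theorem single_ratio {n k m : ℕ} (hn : 0 < n) (h : Sol n k m) {T : ℝ} (hT : (k : ℝ) ≤ T)
    (hc : (k : ℝ) * (2 * (((n : ℝ) + k) / T) * (257 * (k : ℝ) / n)) +
      2 * (((n : ℝ) + k) / T) ^ 2 * (257 * (k : ℝ) / n) < ((E T n k).card : ℝ)) :
    ∃ r : ℚ, ∀ x ∈ E T n k, ∃ y ∈ Icc (m + 1) (m + k), (y : ℚ) = r * (x : ℚ) := by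
  classical
  obtain ⟨F, hF⟩ := exists_frac h hT
  have hk : 0 < k := h.1
  have hkR : (0 : ℝ) < (k : ℝ) := Nat.cast_pos.2 hk
  have hT0 : 0 < T := lt_of_lt_of_le hkR hT
  have hmem : ∀ x ∈ E T n k, x ∈ Icc (n + 1) (n + k) := fun x hx => (mem_filter.1 hx).1
  have hxpos : ∀ x ∈ E T n k, 0 < x := by
    intro x hx
    have := (mem_Icc.1 (hmem x hx)).1
    omega
  by_cases hcard : 2 ≤ ((E T n k).image F).card
  · exfalso
    set Z : ℝ := ((n : ℝ) + k) / T with hZdef
    set l : ℝ := 257 * (k : ℝ) / n with hldef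
    have hint : ∀ f ∈ (E T n k).image F, ((m : ℝ) + 1) / ((n : ℝ) + k) ≤ (f : ℝ) ∧
        (f : ℝ) ≤ ((m : ℝ) + 1) / ((n : ℝ) + k) + l := by
      intro f hf
      obtain ⟨x, hx, rfl⟩ := mem_image.1 hf
      obtain ⟨y, hy, p, hp, hTp, hpx, hpy, hFx, hden⟩ := hF x hx
      have h1 := frac_interval hn h (hmem x hx) hy
      rw [hFx]
      push_cast
      exact h1
    have hden : ∀ f ∈ (E T n k).image F, (f.den : ℝ) ≤ Z := by
      intro f hf
      obtain ⟨x, hx, rfl⟩ := mem_image.1 hf
      obtain ⟨y, hy, p, hp, hTp, hpx, hpy, hFx, hden⟩ := hF x hx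
      rw [hZdef, le_div_iff₀ hT0]
      have h1 : (F x).den * p ≤ x := Nat.le_of_dvd (hxpos x hx) hden
      have h2 : x ≤ n + k := (mem_Icc.1 (hmem x hx)).2
      have h3 : (((F x).den * p : ℕ) : ℝ) ≤ ((n + k : ℕ) : ℝ) := Nat.cast_le.2 (h1.trans h2)
      push_cast at h3
      have h4 : ((F x).den : ℝ) * T ≤ ((F x).den : ℝ) * p :=
        mul_le_mul_of_nonneg_left hTp.le (Nat.cast_nonneg _)
      linarith
    obtain ⟨hs1, hs2⟩ := spacing hint hden hcard
    have hfib : ∀ f ∈ (E T n k).image F,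
        (((E T n k).filter (fun x => F x = f)).card : ℝ) ≤ (k : ℝ) * (1 / (f.den : ℝ)) + 1 := by
      intro f hf
      have hdpos : 0 < f.den := f.den_pos
      have h1 : ((E T n k).filter (fun x => F x = f)).card ≤ k / f.den + 1 := by
        refine le_trans (card_le_card ?_) (card_multiples_le n k hdpos)
        intro x hx
        rw [mem_filter] at hx
        rw [mem_filter]
        refine ⟨hmem x hx.1, ?_⟩
        obtain ⟨y, hy, p, hp, hTp, hpx, hpy, hFx, hden'⟩ := hF x hx.1
        rw [hx.2] at hden'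
        exact dvd_trans (dvd_mul_right _ _) hden'
      have h2 : (((E T n k).filter (fun x => F x = f)).card : ℝ) ≤ ((k / f.den + 1 : ℕ) : ℝ) :=
        Nat.cast_le.2 h1
      have h3 : ((k / f.den : ℕ) : ℝ) ≤ (k : ℝ) / (f.den : ℝ) := Nat.cast_div_le
      push_cast at h2
      have h4 : (k : ℝ) * (1 / (f.den : ℝ)) = (k : ℝ) / (f.den : ℝ) := by ring
      rw [h4]
      linarith
    have hsum : ((E T n k).card : ℝ) ≤ (k : ℝ) * (2 * Z * l) + 2 * Z ^ 2 * l := by
      have h1 : ((E T n k).card : ℝ) =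
          ∑ f ∈ (E T n k).image F, (((E T n k).filter (fun x => F x = f)).card : ℝ) := by
        rw [card_eq_sum_card_image F (E T n k)]
        push_cast
        rfl
      rw [h1]
      refine le_trans (sum_le_sum hfib) ?_
      rw [sum_add_distrib, ← mul_sum, sum_const, nsmul_eq_mul, mul_one]
      exact add_le_add (mul_le_mul_of_nonneg_left hs1 hkR.le) hs2
    linarith
  · -- at most one value
    have hle : ((E T n k).image F).card ≤ 1 := by omega
    rcases (E T n k).eq_empty_or_nonempty with hE | ⟨x0, hx0⟩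
    · refine ⟨0, fun x hx => ?_⟩
      rw [hE] at hx
      exact absurd hx (notMem_empty x)
    · refine ⟨F x0, fun x hx => ?_⟩
      have heq : F x = F x0 :=
        card_le_one.1 hle (F x) (mem_image_of_mem F hx) (F x0) (mem_image_of_mem F hx0)
      obtain ⟨y, hy, p, hp, hTp, hpx, hpy, hFx, hden⟩ := hF x hx
      refine ⟨y, hy, ?_⟩
      rw [← heq, hFx]
      have : (x : ℚ) ≠ 0 := Nat.cast_ne_zero.2 (hxpos x hx).ne'
      field_simp

end Pool.Agent.H3.LC
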