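import Pool.Agent.H3.LC.Good
import Pool.Agent.H3.LC.Ratio
import Pool.Agent.H3.LC.Cases

/-!
# LC RangeA: `K1 ≤ k ≤ N^(1/2+ε/2)`, almost all `n < N`

Take `δ = 1/100` and `ε, K1'` from `good_density (1/100) (η/8) (η/24)`; `K1 = 4 K1' + 1000`.  Discard the `n < (η/8) N`, the `n` which are not
good and the `n` for which `n/2` (integer part; `n/2 ≥ (η/24) N`) is not good: at most `(η/8 + η/8 + 2·η/8) N + 1 ≤ η N` (the map `n ↦ n/2` is two to one).
Let `n` be one of the remaining, `Sol n k m`, `T = N^(1/2+ε) ≥ k`.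
* mass `∑ ms T x ≤ card E · log(2N)` (`ms_le_log`, `ms_eq_zero`), so `card E ≥ (49/100) k log N / log(2N) ≥ (2/5) k`.
* hypothesis of `single_ratio`: with `n + k ≤ 2N`, `n ≥ (η/8) N` the left side is `≤ C(η) k (k/T + N/T²) ≤ C(η) k (N^(-ε/2) + N^(-2ε)) < (2/5) k`.
* `ratio_cases` with `S = E`:
  - `q ∣ x` for all `x ∈ E`, `q ≥ 3`: `card E ≤ k/3 + 1 < (2/5) k` (`card_multiples_le`);
  - `q = 2`: the map `y ↦ 2y` maps the block `(n/2, (n+k)/2]` onto the even elements of `(n, n+k]` and `ms T (2y) = ms T y` (`T ≥ 2`), the length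
    `k' = (n+k)/2 - n/2` is between `(k-1)/2 ≥ K1'` and `(k+1)/2`, so `(49/100) k log N ≤ ∑ ms T x ≤ (51/100) ((k+1)/2) log N`, contradiction;
  - second alternative: put `q = k/4 ≥ K1'`.  `∑_{(n,n+q]} ms > 0` gives `x ∈ E`, `x ≤ n + q`;
    `∑_{(n,n+k]} - ∑_{(n,n+k-q]} ≥ (49/100) k log N - (51/100)(k-q) log N > 0` gives `x' ∈ E`, `x' > n+k-q`; then
    `2x' + 1 ≤ 2x + k` is impossible.
-/

set_option autoImplicit false

open Finset

namespace Pool.Agent.H3.LC

private theorem rangeA_ms_two {T : ℝ} (hT : 2 ≤ T) {y : ℕ} (hy : y ≠ 0) : ms T (2 * y) = ms T y := by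
  have hb : big T (2 * y) = big T y := by
    unfold big
    rw [Nat.primeFactors_mul two_ne_zero hy]
    ext p
    rw [mem_filter, mem_filter, mem_union]
    constructor
    · rintro ⟨h1 | h1, h2⟩
      · exfalso
        have h3 : p ∣ 2 := Nat.dvd_of_mem_primeFactors h1
        have h4 : p ≤ 2 := Nat.le_of_dvd two_pos h3
        have h5 : (p : ℝ) ≤ 2 := by exact_mod_cast h4
        linarith
      · exact ⟨h1, h2⟩
    · rintro ⟨h1, h2⟩
      exact ⟨Or.inr h1, h2⟩
  unfold ms
  rw [hb]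

private theorem rangeA_mem_E {T : ℝ} {n k x : ℕ} (hx : x ∈ Icc (n + 1) (n + k)) (h : ms T x ≠ 0) :
    x ∈ E T n k := by
  unfold E
  rw [mem_filter]
  refine ⟨hx, ?_⟩
  by_contra h'
  exact h (ms_eq_zero h')

private theorem rangeA_sum_E (T : ℝ) (n k : ℕ) :
    ∑ x ∈ Icc (n + 1) (n + k), ms T x = ∑ x ∈ E T n k, ms T x := by
  symm
  refine sum_subset (filter_subset _ _) fun x hx hx' => ?_
  by_contra h
  exact hx' (rangeA_mem_E hx h)

private theorem rangeA_even {T : ℝ} (hT : 2 ≤ T) {n k : ℕ} (h : ∀ x ∈ E T n k, 2 ∣ x) :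
    ∑ x ∈ Icc (n + 1) (n + k), ms T x = ∑ y ∈ Icc (n / 2 + 1) ((n + k) / 2), ms T y := by
  have h1 : ∑ y ∈ Icc (n / 2 + 1) ((n + k) / 2), ms T y =
      ∑ x ∈ (Icc (n / 2 + 1) ((n + k) / 2)).image (fun y => 2 * y), ms T x := by
    rw [sum_image]
    · refine sum_congr rfl fun y hy => ?_
      rw [mem_Icc] at hy
      exact (rangeA_ms_two hT (by omega)).symm
    · intro a _ b _ hab
      simpa using hab
  rw [h1]
  symm
  refine sum_subset ?_ fun x hx hx' => ?_
  · intro x hx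
    rw [mem_image] at hx
    obtain ⟨y, hy, rfl⟩ := hx
    rw [mem_Icc] at hy ⊢
    omega
  · by_contra h2
    obtain ⟨y, rfl⟩ := h x (rangeA_mem_E hx h2)
    apply hx'
    rw [mem_image]
    rw [mem_Icc] at hx
    refine ⟨y, ?_, rfl⟩
    rw [mem_Icc]
    omega

private theorem rangeA_exists {T : ℝ} {s : Finset ℕ} (h : 0 < ∑ x ∈ s, ms T x) : ∃ x ∈ s, ms T x ≠ 0 := by
  by_contra h'
  push Not at h'
  rw [sum_eq_zero h'] at h
  exact lt_irrefl _ h

private theorem rangeA_core {N n k m K : ℕ} {T : ℝ} (hG : Good N T (1 / 100) K n)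
    (hG2 : Good N T (1 / 100) K (n / 2)) (hL : 0 < Real.log N) (hk1 : 4 * K + 1000 ≤ k) (hkN : k ≤ N)
    (hkT : (k : ℝ) ≤ T) (h : Sol n k m) (hn : 0 < n) (hnN : n < N)
    (hlog : 2 / 5 * (Real.log N + Real.log 2) < 49 / 100 * Real.log N)
    (hc : (k : ℝ) * (2 * (((n : ℝ) + k) / T) * (257 * (k : ℝ) / n)) +
      2 * (((n : ℝ) + k) / T) ^ 2 * (257 * (k : ℝ) / n) < 2 / 5 * (k : ℝ)) : False := by
  have hk0 : (1000 : ℝ) ≤ k := by
    have : 1000 ≤ k := by omega
    exact_mod_cast this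
  have hT2 : (2 : ℝ) ≤ T := by linarith
  have hN0 : 0 < N := by omega
  have hN0' : (0 : ℝ) < N := by exact_mod_cast hN0
  -- the mass of the whole block
  have hm := hG k (by omega) hkN
  rw [abs_le] at hm
  have hlow : 49 / 100 * (k : ℝ) * Real.log N ≤ ∑ x ∈ Icc (n + 1) (n + k), ms T x := by
    have := hm.1
    nlinarith [this]
  -- number of elements of E
  have hcard : 2 / 5 * (k : ℝ) < ((E T n k).card : ℝ) := by
    have h1 : ∑ x ∈ Icc (n + 1) (n + k), ms T x ≤ ((E T n k).card : ℝ) * (Real.log N + Real.log 2) := by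
      rw [rangeA_sum_E, ← nsmul_eq_mul]
      refine sum_le_card_nsmul _ _ _ fun x hx => ?_
      have hx' := (mem_filter.1 hx).1
      rw [mem_Icc] at hx'
      have hx0 : x ≠ 0 := by omega
      refine (ms_le_log hx0).trans ?_
      rw [← Real.log_mul hN0'.ne' two_ne_zero]
      refine Real.log_le_log (by exact_mod_cast Nat.pos_of_ne_zero hx0) ?_
      have h2 : x ≤ N * 2 := by omega
      exact_mod_cast h2
    by_contra hcon
    push Not at hcon
    have hpos : 0 < Real.log N + Real.log 2 := by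
      have := Real.log_pos (one_lt_two)
      linarith
    have h2 : ((E T n k).card : ℝ) * (Real.log N + Real.log 2) ≤
        2 / 5 * (k : ℝ) * (Real.log N + Real.log 2) := mul_le_mul_of_nonneg_right hcon hpos.le
    have h3 : (k : ℝ) * (2 / 5 * (Real.log N + Real.log 2)) < k * (49 / 100 * Real.log N) :=
      mul_lt_mul_of_pos_left hlog (by linarith)
    nlinarith [h1, h2, h3, hlow]
  obtain ⟨r, hr⟩ := single_ratio hn h hkT (hc.trans hcard)
  rcases ratio_cases h.2.1 (S := E T n k) (filter_subset _ _) hr with ⟨q, hq, hdiv⟩ | hsecond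
  · rcases lt_or_ge q 3 with hq3 | hq3
    · -- q = 2
      have hq2 : q = 2 := by
        have := hq.two_le
        omega
      subst hq2
      have he := rangeA_even hT2 hdiv
      set k' := (n + k) / 2 - n / 2 with hk'
      have h1 : n / 2 + k' = (n + k) / 2 := by omega
      have h2 := hG2 k' (by omega) (by omega)
      rw [h1, ← he, abs_le] at h2
      have h3 : ((2 * k' : ℕ) : ℝ) ≤ ((k + 1 : ℕ) : ℝ) := by
        have : 2 * k' ≤ k + 1 := by omega
        exact_mod_cast this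
      push_cast at h3
      have h4 : ∑ x ∈ Icc (n + 1) (n + k), ms T x ≤ 51 / 100 * (k' : ℝ) * Real.log N := by
        have := h2.2
        nlinarith [this]
      have h5 : 49 / 100 * (k : ℝ) ≤ 51 / 100 * (k' : ℝ) := by
        have h6 := hlow.trans h4
        exact le_of_mul_le_mul_right h6 hL
      linarith
    · -- q ≥ 3
      have h1 : E T n k ⊆ (Icc (n + 1) (n + k)).filter (fun x => q ∣ x) := by
        intro x hx
        rw [mem_filter]
        exact ⟨(mem_filter.1 hx).1, hdiv x hx⟩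
      have h2 := (card_le_card h1).trans (card_multiples_le n k (by omega : 0 < q))
      have h3 : k / q ≤ k / 3 := Nat.div_le_div_left hq3 (by norm_num)
      have h4 : 3 * (k / 3) ≤ k := Nat.mul_div_le k 3
      have h5 : 3 * (E T n k).card ≤ k + 3 := by omega
      have h6 : (3 : ℝ) * ((E T n k).card : ℝ) ≤ k + 3 := by exact_mod_cast h5
      linarith
  · -- the second alternative
    set q := k / 4 with hqdef
    have hq1 : K ≤ q := by omega
    have hqk : 4 * q ≤ k := by omega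
    have hqk2 : k ≤ 4 * q + 3 := by omega
    have hqR : (k : ℝ) ≤ 4 * (q : ℝ) + 3 := by exact_mod_cast hqk2
    have hA := hG q hq1 (by omega)
    rw [abs_le] at hA
    have hA1 : 0 < ∑ x ∈ Icc (n + 1) (n + q), ms T x := by
      have h1 := hA.1
      have h2 : 0 < (q : ℝ) := by linarith
      have h3 : 0 < (q : ℝ) * Real.log N := mul_pos h2 hL
      nlinarith [h1, h3]
    obtain ⟨x, hx, hx0⟩ := rangeA_exists hA1
    rw [mem_Icc] at hx
    have hxE : x ∈ E T n k := rangeA_mem_E (by rw [mem_Icc]; omega) hx0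
    have hB := hG (k - q) (by omega) (by omega)
    rw [abs_le] at hB
    have hkq : ((k - q : ℕ) : ℝ) = (k : ℝ) - q := by
      rw [Nat.cast_sub (by omega)]
    rw [hkq] at hB
    have hsplit : ∑ x ∈ Icc (n + 1) (n + k), ms T x =
        ∑ x ∈ Icc (n + 1) (n + (k - q)), ms T x + ∑ x ∈ Icc (n + (k - q) + 1) (n + k), ms T x := by
      rw [← sum_union]
      · congr 1
        ext z
        rw [mem_union, mem_Icc, mem_Icc, mem_Icc]
        omega
      · rw [disjoint_left]
        intro z hz hz'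
        rw [mem_Icc] at hz hz'
        omega
    have hB1 : 0 < ∑ x ∈ Icc (n + (k - q) + 1) (n + k), ms T x := by
      have h1 := hB.2
      have h3 : 0 < (51 / 100 * (q : ℝ) - 2 / 100 * k) * Real.log N := mul_pos (by linarith) hL
      nlinarith [h1, h3, hlow, hsplit]
    obtain ⟨x', hx', hx0'⟩ := rangeA_exists hB1
    rw [mem_Icc] at hx'
    have hxE' : x' ∈ E T n k := rangeA_mem_E (by rw [mem_Icc]; omega) hx0'
    have := hsecond x hxE x' hxE'
    omega

private theorem rangeA_half (N : ℕ) (Q : ℕ → Prop) : cnt N (fun n => Q (n / 2)) ≤ 2 * cnt N Q := by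
  classical
  have h1 : cnt N (fun n => Q (n / 2)) ≤
      ((((range N).filter Q).image (fun j => 2 * j)) ∪ (((range N).filter Q).image (fun j => 2 * j + 1))).card := by
    unfold cnt
    refine card_le_card fun n hn => ?_
    simp only [mem_filter, mem_range] at hn
    rw [mem_union, mem_image, mem_image]
    rcases Nat.even_or_odd' n with ⟨c, hc | hc⟩
    · refine Or.inl ⟨n / 2, ?_, by omega⟩
      simp only [mem_filter, mem_range]
      exact ⟨by omega, hn.2⟩
    · refine Or.inr ⟨n / 2, ?_, by omega⟩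
      simp only [mem_filter, mem_range]
      exact ⟨by omega, hn.2⟩
  refine h1.trans ((card_union_le _ _).trans ?_)
  have h2 := card_image_le (s := (range N).filter Q) (f := fun j => 2 * j)
  have h3 := card_image_le (s := (range N).filter Q) (f := fun j => 2 * j + 1)
  have h4 : cnt N Q = ((range N).filter Q).card := by
    unfold cnt
    congr 1
  omega

private theorem rangeA_count (N c1 : ℕ) (Q Q1 : ℕ → Prop)
    (h : ∀ n, n < N → Q n → n < c1 ∨ (Q1 n ∨ Q1 (n / 2))) : cnt N Q ≤ c1 + 3 * cnt N Q1 := by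
  have h1 := cnt_mono h
  have h2 := cnt_or_le N (fun n => n < c1) (fun n => Q1 n ∨ Q1 (n / 2))
  have h3 := cnt_or_le N Q1 (fun n => Q1 (n / 2))
  have h4 := rangeA_half N Q1
  have h5 := cnt_lt_le N c1
  omega

private theorem rangeA_num {η s T n k N : ℝ} (hη : 0 < η) (hTpos : 0 < T) (hNpos : 0 < N) (hnpos : 0 < n)
    (hkpos : 0 < k) (hnN' : n ≤ N) (hkN' : k ≤ N) (hn8 : η / 8 * N ≤ n) (hkT : k ≤ T * s)
    (hNT : N ≤ T ^ 2 * s) (hsN : s < η / 100000) (hspos : 0 < s) :
    k * (2 * ((n + k) / T) * (257 * k / n)) + 2 * ((n + k) / T) ^ 2 * (257 * k / n) < 2 / 5 * k := by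
  have ha : (n + k) / T ≤ 2 * N / T := div_le_div_of_nonneg_right (by linarith) hTpos.le
  have ha0 : 0 ≤ (n + k) / T := by positivity
  have hb : 257 * k / n ≤ 2056 * k / (η * N) := by
    rw [div_le_div_iff₀ hnpos (by positivity)]
    nlinarith [hn8, hkpos]
  have hb0 : 0 ≤ 257 * k / n := by positivity
  have h1 : 2 * ((n + k) / T) * (257 * k / n) ≤ 8224 * s / η := by
    calc 2 * ((n + k) / T) * (257 * k / n)
        ≤ 2 * (2 * N / T) * (2056 * k / (η * N)) := by gcongr
      _ = 8224 * k / (T * η) := by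
          field_simp
          ring
      _ ≤ 8224 * s / η := by
          rw [div_le_div_iff₀ (by positivity) hη]
          nlinarith [hkT, hη]
  have h2 : 2 * ((n + k) / T) ^ 2 * (257 * k / n) ≤ k * (16448 * s / η) := by
    calc 2 * ((n + k) / T) ^ 2 * (257 * k / n)
        ≤ 2 * (2 * N / T) ^ 2 * (2056 * k / (η * N)) := by gcongr
      _ = k * (16448 * N / (T ^ 2 * η)) := by
          field_simp
          ring
      _ ≤ k * (16448 * s / η) := by
          refine mul_le_mul_of_nonneg_left ?_ hkpos.le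
          rw [div_le_div_iff₀ (by positivity) hη]
          nlinarith [hNT, hη]
  have h3 : k * (2 * ((n + k) / T) * (257 * k / n)) ≤ k * (8224 * s / η) :=
    mul_le_mul_of_nonneg_left h1 hkpos.le
  have h4 : 8224 * s / η + 16448 * s / η < 2 / 5 := by
    rw [← add_div, div_lt_iff₀ hη]
    linarith
  nlinarith [h2, h3, h4, hkpos]

theorem rangeA (η : ℝ) (hη : 0 < η) : ∃ ε : ℝ, 0 < ε ∧ ε ≤ 1 / 4 ∧ ∃ K1 N0 : ℕ, ∀ N : ℕ, N0 ≤ N →
    (cnt N (fun n => ∃ k m : ℕ, K1 ≤ k ∧ (k : ℝ) ≤ (N : ℝ) ^ (1 / 2 + ε / 2) ∧ Sol n k m) : ℝ) ≤ η * N := by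
  obtain ⟨ε, hε, hε4, K, N1, hgood⟩ := good_density (1 / 100) (η / 8) (η / 24) (by norm_num) (by positivity)
    (by positivity)
  refine ⟨ε, hε, hε4, 4 * K + 1000, ?_⟩
  -- eventual numerical facts
  have ev1 : ∀ᶠ N : ℕ in Filter.atTop, 100 ≤ Real.log N :=
    (Real.tendsto_log_atTop.comp tendsto_natCast_atTop_atTop).eventually_ge_atTop 100
  have ev2 : ∀ᶠ N : ℕ in Filter.atTop, (N : ℝ) ^ (-(ε / 2)) < η / 100000 := by
    have h1 := (tendsto_rpow_neg_atTop (half_pos hε)).comp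
      (tendsto_natCast_atTop_atTop (R := ℝ))
    have h2 := h1.eventually (gt_mem_nhds (show (0 : ℝ) < η / 100000 by positivity))
    exact h2
  have ev3 : ∀ᶠ N : ℕ in Filter.atTop, 48 / η ≤ (N : ℝ) :=
    tendsto_natCast_atTop_atTop.eventually_ge_atTop _
  obtain ⟨N2, hN2⟩ := Filter.eventually_atTop.1 (ev1.and (ev2.and ev3))
  refine ⟨max (max N1 N2) 2, fun N hN => ?_⟩
  have hNN1 : N1 ≤ N := (le_max_left _ _).trans ((le_max_left _ _).trans hN)
  have hNN2 : N2 ≤ N := (le_max_right _ _).trans ((le_max_left _ _).trans hN)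
  have hN2' : 2 ≤ N := (le_max_right _ _).trans hN
  obtain ⟨hlogN, hsN, hηN⟩ := hN2 N hNN2
  have hNpos : (0 : ℝ) < N := by
    have : 0 < N := by omega
    exact_mod_cast this
  have hN1' : (1 : ℝ) ≤ N := by
    have : 1 ≤ N := by omega
    exact_mod_cast this
  have hηN' : 48 ≤ η * N := by
    rw [div_le_iff₀ hη] at hηN
    linarith
  have hg := hgood N hNN1
  set T : ℝ := (N : ℝ) ^ (1 / 2 + ε) with hTdef
  set s : ℝ := (N : ℝ) ^ (-(ε / 2)) with hsdef
  have hTpos : 0 < T := Real.rpow_pos_of_pos hNpos _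
  have hspos : 0 < s := Real.rpow_pos_of_pos hNpos _
  have hTs : (N : ℝ) ^ (1 / 2 + ε / 2) = T * s := by
    rw [hTdef, hsdef, ← Real.rpow_add hNpos]
    congr 1
    ring
  have hs1 : s ≤ 1 := Real.rpow_le_one_of_one_le_of_nonpos hN1' (by linarith)
  have hNT : (N : ℝ) ≤ T ^ 2 * s := by
    have h1 : T ^ 2 * s = (N : ℝ) ^ (1 + (3 / 2 * ε)) := by
      rw [hTdef, hsdef, ← Real.rpow_natCast, ← Real.rpow_mul hNpos.le, ← Real.rpow_add hNpos]
      congr 1
      push_cast
      ring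
    rw [h1]
    calc (N : ℝ) = (N : ℝ) ^ (1 : ℝ) := (Real.rpow_one _).symm
      _ ≤ (N : ℝ) ^ (1 + (3 / 2 * ε)) := Real.rpow_le_rpow_of_exponent_le hN1' (by linarith)
  set c1 : ℕ := ⌈η / 8 * N⌉₊ with hc1
  have htot := rangeA_count N c1
    (fun n => ∃ k m : ℕ, 4 * K + 1000 ≤ k ∧ (k : ℝ) ≤ (N : ℝ) ^ (1 / 2 + ε / 2) ∧ Sol n k m)
    (fun n => η / 24 * N ≤ (n : ℝ) ∧ ¬ Good N T (1 / 100) K n) ?_
  · have hb5 : (c1 : ℝ) < η / 8 * N + 1 := Nat.ceil_lt_add_one (by positivity)
    have htot' := Nat.cast_le (α := ℝ).2 htot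
    rw [Nat.cast_add, Nat.cast_mul] at htot'
    push_cast at htot'
    linarith
  · intro n hnN hQ
    obtain ⟨k, m, hk1, hk2, hsol⟩ := hQ
    by_contra hcon
    push Not at hcon
    obtain ⟨hn1, hn2, hn3⟩ := hcon
    have hn8 : η / 8 * N ≤ n := (Nat.le_ceil _).trans (by exact_mod_cast hn1)
    have hG : Good N T (1 / 100) K n := hn2 (by nlinarith [hn8])
    have hhalf : (n : ℝ) ≤ 2 * ((n / 2 : ℕ) : ℝ) + 1 := by
      have : n ≤ 2 * (n / 2) + 1 := by omega
      exact_mod_cast this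
    have hG2 : Good N T (1 / 100) K (n / 2) := hn3 (by nlinarith [hn8, hhalf, hηN'])
    have hnpos : (0 : ℝ) < n := by nlinarith [hn8, hηN']
    have hn0 : 0 < n := by exact_mod_cast hnpos
    have hkT : (k : ℝ) ≤ T * s := by rw [← hTs]; exact hk2
    have hkT' : (k : ℝ) ≤ T := hkT.trans (by nlinarith)
    have hkN : k ≤ N := by
      have h1 : (k : ℝ) ≤ N := by
        refine hk2.trans ?_
        calc (N : ℝ) ^ (1 / 2 + ε / 2) ≤ (N : ℝ) ^ (1 : ℝ) :=
              Real.rpow_le_rpow_of_exponent_le hN1' (by linarith)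
          _ = N := Real.rpow_one _
      exact_mod_cast h1
    have hkpos : (0 : ℝ) < k := by
      have : 0 < k := by omega
      exact_mod_cast this
    have hnN' : (n : ℝ) ≤ N := by exact_mod_cast hnN.le
    have hkN' : (k : ℝ) ≤ N := by exact_mod_cast hkN
    have hlog2 : Real.log 2 < 1 := by
      have := Real.log_two_lt_d9
      linarith
    exact rangeA_core hG hG2 (by linarith) hk1 hkN hkT' hsol hn0 hnN (by linarith)
      (rangeA_num hη hTpos hNpos hnpos hkpos hnN' hkN' hn8 hkT hNT hsN hspos)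

end Pool.Agent.H3.LC
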