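import Pool.Agent.H3.LC.Mertens

/-!
# LC Second: second moment (Turan-Kubilius) for the primes up to `√N` in blocks of fixed length `K`

Write `f x = md 0 √N x = ∑_{p ∣ x, p ≤ √N} log p`, `μ = mu N = ∑_{p ≤ √N} log p / p ≤ log N` (for large N), `θ = ∑_{p ≤ √N} log p ≤ 2 √N`.
Expand: `∑_{n<2N} (∑_{i=1}^K f(n+i) - K μ)² = ∑_{i,i'} ∑_n f(n+i) f(n+i') - 2 K μ ∑_i ∑_n f(n+i) + 2 N K² μ²`.
* `i = i'`: `f(n+i) ≤ log(n+i) ≤ log(3N)` (N ≥ K), total `≤ K · 2N log²(3N)`.
* `i ≠ i'`: `∑_n f(n+i) f(n+i') = ∑_{p,q ≤ √N} log p log q #{n < 2N : p ∣ n+i, q ∣ n+i'}`; for `p ≠ q` the count is at most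
  `2N/(pq) + 1` (one residue class mod pq), for `p = q` it is zero unless `p ∣ i - i'`, so `p ≤ K`, and then at most `2N/p + 1 ≤ 3N`;
  total `≤ 2N μ² + θ² + 3 N K log² K`.
* `∑_n f(n+i) ≥ ∑_{p ≤ √N} log p (2N/p - 1) = 2N μ - θ`.
Sum: `≤ 2 K N log²(3N) + K² (θ² + 3 N K log² K + 2 μ θ) ≤ 8 K N log² N` for `N ≥ N0(K)`.
-/

set_option autoImplicit false

open Finset

namespace Pool.Agent.H3.LC

/-- primes up to `√N` -/
private noncomputable def secondP (N : ℕ) : Finset ℕ := (Icc 1 (Nat.sqrt N)).filter Nat.Prime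

/-- `f x` -/
private noncomputable def secondF (N x : ℕ) : ℝ := ∑ p ∈ secondP N, if p ∣ x then Real.log p else 0

private theorem second_prime {N p : ℕ} (hp : p ∈ secondP N) : p.Prime := (mem_filter.1 hp).2

private theorem second_md (N x : ℕ) (hx : x ≠ 0) : md 0 (Real.sqrt N) x = secondF N x := by
  unfold md secondF
  rw [← sum_filter]
  congr 1
  ext p
  rw [mem_filter, mem_filter, Nat.mem_primeFactors, secondP, mem_filter, mem_Icc]
  have hsq : (p : ℝ) ≤ Real.sqrt N ↔ p ≤ Nat.sqrt N := by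
    rw [Real.le_sqrt (Nat.cast_nonneg p), Nat.le_sqrt, ← Nat.cast_pow, Nat.cast_le, sq]
    exact Nat.cast_nonneg N
  rw [hsq]
  constructor
  · rintro ⟨⟨h1, h2, _⟩, _, h4⟩
    exact ⟨⟨⟨h1.one_lt.le, h4⟩, h1⟩, h2⟩
  · rintro ⟨⟨⟨_, h2⟩, h3⟩, h4⟩
    exact ⟨⟨h3, h4, hx⟩, Nat.cast_pos.2 h3.pos, h2⟩

private theorem second_F_nonneg (N x : ℕ) : 0 ≤ secondF N x := by
  refine sum_nonneg fun p _ => ?_
  split_ifs
  · exact Real.log_natCast_nonneg p
  · exact le_rfl

private theorem second_F_le (N x : ℕ) (hx : x ≠ 0) : secondF N x ≤ Real.log x := by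
  rw [← second_md N x hx]
  exact md_le_log hx

/-- a set of numbers below `M` in one class mod `d` -/
private theorem second_class (M d : ℕ) (S : Finset ℕ) (hS : ∀ n ∈ S, n < M)
    (hc : ∀ n ∈ S, ∀ m ∈ S, n % d = m % d) : (S.card : ℝ) ≤ (M : ℝ) / d + 1 := by
  have h1 : S.card ≤ (range (M / d + 1)).card := by
    apply card_le_card_of_injOn (fun n => n / d)
    · intro n hn
      rw [Finset.coe_range, Set.mem_Iio, Nat.lt_succ_iff]
      exact Nat.div_le_div_right (hS n hn).le
    · intro n hn m hm h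
      have h2 := hc n hn m hm
      have h3 : n / d = m / d := h
      rw [← Nat.div_add_mod n d, ← Nat.div_add_mod m d, h2, h3]
  rw [card_range] at h1
  have h2 : (S.card : ℝ) ≤ ((M / d + 1 : ℕ) : ℝ) := by exact_mod_cast h1
  refine h2.trans ?_
  push_cast
  have := @Nat.cast_div_le ℝ _ _ _ M d
  linarith

private theorem second_lower (M d i : ℕ) (hd : 0 < d) :
    (M : ℝ) / d - 1 ≤ (((range M).filter (fun n => d ∣ n + i)).card : ℝ) := by
  have h1 : (range (M / d)).card ≤ ((range M).filter (fun n => d ∣ n + i)).card := by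
    apply card_le_card_of_injOn (fun j => d * j + (d - i % d) % d)
    · intro j hj
      rw [Finset.coe_range, Set.mem_Iio] at hj
      rw [Finset.mem_coe, mem_filter, mem_range]
      constructor
      · have h2 : (d - i % d) % d < d := Nat.mod_lt _ hd
        have h3 : d * (j + 1) ≤ d * (M / d) := Nat.mul_le_mul_left d hj
        have h4 : d * (M / d) ≤ M := Nat.mul_div_le M d
        have h5 : d * (j + 1) = d * j + d := by ring
        show d * j + (d - i % d) % d < M
        omega
      · show d ∣ d * j + (d - i % d) % d + i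
        have h2 : d ∣ (d - i % d) % d + i := by
          rw [Nat.dvd_iff_mod_eq_zero, Nat.add_mod, Nat.mod_mod]
          rcases Nat.eq_zero_or_pos (i % d) with h | h
          · rw [h]; simp
          · have h3 : i % d < d := Nat.mod_lt _ hd
            have h4 : (d - i % d) % d = d - i % d := Nat.mod_eq_of_lt (by omega)
            rw [h4, Nat.sub_add_cancel h3.le, Nat.mod_self]
        rw [add_assoc]
        exact dvd_add (dvd_mul_right d j) h2
    · intro j _ j' _ h
      have h2 : d * j + (d - i % d) % d = d * j' + (d - i % d) % d := h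
      exact Nat.eq_of_mul_eq_mul_left hd (by omega)
  rw [card_range] at h1
  have h2 : ((M / d : ℕ) : ℝ) ≤ (((range M).filter (fun n => d ∣ n + i)).card : ℝ) := by
    exact_mod_cast h1
  have h3 : (M : ℝ) / d - 1 ≤ ((M / d : ℕ) : ℝ) := by
    have h4 : M < d * (M / d) + d := by
      have := Nat.lt_div_mul_add (a := M) hd
      rw [Nat.mul_comm] at this
      exact this
    have h5 : (M : ℝ) < d * ((M / d : ℕ) : ℝ) + d := by exact_mod_cast h4
    have hd' : (0 : ℝ) < d := by exact_mod_cast hd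
    rw [sub_le_iff_le_add, div_le_iff₀ hd']
    nlinarith
  exact h3.trans h2

private theorem second_first (N i : ℕ) :
    2 * (N : ℝ) * mu N - ∑ p ∈ secondP N, Real.log p ≤ ∑ n ∈ range (2 * N), secondF N (n + i) := by
  unfold secondF
  rw [sum_comm]
  have h1 : 2 * (N : ℝ) * mu N - ∑ p ∈ secondP N, Real.log p
      = ∑ p ∈ secondP N, Real.log p * ((2 * N : ℕ) / p - 1) := by
    unfold mu
    rw [mul_sum]
    rw [show (∑ p ∈ (Icc 1 (Nat.sqrt N)).filter Nat.Prime, 2 * (N : ℝ) * (Real.log p / p))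
      = ∑ p ∈ secondP N, 2 * (N : ℝ) * (Real.log p / p) from rfl, ← sum_sub_distrib]
    refine sum_congr rfl fun p _ => ?_
    push_cast
    ring
  rw [h1]
  refine sum_le_sum fun p hp => ?_
  rw [← sum_filter, sum_const, nsmul_eq_mul, mul_comm]
  exact mul_le_mul_of_nonneg_right (second_lower (2 * N) p i (second_prime hp).pos)
    (Real.log_natCast_nonneg p)

private theorem second_count (N K i i' p q : ℕ) (hi : i ∈ Icc 1 K) (hi' : i' ∈ Icc 1 K)
    (hne : i ≠ i') (hp : p.Prime) (hq : q.Prime) :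
    Real.log p * Real.log q * (((range (2 * N)).filter (fun n => p ∣ n + i ∧ q ∣ n + i')).card : ℝ)
      ≤ Real.log p * Real.log q * (2 * N / (p * q) + 1)
        + (if p = q then (if p ≤ K then 2 * (N : ℝ) * Real.log K ^ 2 else 0) else 0) := by
  have hlp := Real.log_natCast_nonneg p
  have hlq := Real.log_natCast_nonneg q
  have hp0 : (0 : ℝ) < p := by exact_mod_cast hp.pos
  have hq0 : (0 : ℝ) < q := by exact_mod_cast hq.pos
  rw [mem_Icc] at hi hi'
  by_cases hpq : p = q
  · subst hpq
    rw [if_pos rfl]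
    by_cases hE : ((range (2 * N)).filter (fun n => p ∣ n + i ∧ p ∣ n + i')) = ∅
    · rw [hE, card_empty, Nat.cast_zero, mul_zero]
      have : 0 ≤ (if p ≤ K then 2 * (N : ℝ) * Real.log K ^ 2 else 0) := by
        split_ifs
        · positivity
        · exact le_rfl
      have h2 : 0 ≤ Real.log p * Real.log p * (2 * (N : ℝ) / (p * p) + 1) := by positivity
      linarith
    · obtain ⟨n, hn⟩ := nonempty_iff_ne_empty.2 hE
      rw [mem_filter] at hn
      have hpK : p ≤ K := by
        rcases Nat.lt_or_gt_of_ne hne with h | h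
        · have h3 : p ∣ i' - i := by
            have := Nat.dvd_sub hn.2.2 hn.2.1
            rwa [Nat.add_sub_add_left] at this
          have := Nat.le_of_dvd (by omega) h3
          omega
        · have h3 : p ∣ i - i' := by
            have := Nat.dvd_sub hn.2.1 hn.2.2
            rwa [Nat.add_sub_add_left] at this
          have := Nat.le_of_dvd (by omega) h3
          omega
      rw [if_pos hpK]
      have hcard : (((range (2 * N)).filter (fun n => p ∣ n + i ∧ p ∣ n + i')).card : ℝ) ≤ 2 * N := by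
        have : ((range (2 * N)).filter (fun n => p ∣ n + i ∧ p ∣ n + i')).card ≤ 2 * N :=
          (card_filter_le _ _).trans (card_range _).le
        exact_mod_cast this
      have hlK : Real.log p ≤ Real.log K :=
        Real.log_le_log hp0 (by exact_mod_cast hpK)
      have h2 : 0 ≤ Real.log p * Real.log p * (2 * (N : ℝ) / (p * p) + 1) := by positivity
      have h3 : Real.log p * Real.log p * (((range (2 * N)).filter
          (fun n => p ∣ n + i ∧ p ∣ n + i')).card : ℝ) ≤ Real.log K * Real.log K * (2 * N) := by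
        apply mul_le_mul (mul_le_mul hlK hlK hlp (hlp.trans hlK)) hcard (Nat.cast_nonneg _)
        exact mul_nonneg (hlp.trans hlK) (hlp.trans hlK)
      nlinarith
  · rw [if_neg hpq, add_zero]
    apply mul_le_mul_of_nonneg_left _ (mul_nonneg hlp hlq)
    have hcop : Nat.Coprime p q := (Nat.coprime_primes hp hq).2 hpq
    have h1 := second_class (2 * N) (p * q)
      ((range (2 * N)).filter (fun n => p ∣ n + i ∧ q ∣ n + i'))
      (fun n hn => mem_range.1 (mem_filter.1 hn).1) ?_
    · push_cast at h1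
      exact h1
    · intro n hn m hm
      rw [mem_filter] at hn hm
      have key : ∀ a b r j : ℕ, r ∣ a + j → r ∣ b + j → a ≡ b [MOD r] := by
        intro a b r j ha hb
        have h4 : a + j ≡ b + j [MOD r] :=
          ((Nat.modEq_zero_iff_dvd).2 ha).trans ((Nat.modEq_zero_iff_dvd).2 hb).symm
        exact Nat.ModEq.add_right_cancel' j h4
      have h5 := key n m p i hn.2.1 hm.2.1
      have h6 := key n m q i' hn.2.2 hm.2.2
      exact (Nat.modEq_and_modEq_iff_modEq_mul hcop).1 ⟨h5, h6⟩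

private theorem second_cross (N K i i' : ℕ) (hi : i ∈ Icc 1 K) (hi' : i' ∈ Icc 1 K) (hne : i ≠ i') :
    ∑ n ∈ range (2 * N), secondF N (n + i) * secondF N (n + i')
      ≤ 2 * N * mu N ^ 2 + (∑ p ∈ secondP N, Real.log p) ^ 2 + K * (2 * N * Real.log K ^ 2) := by
  have h1 : ∑ n ∈ range (2 * N), secondF N (n + i) * secondF N (n + i')
      = ∑ p ∈ secondP N, ∑ q ∈ secondP N, Real.log p * Real.log q *
        (((range (2 * N)).filter (fun n => p ∣ n + i ∧ q ∣ n + i')).card : ℝ) := by
    calc ∑ n ∈ range (2 * N), secondF N (n + i) * secondF N (n + i')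
        = ∑ n ∈ range (2 * N), ∑ p ∈ secondP N, ∑ q ∈ secondP N,
          (if p ∣ n + i ∧ q ∣ n + i' then Real.log p * Real.log q else 0) := by
          refine sum_congr rfl fun n _ => ?_
          unfold secondF
          rw [sum_mul_sum]
          refine sum_congr rfl fun p _ => sum_congr rfl fun q _ => ?_
          by_cases h1 : p ∣ n + i <;> by_cases h2 : q ∣ n + i' <;> simp [h1, h2]
      _ = ∑ p ∈ secondP N, ∑ q ∈ secondP N, ∑ n ∈ range (2 * N),
          (if p ∣ n + i ∧ q ∣ n + i' then Real.log p * Real.log q else 0) := by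
          rw [sum_comm]
          refine sum_congr rfl fun p _ => ?_
          rw [sum_comm]
      _ = _ := by
          refine sum_congr rfl fun p _ => sum_congr rfl fun q _ => ?_
          rw [← sum_filter, sum_const, nsmul_eq_mul, mul_comm]
  rw [h1]
  calc ∑ p ∈ secondP N, ∑ q ∈ secondP N, Real.log p * Real.log q *
        (((range (2 * N)).filter (fun n => p ∣ n + i ∧ q ∣ n + i')).card : ℝ)
      ≤ ∑ p ∈ secondP N, ∑ q ∈ secondP N, (Real.log p * Real.log q * (2 * N / (p * q) + 1)
        + (if p = q then (if p ≤ K then 2 * (N : ℝ) * Real.log K ^ 2 else 0) else 0)) :=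
        sum_le_sum fun p hp => sum_le_sum fun q hq =>
          second_count N K i i' p q hi hi' hne (second_prime hp) (second_prime hq)
    _ = ∑ p ∈ secondP N, ∑ q ∈ secondP N, (Real.log p * Real.log q * (2 * N / (p * q) + 1))
        + ∑ p ∈ secondP N, ∑ q ∈ secondP N,
          (if p = q then (if p ≤ K then 2 * (N : ℝ) * Real.log K ^ 2 else 0) else 0) := by
        rw [← sum_add_distrib]
        exact sum_congr rfl fun p _ => sum_add_distrib
    _ ≤ _ := by
        apply add_le_add
        · apply le_of_eq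
          have h2 : (mu N) ^ 2 = ∑ p ∈ secondP N, ∑ q ∈ secondP N,
              (Real.log p / p) * (Real.log q / q) := by
            rw [sq, ← sum_mul_sum]
            rfl
          rw [h2, sq (∑ p ∈ secondP N, Real.log (p : ℝ)), sum_mul_sum, mul_sum, ← sum_add_distrib]
          refine sum_congr rfl fun p hp => ?_
          rw [mul_sum, ← sum_add_distrib]
          refine sum_congr rfl fun q hq => ?_
          have hp0 : (p : ℝ) ≠ 0 := by exact_mod_cast (second_prime hp).ne_zero
          have hq0 : (q : ℝ) ≠ 0 := by exact_mod_cast (second_prime hq).ne_zero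
          field_simp
        · have h3 : ∀ p ∈ secondP N, ∑ q ∈ secondP N,
              (if p = q then (if p ≤ K then 2 * (N : ℝ) * Real.log K ^ 2 else 0) else 0)
              = if p ≤ K then 2 * (N : ℝ) * Real.log K ^ 2 else 0 := by
            intro p hp
            rw [sum_ite_eq, if_pos hp]
          rw [sum_congr rfl h3, ← sum_filter, sum_const, nsmul_eq_mul]
          apply mul_le_mul_of_nonneg_right _ (by positivity)
          have h4 : ((secondP N).filter (fun p => p ≤ K)).card ≤ (Icc 1 K).card := by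
            apply card_le_card
            intro p hp
            rw [mem_filter] at hp
            rw [mem_Icc]
            exact ⟨(second_prime hp.1).one_lt.le, hp.2⟩
          rw [Nat.card_Icc] at h4
          have h5 : ((secondP N).filter (fun p => p ≤ K)).card ≤ K := by omega
          exact_mod_cast h5

private theorem second_block (F : ℕ → ℝ) (n K : ℕ) :
    ∑ x ∈ Icc (n + 1) (n + K), F x = ∑ i ∈ Icc 1 K, F (n + i) := by
  rw [← Finset.image_add_left_Icc, sum_image]
  intro a _ b _ h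
  exact Nat.add_left_cancel h

private theorem second_raw (K N : ℕ) (hKN : K ≤ N) (hN : 1 ≤ N) :
    ∑ n ∈ range (2 * N), (∑ x ∈ Icc (n + 1) (n + K), md 0 (Real.sqrt N) x - K * mu N) ^ 2 ≤
      K * (2 * N * Real.log (3 * N) ^ 2)
      + (K : ℝ) ^ 2 * ((∑ p ∈ secondP N, Real.log p) ^ 2 + K * (2 * N * Real.log K ^ 2)
        + 2 * mu N * ∑ p ∈ secondP N, Real.log p) := by
  set θ : ℝ := ∑ p ∈ secondP N, Real.log (p : ℝ) with hθ
  have hmu0 : 0 ≤ mu N := sum_nonneg fun p _ => div_nonneg (Real.log_natCast_nonneg p) (Nat.cast_nonneg p)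
  have hN0 : (0 : ℝ) < N := by exact_mod_cast hN
  have h1 : ∀ n ∈ range (2 * N), (∑ x ∈ Icc (n + 1) (n + K), md 0 (Real.sqrt N) x - K * mu N) ^ 2
      = (∑ i ∈ Icc 1 K, ∑ i' ∈ Icc 1 K, secondF N (n + i) * secondF N (n + i'))
        - 2 * K * mu N * ∑ i ∈ Icc 1 K, secondF N (n + i) + (K * mu N) ^ 2 := by
    intro n _
    have h2 : ∑ x ∈ Icc (n + 1) (n + K), md 0 (Real.sqrt N) x = ∑ i ∈ Icc 1 K, secondF N (n + i) := by
      rw [second_block]
      refine sum_congr rfl fun i hi => ?_
      rw [mem_Icc] at hi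
      exact second_md N (n + i) (by omega)
    rw [h2, ← sum_mul_sum]
    ring
  rw [sum_congr rfl h1, sum_add_distrib, sum_sub_distrib, sum_const, card_range, nsmul_eq_mul,
    ← mul_sum]
  have h3 : ∑ n ∈ range (2 * N), ∑ i ∈ Icc 1 K, secondF N (n + i)
      = ∑ i ∈ Icc 1 K, ∑ n ∈ range (2 * N), secondF N (n + i) := sum_comm
  have h4 : (K : ℝ) * (2 * N * mu N - θ) ≤ ∑ i ∈ Icc 1 K, ∑ n ∈ range (2 * N), secondF N (n + i) := by
    calc (K : ℝ) * (2 * N * mu N - θ) = ∑ i ∈ Icc 1 K, (2 * N * mu N - θ) := by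
          rw [sum_const, Nat.card_Icc, nsmul_eq_mul, Nat.add_sub_cancel]
      _ ≤ _ := sum_le_sum fun i _ => second_first N i
  have h5 : ∑ n ∈ range (2 * N), ∑ i ∈ Icc 1 K, ∑ i' ∈ Icc 1 K, secondF N (n + i) * secondF N (n + i')
      = ∑ i ∈ Icc 1 K, ∑ i' ∈ Icc 1 K, ∑ n ∈ range (2 * N), secondF N (n + i) * secondF N (n + i') := by
    rw [sum_comm]
    exact sum_congr rfl fun i _ => sum_comm
  set T : ℝ := 2 * N * mu N ^ 2 + θ ^ 2 + K * (2 * N * Real.log K ^ 2) with hT
  have hT0 : 0 ≤ T := by positivity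
  have h6 : ∑ i ∈ Icc 1 K, ∑ i' ∈ Icc 1 K, ∑ n ∈ range (2 * N), secondF N (n + i) * secondF N (n + i')
      ≤ ∑ i ∈ Icc 1 K, ∑ i' ∈ Icc 1 K, ((if i = i' then 2 * (N : ℝ) * Real.log (3 * N) ^ 2 else 0) + T) := by
    refine sum_le_sum fun i hi => sum_le_sum fun i' hi' => ?_
    by_cases hii : i = i'
    · subst hii
      rw [if_pos rfl]
      refine le_trans ?_ (le_add_of_nonneg_right hT0)
      calc ∑ n ∈ range (2 * N), secondF N (n + i) * secondF N (n + i)
          ≤ ∑ n ∈ range (2 * N), Real.log (3 * N) ^ 2 := by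
            refine sum_le_sum fun n hn => ?_
            rw [mem_range] at hn
            rw [mem_Icc] at hi
            have h7 := second_F_nonneg N (n + i)
            have h8 : secondF N (n + i) ≤ Real.log (3 * N) := by
              refine (second_F_le N (n + i) (by omega)).trans ?_
              apply Real.log_le_log
              · have : 0 < n + i := by omega
                exact_mod_cast this
              · have : n + i ≤ 3 * N := by omega
                exact_mod_cast this
            rw [sq]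
            exact mul_le_mul h8 h8 h7 (h7.trans h8)
        _ = 2 * (N : ℝ) * Real.log (3 * N) ^ 2 := by
            rw [sum_const, card_range, nsmul_eq_mul]
            push_cast
            ring
    · rw [if_neg hii, zero_add]
      exact second_cross N K i i' hi hi' hii
  have h7 : ∑ i ∈ Icc 1 K, ∑ i' ∈ Icc 1 K, ((if i = i' then 2 * (N : ℝ) * Real.log (3 * N) ^ 2 else 0) + T)
      = K * (2 * N * Real.log (3 * N) ^ 2) + (K : ℝ) ^ 2 * T := by
    have h8 : ∀ i ∈ Icc 1 K, ∑ i' ∈ Icc 1 K,
        ((if i = i' then 2 * (N : ℝ) * Real.log (3 * N) ^ 2 else 0) + T)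
        = 2 * (N : ℝ) * Real.log (3 * N) ^ 2 + K * T := by
      intro i hi
      rw [sum_add_distrib, sum_ite_eq, if_pos hi, sum_const, Nat.card_Icc, nsmul_eq_mul,
        Nat.add_sub_cancel]
    rw [sum_congr rfl h8, sum_const, Nat.card_Icc, nsmul_eq_mul, Nat.add_sub_cancel]
    ring
  rw [h5, h3]
  rw [h7] at h6
  have h9 := mul_le_mul_of_nonneg_left h4 (show 0 ≤ 2 * (K : ℝ) * mu N by positivity)
  push_cast
  nlinarith

theorem second_moment (K : ℕ) (hK : 0 < K) : ∃ N0 : ℕ, ∀ N : ℕ, N0 ≤ N →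
    ∑ n ∈ range (2 * N), (∑ x ∈ Icc (n + 1) (n + K), md 0 (Real.sqrt N) x - K * mu N) ^ 2 ≤
      8 * K * N * (Real.log N) ^ 2 := by
  set B : ℝ := K * (12 + 2 * K * Real.log K ^ 2) with hB
  have hK1 : (1 : ℝ) ≤ K := by exact_mod_cast hK
  refine ⟨⌈Real.exp B⌉₊ + K + 9, ?_⟩
  intro N hN
  have hN9 : 9 ≤ N := by omega
  have hKN : K ≤ N := by omega
  have hNR : (9 : ℝ) ≤ N := by exact_mod_cast hN9
  have hN0 : (0 : ℝ) < N := by linarith
  refine (second_raw K N hKN (by omega)).trans ?_
  have hB0 : 0 ≤ B := by positivity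
  have hBN : B ≤ Real.log N := by
    rw [Real.le_log_iff_exp_le hN0]
    refine (Nat.le_ceil _).trans ?_
    have : ⌈Real.exp B⌉₊ ≤ N := by omega
    exact_mod_cast this
  have hB12 : 12 ≤ B := by
    rw [hB]
    have : 0 ≤ 2 * (K : ℝ) * Real.log K ^ 2 := by positivity
    nlinarith
  have hlog : Real.log (3 * N) ≤ (3 / 2) * Real.log N := by
    have h1 : 2 * Real.log (3 * N) ≤ 3 * Real.log N := by
      have e1 : 2 * Real.log (3 * (N : ℝ)) = Real.log ((3 * (N : ℝ)) ^ 2) := by
        rw [Real.log_pow]; norm_num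
      have e2 : 3 * Real.log (N : ℝ) = Real.log ((N : ℝ) ^ 3) := by
        rw [Real.log_pow]; norm_num
      rw [e1, e2]
      apply Real.log_le_log (by positivity)
      nlinarith [sq_nonneg (N : ℝ)]
    linarith
  have hlog0 : 0 ≤ Real.log (3 * N) := Real.log_nonneg (by linarith)
  have hlog2 : Real.log (3 * N) ^ 2 ≤ (9 / 4) * Real.log N ^ 2 := by nlinarith
  -- theta
  set θ : ℝ := ∑ p ∈ secondP N, Real.log (p : ℝ) with hθ
  have hθ0 : 0 ≤ θ := sum_nonneg fun p _ => Real.log_natCast_nonneg p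
  have hθ1 : θ ≤ 2 * (Nat.sqrt N : ℝ) := cheb_theta (Nat.sqrt N)
  have hsq : (Nat.sqrt N : ℝ) ^ 2 ≤ N := by
    have := Nat.sqrt_le' N
    exact_mod_cast this
  have hθ2 : θ ^ 2 ≤ 4 * N := by nlinarith [Nat.cast_nonneg (α := ℝ) (Nat.sqrt N)]
  have hmu0 : 0 ≤ mu N := sum_nonneg fun p _ => div_nonneg (Real.log_natCast_nonneg p) (Nat.cast_nonneg p)
  have hmu1 : mu N ≤ θ := by
    refine sum_le_sum fun p hp => ?_
    have hp1 : (1 : ℝ) ≤ p := by exact_mod_cast (second_prime hp).one_lt.le
    exact div_le_self (Real.log_natCast_nonneg p) hp1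
  have hmu2 : 2 * mu N * θ ≤ 8 * N := by nlinarith
  have hfin : (K : ℝ) ^ 2 * (θ ^ 2 + K * (2 * N * Real.log K ^ 2) + 2 * mu N * θ)
      ≤ K * N * B := by
    have h1 : θ ^ 2 + K * (2 * N * Real.log K ^ 2) + 2 * mu N * θ
        ≤ N * (12 + 2 * K * Real.log K ^ 2) := by
      nlinarith
    calc (K : ℝ) ^ 2 * (θ ^ 2 + K * (2 * N * Real.log K ^ 2) + 2 * mu N * θ)
        ≤ (K : ℝ) ^ 2 * (N * (12 + 2 * K * Real.log K ^ 2)) :=
          mul_le_mul_of_nonneg_left h1 (by positivity)
      _ = K * N * B := by rw [hB]; ring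
  have hlN : B ≤ Real.log N ^ 2 := by nlinarith
  have hKN0 : 0 ≤ (K : ℝ) * N := by positivity
  have h2 : (K : ℝ) * N * B ≤ K * N * Real.log N ^ 2 := mul_le_mul_of_nonneg_left hlN hKN0
  have h3 : (K : ℝ) * (2 * N * Real.log (3 * N) ^ 2) ≤ K * N * (9 / 2 * Real.log N ^ 2) := by
    nlinarith
  nlinarith [sq_nonneg (Real.log N)]

end Pool.Agent.H3.LC
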